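import Mathlib

/-!
The algebraic core of the calibration argument: a pointwise inequality for the integrand plus the
divergence of the calibrating field.
-/

namespace Pool.Agent.Lib.MP_98c801_an

/-- The function `Γ(U, ζ, M)`. `g` stands for `√2`. -/
noncomputable def Gam (g U z M : ℝ) : ℝ := g * U * (1 - z) ^ 2 * (M / 2 + U ^ 2 / 6 * (1 + 2 * z))

/-- Pointwise inequality. Here `(e1, e2)`, `(z1, z2)`, `(N1, N2)`, `(C1, C2)` are vectors,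
`dU, dM` stand for `∂_N U, ∂_N M`, `d = div_w N`, `D = div_w C`. -/
lemma calib {g U z M e e1 e2 z1 z2 N1 N2 C1 C2 dU dM d D : ℝ} (hg : g ^ 2 = 2) (hg0 : 0 < g)
    (hU : 0 ≤ U) (hz : 0 ≤ z) (hM : 0 ≤ M) (hd : 0 ≤ d) (hdM : 0 ≤ dM)
    (hN : N1 ^ 2 + N2 ^ 2 ≤ 1) (hNC : N1 * C1 + N2 * C2 ≤ d / 2)
    (hD : 1 - M ≤ D - (C1 ^ 2 + C2 ^ 2)) (hdU : M - U ^ 2 ≤ g * dU) :
    0 ≤ (e1 ^ 2 + e2 ^ 2) + (3 * U ^ 2 * z ^ 2 - 1) * e ^ 2 + 1 / 2 * e ^ 4 +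
      U ^ 2 * (z1 ^ 2 + z2 ^ 2) + 1 / 2 * U ^ 4 * (z ^ 2 - 1) ^ 2 +
      ((Gam g U z M + g * U * z * e ^ 2) * d +
        (g * (1 - z) ^ 2 * (M / 2 + U ^ 2 / 2 * (1 + 2 * z)) * dU +
          (-(g * U * (1 - z) * (M + U ^ 2 * z))) * (N1 * z1 + N2 * z2) +
          g * U * (1 - z) ^ 2 / 2 * dM) +
        (g * z * e ^ 2 * dU + g * U * e ^ 2 * (N1 * z1 + N2 * z2) +
          2 * g * U * z * e * (N1 * e1 + N2 * e2)) +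
        e ^ 2 * D + 2 * e * (C1 * e1 + C2 * e2)) := by
  set Y := e ^ 2 - (1 - z) * (M + U ^ 2 * z) with hY
  have hNz : 0 ≤ (1 - (N1 ^ 2 + N2 ^ 2)) * (Y ^ 2 / 2) := mul_nonneg (by linarith) (by positivity)
  have hNz2 : 0 ≤ (1 - (N1 ^ 2 + N2 ^ 2)) * (2 * U ^ 2 * z ^ 2 * e ^ 2) :=
    mul_nonneg (by linarith) (by positivity)
  have hDe : 0 ≤ e ^ 2 * (D - (C1 ^ 2 + C2 ^ 2) - (1 - M)) := mul_nonneg (by positivity) (by linarith)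
  have h1 : 0 ≤ z * e ^ 2 * (g * dU - (M - U ^ 2)) := mul_nonneg (by positivity) (by linarith)
  have h2 : 0 ≤ g * U * z * e ^ 2 * (d - 2 * (N1 * C1 + N2 * C2)) :=
    mul_nonneg (by positivity) (by linarith)
  have h3 : 0 ≤ (1 - z) ^ 2 * (M + U ^ 2 * (1 + 2 * z)) / 2 * (g * dU - (M - U ^ 2)) :=
    mul_nonneg (by positivity) (by linarith)
  have h4 : 0 ≤ Gam g U z M * d := mul_nonneg (by unfold Gam; positivity) hd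
  have h5 : 0 ≤ g * U * (1 - z) ^ 2 / 2 * dM := mul_nonneg (by positivity) hdM
  have q1 : 0 ≤ (e1 + e * (g * U * z * N1 + C1)) ^ 2 + (e2 + e * (g * U * z * N2 + C2)) ^ 2 := by
    positivity
  have q2 : 0 ≤ (U * z1 + Y * N1 * (g / 2)) ^ 2 + (U * z2 + Y * N2 * (g / 2)) ^ 2 := by
    positivity
  have key : (e1 ^ 2 + e2 ^ 2) + (3 * U ^ 2 * z ^ 2 - 1) * e ^ 2 + 1 / 2 * e ^ 4 +
      U ^ 2 * (z1 ^ 2 + z2 ^ 2) + 1 / 2 * U ^ 4 * (z ^ 2 - 1) ^ 2 +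
      ((Gam g U z M + g * U * z * e ^ 2) * d +
        (g * (1 - z) ^ 2 * (M / 2 + U ^ 2 / 2 * (1 + 2 * z)) * dU +
          (-(g * U * (1 - z) * (M + U ^ 2 * z))) * (N1 * z1 + N2 * z2) +
          g * U * (1 - z) ^ 2 / 2 * dM) +
        (g * z * e ^ 2 * dU + g * U * e ^ 2 * (N1 * z1 + N2 * z2) +
          2 * g * U * z * e * (N1 * e1 + N2 * e2)) +
        e ^ 2 * D + 2 * e * (C1 * e1 + C2 * e2)) =
      ((e1 + e * (g * U * z * N1 + C1)) ^ 2 + (e2 + e * (g * U * z * N2 + C2)) ^ 2) +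
      ((U * z1 + Y * N1 * (g / 2)) ^ 2 + (U * z2 + Y * N2 * (g / 2)) ^ 2) +
      (1 - (N1 ^ 2 + N2 ^ 2)) * (Y ^ 2 / 2) +
      (1 - (N1 ^ 2 + N2 ^ 2)) * (2 * U ^ 2 * z ^ 2 * e ^ 2) +
      e ^ 2 * (D - (C1 ^ 2 + C2 ^ 2) - (1 - M)) +
      z * e ^ 2 * (g * dU - (M - U ^ 2)) +
      g * U * z * e ^ 2 * (d - 2 * (N1 * C1 + N2 * C2)) +
      (1 - z) ^ 2 * (M + U ^ 2 * (1 + 2 * z)) / 2 * (g * dU - (M - U ^ 2)) +
      Gam g U z M * d + g * U * (1 - z) ^ 2 / 2 * dM := by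
    rw [hY]
    linear_combination
      (-(e ^ 2 * U ^ 2 * z ^ 2 * (N1 ^ 2 + N2 ^ 2)) -
        (e ^ 2 - (1 - z) * (M + U ^ 2 * z)) ^ 2 * (N1 ^ 2 + N2 ^ 2) / 4) * hg
  rw [key]
  linarith

end Pool.Agent.Lib.MP_98c801_an
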