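import Mathlib

/-!
Elementary inequalities for the hyperbolic tangent.
-/

namespace Pool.Agent.Lib.MP_98c801_an

open Real Set

noncomputable section

lemma hasDerivAt_tanh (y : ℝ) : HasDerivAt Real.tanh (1 - Real.tanh y ^ 2) y := by
  have h1 : HasDerivAt (fun y => Real.sinh y / Real.cosh y)
      ((Real.cosh y * Real.cosh y - Real.sinh y * Real.sinh y) / Real.cosh y ^ 2) y :=
    (Real.hasDerivAt_sinh y).div (Real.hasDerivAt_cosh y) (Real.cosh_pos y).ne'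
  have h2 : Real.tanh = fun y => Real.sinh y / Real.cosh y := by
    funext y; exact Real.tanh_eq_sinh_div_cosh y
  rw [h2]
  refine h1.congr_deriv ?_
  have := (Real.cosh_pos y).ne'
  field_simp

lemma tanh_pos {y : ℝ} (hy : 0 < y) : 0 < Real.tanh y := by
  rw [Real.tanh_eq_sinh_div_cosh]
  exact div_pos (Real.sinh_pos_iff.2 hy) (Real.cosh_pos y)

lemma tanh_nonneg {y : ℝ} (hy : 0 ≤ y) : 0 ≤ Real.tanh y := by
  rw [Real.tanh_eq_sinh_div_cosh]
  exact div_nonneg (Real.sinh_nonneg_iff.2 hy) (Real.cosh_pos y).le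

lemma sigma_eq (y : ℝ) : 1 - Real.tanh y ^ 2 = 1 / Real.cosh y ^ 2 := by
  have h1 := Real.cosh_sq y
  have h2 := (Real.cosh_pos y).ne'
  rw [Real.tanh_eq_sinh_div_cosh]
  field_simp
  linarith

lemma sigma_pos (y : ℝ) : 0 < 1 - Real.tanh y ^ 2 := by
  rw [sigma_eq]
  have := Real.cosh_pos y
  positivity

/-- monotonicity principle on `[0, ∞)` -/
lemma nonneg_of_deriv {f f' : ℝ → ℝ} (hf : ∀ x, HasDerivAt f (f' x) x) (h0 : 0 ≤ f 0)
    (hf' : ∀ x, 0 ≤ x → 0 ≤ f' x) {y : ℝ} (hy : 0 ≤ y) : 0 ≤ f y := by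
  have hmono : MonotoneOn f (Ici 0) := by
    refine monotoneOn_of_deriv_nonneg (convex_Ici 0) (fun x _ => (hf x).continuousAt.continuousWithinAt)
      (fun x _ => (hf x).differentiableAt.differentiableWithinAt) fun x hx => ?_
    rw [interior_Ici] at hx
    rw [(hf x).deriv]
    exact hf' x hx.le
  exact h0.trans (hmono (mem_Ici.2 le_rfl) (mem_Ici.2 hy) hy)

lemma sinh_ge {y : ℝ} (hy : 0 ≤ y) : y ≤ Real.sinh y := Real.self_le_sinh_iff.2 hy

lemma mul_cosh_ge {y : ℝ} (hy : 0 ≤ y) : Real.sinh y ≤ y * Real.cosh y := by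
  have h := nonneg_of_deriv (f := fun y => y * Real.cosh y - Real.sinh y)
    (f' := fun y => y * Real.sinh y) (fun x => by
      have := ((hasDerivAt_id x).mul (Real.hasDerivAt_cosh x)).sub (Real.hasDerivAt_sinh x)
      refine this.congr_deriv ?_
      simp) (by simp) (fun x hx => mul_nonneg hx (Real.sinh_nonneg_iff.2 hx)) hy
  linarith

/-- `sinh v ≥ v + v ^ 3 / 6` -/
lemma sinh_ge_cubic {v : ℝ} (hv : 0 ≤ v) : v + v ^ 3 / 6 ≤ Real.sinh v := by
  have hc : ∀ x : ℝ, 0 ≤ x → 1 + x ^ 2 / 2 ≤ Real.cosh x := by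
    intro x hx
    have h := nonneg_of_deriv (f := fun y => Real.cosh y - 1 - y ^ 2 / 2)
      (f' := fun y => Real.sinh y - y) (fun x => by
        have := ((Real.hasDerivAt_cosh x).sub_const 1).sub ((hasDerivAt_pow 2 x).div_const 2)
        refine this.congr_deriv ?_
        simp) (by simp) (fun x hx => by have := sinh_ge hx; linarith) hx
    linarith
  have h := nonneg_of_deriv (f := fun y => Real.sinh y - y - y ^ 3 / 6)
    (f' := fun y => Real.cosh y - 1 - y ^ 2 / 2) (fun x => by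
      have := ((Real.hasDerivAt_sinh x).sub (hasDerivAt_id x)).sub ((hasDerivAt_pow 3 x).div_const 6)
      refine this.congr_deriv ?_
      simp only [Nat.cast_ofNat, Nat.add_one_sub_one]
      ring) (by simp) (fun x hx => by have := hc x hx; linarith) hv
  linarith

/-- `cosh v ≥ 1 + v²/2 + v⁴/24` -/
lemma cosh_ge_quartic {v : ℝ} (hv : 0 ≤ v) : 1 + v ^ 2 / 2 + v ^ 4 / 24 ≤ Real.cosh v := by
  have h := nonneg_of_deriv (f := fun y => Real.cosh y - 1 - y ^ 2 / 2 - y ^ 4 / 24)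
    (f' := fun y => Real.sinh y - y - y ^ 3 / 6) (fun x => by
      have := (((Real.hasDerivAt_cosh x).sub_const 1).sub ((hasDerivAt_pow 2 x).div_const 2)).sub
        ((hasDerivAt_pow 4 x).div_const 24)
      refine this.congr_deriv ?_
      simp only [Nat.cast_ofNat, Nat.add_one_sub_one]
      ring) (by simp) (fun x hx => by have := sinh_ge_cubic hx; linarith) hv
  linarith

/-- `sinh v (1 - v²/6) ≤ v` -/
lemma sinh_mul_le {v : ℝ} (hv : 0 ≤ v) : Real.sinh v - v ≤ v ^ 2 / 6 * Real.sinh v := by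
  have h2 : ∀ x : ℝ, 0 ≤ x → 0 ≤ 1 - Real.cosh x + x / 3 * Real.sinh x + x ^ 2 / 6 * Real.cosh x := by
    intro x hx
    refine nonneg_of_deriv (f := fun x => 1 - Real.cosh x + x / 3 * Real.sinh x +
      x ^ 2 / 6 * Real.cosh x) (f' := fun x => -(2 / 3) * Real.sinh x + (2 / 3) * (x * Real.cosh x) +
      x ^ 2 / 6 * Real.sinh x) (fun x => ?_) (by simp) (fun x hx => ?_) hx
    · have := (((hasDerivAt_const x (1 : ℝ)).sub (Real.hasDerivAt_cosh x)).add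
        (((hasDerivAt_id x).div_const 3).mul (Real.hasDerivAt_sinh x))).add
        (((hasDerivAt_pow 2 x).div_const 6).mul (Real.hasDerivAt_cosh x))
      refine this.congr_deriv ?_
      simp only [Nat.cast_ofNat, Nat.add_one_sub_one, id]
      ring
    · have h3 := mul_cosh_ge hx
      have h4 := Real.sinh_nonneg_iff.2 hx
      have : 0 ≤ x ^ 2 / 6 * Real.sinh x := by positivity
      linarith
  have h := nonneg_of_deriv (f := fun v => v - Real.sinh v + v ^ 2 / 6 * Real.sinh v)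
    (f' := fun x => 1 - Real.cosh x + x / 3 * Real.sinh x + x ^ 2 / 6 * Real.cosh x) (fun x => by
      have := ((hasDerivAt_id x).sub (Real.hasDerivAt_sinh x)).add
        (((hasDerivAt_pow 2 x).div_const 6).mul (Real.hasDerivAt_sinh x))
      refine this.congr_deriv ?_
      simp only [Nat.cast_ofNat, Nat.add_one_sub_one]
      ring) (by simp) h2 hv
  linarith

/-- (T2) -/
lemma mul_sigma_le {y : ℝ} (hy : 0 ≤ y) : y * (1 - Real.tanh y ^ 2) ≤ Real.tanh y := by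
  rw [sigma_eq, Real.tanh_eq_sinh_div_cosh]
  have hc := Real.cosh_pos y
  have h1 : y ≤ Real.sinh y * Real.cosh y := by
    have := sinh_ge hy
    have h2 := Real.one_le_cosh y
    nlinarith [Real.sinh_nonneg_iff.2 hy]
  rw [mul_one_div, div_le_div_iff₀ (by positivity) hc]
  nlinarith

/-- (T3) -/
lemma le_tanh {y : ℝ} (hy : 0 ≤ y) : 3 * y ≤ (3 + y ^ 2) * Real.tanh y := by
  rw [Real.tanh_eq_sinh_div_cosh]
  have hc := Real.cosh_pos y
  have h := nonneg_of_deriv (f := fun y => (3 + y ^ 2) * Real.sinh y - 3 * y * Real.cosh y)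
    (f' := fun y => y * (y * Real.cosh y - Real.sinh y)) (fun x => by
      have := ((((hasDerivAt_pow 2 x).const_add 3)).mul (Real.hasDerivAt_sinh x)).sub
        (((hasDerivAt_id x).const_mul 3).mul (Real.hasDerivAt_cosh x))
      refine this.congr_deriv ?_
      simp only [Nat.cast_ofNat, Nat.add_one_sub_one, id]
      ring) (by simp) (fun x hx => mul_nonneg hx (by have := mul_cosh_ge hx; linarith)) hy
  rw [mul_div_assoc', le_div_iff₀ hc]
  linarith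

/-- (T4) -/
lemma sigma_mul_le {y : ℝ} (hy : 0 ≤ y) :
    (1 - Real.tanh y ^ 2) * (1 + y ^ 2 + y ^ 4 / 3) ≤ 1 := by
  rw [sigma_eq, one_div, inv_mul_le_iff₀ (by have := Real.cosh_pos y; positivity), mul_one]
  have h1 := cosh_ge_quartic (v := 2 * y) (by linarith)
  rw [Real.cosh_two_mul, Real.sinh_sq] at h1
  nlinarith

/-- (T5) -/
lemma tanh_sub_ge {y : ℝ} (hy : 0 ≤ y) :
    2 / 3 * y ^ 2 * Real.tanh y * (1 - Real.tanh y ^ 2) ≤
      Real.tanh y - y * (1 - Real.tanh y ^ 2) := by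
  have hc := Real.cosh_pos y
  have h1 := sinh_ge_cubic (v := 2 * y) (by linarith)
  rw [Real.sinh_two_mul] at h1
  have h2 : Real.sinh y ≤ y * Real.cosh y := mul_cosh_ge hy
  have h3 : 2 / 3 * y ^ 2 * (Real.sinh y / Real.cosh y) ≤ 2 / 3 * y ^ 3 := by
    have : Real.sinh y / Real.cosh y ≤ y := by rw [div_le_iff₀ hc]; exact h2
    nlinarith [sq_nonneg y]
  rw [sigma_eq, Real.tanh_eq_sinh_div_cosh]
  have e1 : 2 / 3 * y ^ 2 * (Real.sinh y / Real.cosh y) * (1 / Real.cosh y ^ 2) =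
      (2 / 3 * y ^ 2 * (Real.sinh y / Real.cosh y)) / Real.cosh y ^ 2 := by ring
  have e2 : Real.sinh y / Real.cosh y - y * (1 / Real.cosh y ^ 2) =
      (Real.sinh y * Real.cosh y - y) / Real.cosh y ^ 2 := by
    field_simp
  rw [e1, e2]
  refine div_le_div_of_nonneg_right ?_ (by positivity)
  linarith

/-- (T6) -/
lemma tanh_sub_le {y : ℝ} (hy : 0 ≤ y) :
    Real.tanh y - y * (1 - Real.tanh y ^ 2) ≤ 2 / 3 * y ^ 2 * Real.tanh y := by
  have hc := Real.cosh_pos y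
  have h1 := sinh_mul_le (v := 2 * y) (by linarith)
  rw [Real.sinh_two_mul] at h1
  rw [sigma_eq, Real.tanh_eq_sinh_div_cosh]
  have e1 : 2 / 3 * y ^ 2 * (Real.sinh y / Real.cosh y) =
      (2 / 3 * y ^ 2 * (Real.sinh y * Real.cosh y)) / Real.cosh y ^ 2 := by
    field_simp
  have e2 : Real.sinh y / Real.cosh y - y * (1 / Real.cosh y ^ 2) =
      (Real.sinh y * Real.cosh y - y) / Real.cosh y ^ 2 := by
    field_simp
  rw [e1, e2]
  refine div_le_div_of_nonneg_right ?_ (by positivity)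
  nlinarith

/-- `tanh y ≤ y` -/
lemma tanh_le_self {y : ℝ} (hy : 0 ≤ y) : Real.tanh y ≤ y := by
  rw [Real.tanh_eq_sinh_div_cosh, div_le_iff₀ (Real.cosh_pos y)]
  exact mul_cosh_ge hy

end

end Pool.Agent.Lib.MP_98c801_an

/-!
The scalar inequality expressing that `U` is a subsolution.
-/

namespace Pool.Agent.Lib.MP_98c801_an

open Real Set

noncomputable section

lemma beta_le {x β : ℝ} (hx0 : 0 ≤ x) (hx1 : x ≤ 1 / 4) (hβ : β * (1 + x) ^ 3 = 1) :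
    β ≤ 1 - 244 / 125 * x := by
  have h1 : 1 ≤ (1 - 244 / 125 * x) * (1 + x) ^ 3 := by
    have h2 : 0 ≤ x * (1 / 4 - x) := mul_nonneg hx0 (by linarith)
    have h3 : 0 ≤ x * (1 / 4 - x) * x := mul_nonneg h2 hx0
    have h4 : 0 ≤ x * (1 / 4 - x) * x * x := mul_nonneg h3 hx0
    nlinarith
  have h5 : 0 < (1 + x) ^ 3 := by positivity
  have : β * (1 + x) ^ 3 ≤ (1 - 244 / 125 * x) * (1 + x) ^ 3 := by rw [hβ]; exact h1
  exact le_of_mul_le_mul_right this h5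

/-- vertex inequality 1 -/
lemma vertex1 {m c x β K Y : ℝ} (hm : 5 ≤ m) (hc : c = 2 * m - 7 / 2) (hx0 : 0 ≤ x)
    (hx1 : x ≤ 1 / 4) (hβ0 : 0 ≤ β) (hβ : β ≤ 1 - 244 / 125 * x)
    (hK : K = 2 * m - 4 - 25 / 12 * c * x) (hY : 0 ≤ Y) :
    0 ≤ c * (K * (1 + Y + Y ^ 2 / 3) + 2 * m - 4 * Y) + 76 * β * Y ^ 2 -
      (16 * m + 60) * β * Y := by
  have hxm : 0 ≤ (m - 5) * (1 / 4 - x) := mul_nonneg (by linarith) (by linarith)
  have hxm2 : 0 ≤ (m - 5) * x := mul_nonneg (by linarith) (by linarith)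
  have hmm : 0 ≤ (m - 5) * (m - 5) := mul_nonneg (by linarith) (by linarith)
  have hmmx : 0 ≤ (m - 5) * (m - 5) * (1 / 4 - x) := mul_nonneg hmm (by linarith)
  have hmmx2 : 0 ≤ (m - 5) * (m - 5) * x := mul_nonneg hmm (by linarith)
  have e1 : 0 ≤ β * (92 - 16 * m) + 5 / 3 * c * K - 4 * c := by
    have : 0 ≤ (1 - 244 / 125 * x - β) * (m - 5) := mul_nonneg (by linarith) (by linarith)
    subst hK hc
    nlinarith
  have e2 : 0 ≤ c * (2 / 3 * K + 2 * m) - 76 * β := by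
    subst hK hc
    nlinarith
  have e3 : 0 ≤ 76 * β + c * K / 3 := by
    subst hK hc
    nlinarith
  have e4 : 0 ≤ (76 * β + c * K / 3) * (Y - 1) ^ 2 := mul_nonneg e3 (sq_nonneg _)
  have e5 : 0 ≤ (β * (92 - 16 * m) + 5 / 3 * c * K - 4 * c) * Y := mul_nonneg e1 hY
  nlinarith

/-- vertex inequality 2 -/
lemma vertex2 {m c x β K Y : ℝ} (hm : 5 ≤ m) (hc : c = 2 * m - 7 / 2) (hx0 : 0 ≤ x)
    (hx1 : x ≤ 1 / 4) (hβ0 : 0 ≤ β) (hβ : β ≤ 1 - 244 / 125 * x)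
    (hK : K = 2 * m - 4 - 25 / 12 * c * x) (hY : 0 ≤ Y) :
    0 ≤ c * (K * (1 + Y + Y ^ 2 / 3) + 2 * m * (1 + Y / 3) - 4 * Y) + 76 * β * Y ^ 2 -
      (16 * m + 60) * β * (Y + Y ^ 2 / 3) := by
  have hxm : 0 ≤ (m - 5) * (1 / 4 - x) := mul_nonneg (by linarith) (by linarith)
  have hxm2 : 0 ≤ (m - 5) * x := mul_nonneg (by linarith) (by linarith)
  have hmm : 0 ≤ (m - 5) * (m - 5) := mul_nonneg (by linarith) (by linarith)
  have hmmx : 0 ≤ (m - 5) * (m - 5) * (1 / 4 - x) := mul_nonneg hmm (by linarith)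
  have hmmx2 : 0 ≤ (m - 5) * (m - 5) * x := mul_nonneg hmm (by linarith)
  have hbm : 0 ≤ (1 - 244 / 125 * x - β) * (m - 5) := mul_nonneg (by linarith) (by linarith)
  have e1 : 0 ≤ β * (108 - 32 * m) + 2 * c * K + c * (2 * m / 3 - 4) := by
    subst hK hc
    nlinarith
  have hbm2 : 0 ≤ β * (m - 5) := mul_nonneg hβ0 (by linarith)
  have e2 : 0 ≤ c * (1 / 4 * K + 2 * m) - 9 / 4 * β * (56 - 16 * m / 3) := by
    subst hK hc
    nlinarith
  have e3 : 0 ≤ β * (56 - 16 * m / 3) + c * K / 3 := by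
    subst hK hc
    nlinarith
  have e4 : 0 ≤ (β * (56 - 16 * m / 3) + c * K / 3) * (Y - 3 / 2) ^ 2 :=
    mul_nonneg e3 (sq_nonneg _)
  have e5 : 0 ≤ (β * (108 - 32 * m) + 2 * c * K + c * (2 * m / 3 - 4)) * Y := mul_nonneg e1 hY
  nlinarith

/-- The main scalar inequality.  `s1 = y σ / τ`, `s2 = y² σ`, `Y = y²`. -/
lemma F_nonneg {m c x Y s1 s2 : ℝ} (hm : 5 ≤ m) (hc : c = 2 * m - 7 / 2) (hx0 : 0 ≤ x)
    (hx1 : x ≤ 1 / 4) (hY : 0 < Y) (hs2 : 0 ≤ s2)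
    (h1 : s2 * (1 + Y + Y ^ 2 / 3) ≤ Y) (h2 : s2 ≤ Y * s1) (h3 : 3 * (Y * s1) ≤ (3 + Y) * s2)
    (h4 : 2 / 3 * s2 ≤ 1 - s1) (h5 : 1 - s1 ≤ 2 / 3 * Y) :
    0 ≤ c - 2 * ((3 - 13 * x - 35 * x ^ 2) / (1 + x) ^ 2) * s2 -
      ((2 * m - 5 + (10 * m + 25) * x) / (1 + x)) * s1 +
      (c * x * (1 + x) ^ 2 / (2 * Y)) * ((2 * m - 4) + 2 * m * s1 - 4 * s2) -
      (c * x * (1 + x) ^ 2 / (2 * Y)) ^ 2 * (1 - s1 + 2 * s2) := by
  have hk : 0 < 1 + x := by linarith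
  have hc0 : 0 < c := by rw [hc]; linarith
  -- bounds for `s2`
  have hs2Y : s2 ≤ Y := by nlinarith
  have hs2h : s2 ≤ 1 / 2 := by
    by_contra hcon
    push Not at hcon
    nlinarith [sq_nonneg (Y - 3 / 2)]
  set β := 1 / (1 + x) ^ 3 with hβdef
  have hβ0 : 0 < β := by positivity
  have hβ1 : β * (1 + x) ^ 3 = 1 := by rw [hβdef]; field_simp
  have hβ := beta_le hx0 hx1 hβ1
  set K := 2 * m - 4 - 25 / 12 * c * x with hK
  have v1 := vertex1 hm hc hx0 hx1 hβ0.le hβ hK hY.le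
  have v2 := vertex2 hm hc hx0 hx1 hβ0.le hβ hK hY.le
  have hKpos : 0 ≤ K := by rw [hK, hc]; nlinarith [mul_nonneg (sub_nonneg.2 hm) (sub_nonneg.2 hx1)]
  -- the main estimate for the `x`-part
  have main : 0 ≤ 76 * Y * β * s2 + c * (K + 2 * m * s1 - 4 * s2) - (16 * m + 60) * Y * β * s1 := by
    have t1 : 0 ≤ Y * (Y - s2 * (1 + Y + Y ^ 2 / 3)) * (c * K) :=
      mul_nonneg (mul_nonneg hY.le (by linarith)) (mul_nonneg hc0.le hKpos)
    have t2 := mul_nonneg (show 0 ≤ (3 + Y) * s2 - 3 * (Y * s1) by linarith) v1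
    have t3 := mul_nonneg (show 0 ≤ 3 * (Y * s1 - s2) by linarith) v2
    have t4 : Y ^ 2 * (76 * Y * β * s2 + c * (K + 2 * m * s1 - 4 * s2) -
        (16 * m + 60) * Y * β * s1) = Y * (Y - s2 * (1 + Y + Y ^ 2 / 3)) * (c * K) +
        ((3 + Y) * s2 - 3 * (Y * s1)) * (c * (K * (1 + Y + Y ^ 2 / 3) + 2 * m - 4 * Y) +
          76 * β * Y ^ 2 - (16 * m + 60) * β * Y) +
        3 * (Y * s1 - s2) * (c * (K * (1 + Y + Y ^ 2 / 3) + 2 * m * (1 + Y / 3) - 4 * Y) +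
          76 * β * Y ^ 2 - (16 * m + 60) * β * (Y + Y ^ 2 / 3)) := by ring
    have t5 : 0 ≤ Y ^ 2 * (76 * Y * β * s2 + c * (K + 2 * m * s1 - 4 * s2) -
        (16 * m + 60) * Y * β * s1) := by rw [t4]; positivity
    exact nonneg_of_mul_nonneg_right t5 (by positivity)
  -- `F0`
  have hF0 : 0 ≤ c - (2 * m - 5) * s1 - 6 * s2 := by
    have : 0 ≤ (2 * m - 5) * (1 - s1 - 2 / 3 * s2) := mul_nonneg (by linarith) (by linarith)
    nlinarith
  have hkk : 0 ≤ (25 / 16 - (1 + x) ^ 2) := by nlinarith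
  -- compare
  have key : c - 2 * ((3 - 13 * x - 35 * x ^ 2) / (1 + x) ^ 2) * s2 -
      ((2 * m - 5 + (10 * m + 25) * x) / (1 + x)) * s1 +
      (c * x * (1 + x) ^ 2 / (2 * Y)) * ((2 * m - 4) + 2 * m * s1 - 4 * s2) -
      (c * x * (1 + x) ^ 2 / (2 * Y)) ^ 2 * (1 - s1 + 2 * s2) =
      (c - (2 * m - 5) * s1 - 6 * s2) +
      x * (1 + x) ^ 2 / (2 * Y) * (76 * Y * β * s2 + c * (K + 2 * m * s1 - 4 * s2) -
        (16 * m + 60) * Y * β * s1) +
      38 * x * x / (1 + x) ^ 2 * s2 +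
      x * (1 + x) ^ 2 / (2 * Y) * (4 / 3 * c ^ 2 * x * (25 / 16 - (1 + x) ^ 2)) +
      (c * x * (1 + x) ^ 2) ^ 2 / (4 * Y ^ 2) * (8 / 3 * Y - (1 - s1 + 2 * s2)) := by
    rw [hβdef, hK]
    field_simp
    ring
  rw [key]
  have p1 : 0 ≤ 8 / 3 * Y - (1 - s1 + 2 * s2) := by linarith
  have p2 : 0 ≤ x * (1 + x) ^ 2 / (2 * Y) * (76 * Y * β * s2 + c * (K + 2 * m * s1 - 4 * s2) -
        (16 * m + 60) * Y * β * s1) := mul_nonneg (by positivity) main
  have p3 : 0 ≤ x * (1 + x) ^ 2 / (2 * Y) * (4 / 3 * c ^ 2 * x * (25 / 16 - (1 + x) ^ 2)) :=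
    mul_nonneg (by positivity) (mul_nonneg (by positivity) hkk)
  have p4 : 0 ≤ (c * x * (1 + x) ^ 2) ^ 2 / (4 * Y ^ 2) * (8 / 3 * Y - (1 - s1 + 2 * s2)) :=
    mul_nonneg (by positivity) p1
  have p5 : 0 ≤ 38 * x * x / (1 + x) ^ 2 * s2 := by positivity
  linarith

end

end Pool.Agent.Lib.MP_98c801_an
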