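import Mathlib
import Pool.Agent.Lib.MP_98c801_an.Alg
import Pool.Agent.Lib.MP_98c801_an.Sub

/-!
The explicit subsolution `U` in the variables `r, q, R` and its derivatives along curves.
-/

namespace Pool.Agent.Lib.MP_98c801_an

open Real Set

noncomputable section

/-- `y = R h(q) / √2` -/
def yy (q R : ℝ) : ℝ := R * (q + q ^ 3) / √2

/-- `U = (R / r) tanh y` -/
def U0 (r q R : ℝ) : ℝ := R / r * Real.tanh (yy q R)

/-- `U_r / r` -/
def U1 (c r q R : ℝ) : ℝ :=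
  (c * Real.tanh (yy q R) / r ^ 2 + yy q R * (1 - Real.tanh (yy q R) ^ 2)) / (R * r)

/-- `U_q` -/
def U2 (r q R : ℝ) : ℝ := R ^ 2 * (1 - Real.tanh (yy q R) ^ 2) * (1 + 3 * q ^ 2) / (√2 * r)

/-- `∂_r U1` -/
def U1r (c r q R : ℝ) : ℝ :=
  c * (((1 - Real.tanh (yy q R) ^ 2) * yy q R - Real.tanh (yy q R)) / (R ^ 3 * r ^ 2) -
    3 * Real.tanh (yy q R) / (R * r ^ 4)) -
  yy q R / R * (1 - Real.tanh (yy q R) ^ 2) * (2 * Real.tanh (yy q R) * yy q R / R ^ 2 + 1 / r ^ 2)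

/-- `∂_q U1` -/
def U1q (c r q R : ℝ) : ℝ :=
  c * (1 - Real.tanh (yy q R) ^ 2) * (1 + 3 * q ^ 2) / (√2 * r ^ 3) +
  (1 - Real.tanh (yy q R) ^ 2) * (1 + 3 * q ^ 2) * (1 - 2 * Real.tanh (yy q R) * yy q R) / (√2 * r)

/-- `∂_r U2` -/
def U2r (r q R : ℝ) : ℝ :=
  (1 + 3 * q ^ 2) / √2 * (1 - Real.tanh (yy q R) ^ 2) *
    (2 - 2 * Real.tanh (yy q R) * yy q R - R ^ 2 / r ^ 2)

/-- `∂_q U2` -/
def U2q (r q R : ℝ) : ℝ :=
  R ^ 2 / (√2 * r) * (1 - Real.tanh (yy q R) ^ 2) *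
    (6 * q - 2 * Real.tanh (yy q R) * (R * (1 + 3 * q ^ 2) / √2) * (1 + 3 * q ^ 2))

variable {r q R : ℝ → ℝ} {r' q' c a : ℝ}

lemma sqrt2_pos : 0 < √(2 : ℝ) := by positivity

lemma sqrt2_sq : √(2 : ℝ) ^ 2 = 2 := Real.sq_sqrt (by norm_num)

lemma hasDerivAt_yy (hq : HasDerivAt q q' a) (hR : HasDerivAt R (r a * r' / R a) a)
    (hR0 : 0 < R a) :
    HasDerivAt (fun a => yy (q a) (R a))
      (yy (q a) (R a) * r a / R a ^ 2 * r' + R a * (1 + 3 * q a ^ 2) / √2 * q') a := by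
  have h1 := (hR.mul (hq.add (hq.pow 3))).div_const √2
  refine h1.congr_deriv ?_
  simp only [yy, Nat.cast_ofNat, Nat.add_one_sub_one, Pi.add_apply, Pi.pow_apply]
  have := sqrt2_pos.ne'
  field_simp

lemma hasDerivAt_tt (hq : HasDerivAt q q' a) (hR : HasDerivAt R (r a * r' / R a) a)
    (hR0 : 0 < R a) :
    HasDerivAt (fun a => Real.tanh (yy (q a) (R a)))
      ((1 - Real.tanh (yy (q a) (R a)) ^ 2) *
        (yy (q a) (R a) * r a / R a ^ 2 * r' + R a * (1 + 3 * q a ^ 2) / √2 * q')) a := by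
  have h := HasDerivAt.comp a (hasDerivAt_tanh (yy (q a) (R a))) (hasDerivAt_yy hq hR hR0)
  exact h

lemma hasDerivAt_U0 (hr : HasDerivAt r r' a) (hq : HasDerivAt q q' a)
    (hR : HasDerivAt R (r a * r' / R a) a) (hr0 : 0 < r a) (hR0 : 0 < R a)
    (hc : c = r a ^ 2 - R a ^ 2) :
    HasDerivAt (fun a => U0 (r a) (q a) (R a))
      (r a * U1 c (r a) (q a) (R a) * r' + U2 (r a) (q a) (R a) * q') a := by
  have h1 := (hR.div hr hr0.ne').mul (hasDerivAt_tt hq hR hR0)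
  refine h1.congr_deriv ?_
  simp only [U1, U2, hc, Pi.div_apply]
  have := sqrt2_pos.ne'
  field_simp
  ring

lemma hasDerivAt_U1 (hr : HasDerivAt r r' a) (hq : HasDerivAt q q' a)
    (hR : HasDerivAt R (r a * r' / R a) a) (hr0 : 0 < r a) (hR0 : 0 < R a) :
    HasDerivAt (fun a => U1 c (r a) (q a) (R a))
      (U1r c (r a) (q a) (R a) * r' + U1q c (r a) (q a) (R a) * q') a := by
  have ht := hasDerivAt_tt hq hR hR0
  have hy := hasDerivAt_yy hq hR hR0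
  have h1 := (((ht.const_mul c).div (hr.pow 2) (by simp only [Pi.pow_apply]; positivity)).add
    (hy.mul ((ht.pow 2).const_sub 1))).div (hR.mul hr) (by simp only [Pi.mul_apply]; positivity)
  refine h1.congr_deriv ?_
  have hyR : R a * (q a + q a ^ 3) / √2 = yy (q a) (R a) := rfl
  have hyR2 : R a * (1 + 3 * q a ^ 2) * (R a * (q a + q a ^ 3) / √2) =
    R a * (1 + 3 * q a ^ 2) * yy (q a) (R a) := rfl
  simp only [U1r, U1q, Nat.cast_ofNat, Nat.add_one_sub_one, Pi.add_apply, Pi.pow_apply,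
    Pi.mul_apply, Pi.div_apply, pow_one]
  have := sqrt2_pos.ne'
  field_simp
  ring

lemma hasDerivAt_U2 (hr : HasDerivAt r r' a) (hq : HasDerivAt q q' a)
    (hR : HasDerivAt R (r a * r' / R a) a) (hr0 : 0 < r a) (hR0 : 0 < R a) :
    HasDerivAt (fun a => U2 (r a) (q a) (R a))
      (U2r (r a) (q a) (R a) * r' + U2q (r a) (q a) (R a) * q') a := by
  have ht := hasDerivAt_tt hq hR hR0
  have h1 := (((hR.pow 2).mul ((ht.pow 2).const_sub 1)).mul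
    (((hq.pow 2).const_mul 3).const_add 1)).div (hr.const_mul √2)
    (by have := sqrt2_pos; positivity)
  refine h1.congr_deriv ?_
  simp only [U2r, U2q, Nat.cast_ofNat, Nat.add_one_sub_one, Pi.pow_apply,
    Pi.mul_apply, pow_one]
  have := sqrt2_pos.ne'
  field_simp
  ring

/-- The expression of `ΔU + U - U³` in terms of `s1 = y σ / τ`, `s2 = y² σ`. -/
lemma lap_identity {m c r q R : ℝ} (hr : 0 < r) (hq : 0 < q) (hR : 0 < R)
    (hc : c = r ^ 2 - R ^ 2) {s1 s2 : ℝ}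
    (hs1 : s1 = yy q R * (1 - Real.tanh (yy q R) ^ 2) / Real.tanh (yy q R))
    (hs2 : s2 = yy q R ^ 2 * (1 - Real.tanh (yy q R) ^ 2)) :
    2 * m * U1 c r q R - 4 * m * q * U2 r q R / r ^ 2 + r * U1r c r q R +
        (1 - 4 * q ^ 2) * U2q r q R / r ^ 2 + U0 r q R - U0 r q R ^ 3 =
      R * Real.tanh (yy q R) / r ^ 3 *
        (c - 2 * ((3 - 13 * q ^ 2 - 35 * (q ^ 2) ^ 2) / (1 + q ^ 2) ^ 2) * s2 -
      ((2 * m - 5 + (10 * m + 25) * q ^ 2) / (1 + q ^ 2)) * s1 +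
      (c * q ^ 2 * (1 + q ^ 2) ^ 2 / (2 * yy q R ^ 2)) * ((2 * m - 4) + 2 * m * s1 - 4 * s2) -
      (c * q ^ 2 * (1 + q ^ 2) ^ 2 / (2 * yy q R ^ 2)) ^ 2 * (1 - s1 + 2 * s2)) := by
  have hy0 : 0 < yy q R := by unfold yy; positivity
  have ht0 : 0 < Real.tanh (yy q R) := tanh_pos hy0
  have hR2 : R ^ 2 * (q ^ 2 * (1 + q ^ 2) ^ 2) = 2 * yy q R ^ 2 := by
    have h2 := sqrt2_sq
    have h3 := sqrt2_pos.ne'
    unfold yy
    field_simp
    rw [h2]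
  have hg : √2 = R * (q + q ^ 3) / yy q R := by
    have h3 := sqrt2_pos.ne'
    unfold yy
    field_simp
  have hH : c * q ^ 2 * (1 + q ^ 2) ^ 2 / (2 * yy q R ^ 2) = c / R ^ 2 := by
    rw [← hR2]; field_simp
  have hRs : R ^ 2 * (1 - Real.tanh (yy q R) ^ 2) = 2 * s2 / (q ^ 2 * (1 + q ^ 2) ^ 2) := by
    rw [hs2, eq_div_iff (by positivity)]
    linear_combination (1 - Real.tanh (yy q R) ^ 2) * hR2
  have hF : c - 2 * ((3 - 13 * q ^ 2 - 35 * (q ^ 2) ^ 2) / (1 + q ^ 2) ^ 2) * s2 -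
      ((2 * m - 5 + (10 * m + 25) * q ^ 2) / (1 + q ^ 2)) * s1 +
      (c * q ^ 2 * (1 + q ^ 2) ^ 2 / (2 * yy q R ^ 2)) * ((2 * m - 4) + 2 * m * s1 - 4 * s2) -
      (c * q ^ 2 * (1 + q ^ 2) ^ 2 / (2 * yy q R ^ 2)) ^ 2 * (1 - s1 + 2 * s2) =
      c + (2 * m - 1) * s1 - 2 * s2 + (1 - 4 * q ^ 2) * (6 / (1 + q ^ 2)) * s1 -
      4 * m * ((1 + 3 * q ^ 2) / (1 + q ^ 2)) * s1 + R ^ 2 * (1 - Real.tanh (yy q R) ^ 2) -
      2 * s2 * (1 - 4 * q ^ 2) * (1 + 3 * q ^ 2) ^ 2 / (q ^ 2 * (1 + q ^ 2) ^ 2) +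
      (c / R ^ 2) * ((2 * m - 4) + 2 * m * s1 - 4 * s2) -
      (c / R ^ 2) ^ 2 * (1 - s1 + 2 * s2) := by
    rw [hH, hRs]
    field_simp
    ring
  rw [hF, hs1, hs2, hc]
  simp only [U1, U2, U1r, U2q, U0]
  generalize yy q R = y at hg hy0 ht0 ⊢
  generalize Real.tanh y = τ at ht0 ⊢
  rw [hg]
  field_simp
  ring

/-- `U` is a subsolution. -/
lemma lap_nonneg {m c r q R : ℝ} (hm : 5 ≤ m) (hr : 0 < r) (hq : 0 < q) (hq2 : q ≤ 1 / 2)
    (hR : 0 < R) (hc : c = r ^ 2 - R ^ 2) (hcm : c = 2 * m - 7 / 2) :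
    0 ≤ 2 * m * U1 c r q R - 4 * m * q * U2 r q R / r ^ 2 + r * U1r c r q R +
        (1 - 4 * q ^ 2) * U2q r q R / r ^ 2 + U0 r q R - U0 r q R ^ 3 := by
  have hy0 : 0 < yy q R := by unfold yy; positivity
  have ht0 : 0 < Real.tanh (yy q R) := tanh_pos hy0
  have hs0 := sigma_pos (yy q R)
  rw [lap_identity hr hq hR hc rfl rfl]
  refine mul_nonneg (by positivity) ?_
  have t2 := tanh_le_self hy0.le
  have t3 := le_tanh hy0.le
  have t4 := sigma_mul_le hy0.le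
  have t5 := tanh_sub_ge hy0.le
  have t6 := tanh_sub_le hy0.le
  set y := yy q R with hy
  set τ := Real.tanh y with hτ
  have hx : q ^ 2 ≤ 1 / 4 := by nlinarith
  refine F_nonneg hm hcm (by positivity) hx (Y := y ^ 2) (by positivity) (by positivity)
    ?_ ?_ ?_ ?_ ?_
  · have := mul_le_mul_of_nonneg_left t4 (sq_nonneg y)
    nlinarith
  · have e1 : y ^ 2 * (y * (1 - τ ^ 2) / τ) = y ^ 2 * (1 - τ ^ 2) * y / τ := by ring
    rw [e1, le_div_iff₀ ht0]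
    exact mul_le_mul_of_nonneg_left t2 (by positivity)
  · have e1 : 3 * (y ^ 2 * (y * (1 - τ ^ 2) / τ)) = y ^ 2 * (1 - τ ^ 2) * (3 * y) / τ := by ring
    rw [e1, div_le_iff₀ ht0]
    have := mul_le_mul_of_nonneg_left t3 (show 0 ≤ y ^ 2 * (1 - τ ^ 2) by positivity)
    linarith
  · have e1 : 1 - y * (1 - τ ^ 2) / τ = (τ - y * (1 - τ ^ 2)) / τ := by field_simp
    rw [e1, le_div_iff₀ ht0]
    linarith
  · have e1 : 1 - y * (1 - τ ^ 2) / τ = (τ - y * (1 - τ ^ 2)) / τ := by field_simp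
    rw [e1, div_le_iff₀ ht0]
    linarith

/-- the first order inequality `U² + √2 ∂_N U ≥ 1 - κ / r²` -/
lemma first_order {c κ r q R : ℝ} (hr : 0 < r) (hq : 0 < q)
    (hR : 0 < R) (hc : c = r ^ 2 - R ^ 2) (hc0 : 13 / 2 ≤ c) (hκ : c + 1 / 2 ≤ κ) :
    1 - κ / r ^ 2 ≤ U0 r q R ^ 2 + √2 * (3 * q * r / (1 + 5 / 2 * q ^ 2) * U1 c r q R +
      (1 - 4 * q ^ 2) / (r * (1 + 5 / 2 * q ^ 2)) * U2 r q R) := by
  have hy0 : 0 < yy q R := by unfold yy; positivity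
  have ht0 : 0 < Real.tanh (yy q R) := tanh_pos hy0
  have hs0 := sigma_pos (yy q R)
  have t3 := le_tanh hy0.le
  have t4 := sigma_mul_le hy0.le
  have hR2 : R ^ 2 * (q ^ 2 * (1 + q ^ 2) ^ 2) = 2 * yy q R ^ 2 := by
    have h2 := sqrt2_sq
    have h3 := sqrt2_pos.ne'
    unfold yy
    field_simp
    rw [h2]
  have hg : √2 = R * (q + q ^ 3) / yy q R := by
    have h3 := sqrt2_pos.ne'
    unfold yy
    field_simp
  have hRs : R ^ 2 * (1 - Real.tanh (yy q R) ^ 2) =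
      2 * (yy q R ^ 2 * (1 - Real.tanh (yy q R) ^ 2)) / (q ^ 2 * (1 + q ^ 2) ^ 2) := by
    rw [eq_div_iff (by positivity)]
    linear_combination (1 - Real.tanh (yy q R) ^ 2) * hR2
  have key : r ^ 2 * (1 + 5 / 2 * q ^ 2) * (U0 r q R ^ 2 +
      √2 * (3 * q * r / (1 + 5 / 2 * q ^ 2) * U1 c r q R +
      (1 - 4 * q ^ 2) / (r * (1 + 5 / 2 * q ^ 2)) * U2 r q R) - (1 - κ / r ^ 2)) =
      (κ - c) * (1 + 5 / 2 * q ^ 2) + 3 * q ^ 2 * (1 + q ^ 2) * c *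
        (Real.tanh (yy q R) / yy q R + (1 - Real.tanh (yy q R) ^ 2)) -
      yy q R ^ 2 * (1 - Real.tanh (yy q R) ^ 2) * (1 + 18 * q ^ 2) / (1 + q ^ 2) ^ 2 := by
    have e1 : r ^ 2 * (1 + 5 / 2 * q ^ 2) * (U0 r q R ^ 2 +
      √2 * (3 * q * r / (1 + 5 / 2 * q ^ 2) * U1 c r q R +
      (1 - 4 * q ^ 2) / (r * (1 + 5 / 2 * q ^ 2)) * U2 r q R) - (1 - κ / r ^ 2)) =
      (κ - c) * (1 + 5 / 2 * q ^ 2) + 3 * q ^ 2 * (1 + q ^ 2) * c *
        (Real.tanh (yy q R) / yy q R + (1 - Real.tanh (yy q R) ^ 2)) -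
      (R ^ 2 * (1 - Real.tanh (yy q R) ^ 2)) * (q ^ 2 / 2 * (1 + 18 * q ^ 2)) := by
      rw [hc]
      simp only [U1, U2, U0]
      generalize yy q R = y at hg hy0 ht0 ⊢
      generalize Real.tanh y = τ at ht0 ⊢
      rw [hg]
      field_simp
      ring
    rw [e1, hRs]
    field_simp
  have hpos : 0 ≤ (κ - c) * (1 + 5 / 2 * q ^ 2) + 3 * q ^ 2 * (1 + q ^ 2) * c *
        (Real.tanh (yy q R) / yy q R + (1 - Real.tanh (yy q R) ^ 2)) -
      yy q R ^ 2 * (1 - Real.tanh (yy q R) ^ 2) * (1 + 18 * q ^ 2) / (1 + q ^ 2) ^ 2 := by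
    set y := yy q R with hy
    set τ := Real.tanh y with hτ
    have f1 : y ^ 2 * (1 - τ ^ 2) ≤ 1 / 2 := by
      nlinarith [sq_nonneg (y ^ 2 - 3 / 2), mul_nonneg hs0.le (sq_nonneg (y ^ 2 - 3 / 2))]
    have f2 : 18 * y ^ 2 * (1 - τ ^ 2) ≤ 39 / 2 * (τ / y) := by
      rw [mul_div_assoc', le_div_iff₀ hy0]
      have g1 : 18 * y ^ 2 * (1 - τ ^ 2) * y ≤ 6 * y ^ 2 * (1 - τ ^ 2) * ((3 + y ^ 2) * τ) := by
        have := mul_le_mul_of_nonneg_left t3 (show 0 ≤ 6 * y ^ 2 * (1 - τ ^ 2) by positivity)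
        linarith
      have g2 : 6 * y ^ 2 * (1 - τ ^ 2) * (3 + y ^ 2) ≤ 39 / 2 := by
        have g3 : 0 ≤ (1 - τ ^ 2) * (39 / 2 + 3 / 2 * y ^ 2 + 1 / 2 * y ^ 4) := by positivity
        nlinarith
      have g3 := mul_le_mul_of_nonneg_right g2 ht0.le
      linarith
    have f3 : y ^ 2 * (1 - τ ^ 2) * (1 + 18 * q ^ 2) / (1 + q ^ 2) ^ 2 ≤
        y ^ 2 * (1 - τ ^ 2) * (1 + 18 * q ^ 2) := by
      refine div_le_self (by positivity) ?_
      nlinarith [sq_nonneg q, sq_nonneg (q ^ 2)]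
    have f4 : 39 / 2 * (q ^ 2 * (τ / y)) ≤ 3 * q ^ 2 * (1 + q ^ 2) * c * (τ / y + (1 - τ ^ 2)) := by
      have g1 : 0 < τ / y := by positivity
      have g2 : q ^ 2 * (13 / 2) ≤ q ^ 2 * c := mul_le_mul_of_nonneg_left hc0 (by positivity)
      have g3 : q ^ 2 * c ≤ q ^ 2 * (1 + q ^ 2) * c := by
        have hc' : 0 ≤ c := by linarith
        have h8 : 0 ≤ q ^ 2 * q ^ 2 * c := by positivity
        have h9 : q ^ 2 * (1 + q ^ 2) * c = q ^ 2 * c + q ^ 2 * q ^ 2 * c := by ring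
        linarith
      calc 39 / 2 * (q ^ 2 * (τ / y)) = 3 * (q ^ 2 * (13 / 2)) * (τ / y) := by ring
        _ ≤ 3 * (q ^ 2 * (1 + q ^ 2) * c) * (τ / y) := by
          refine mul_le_mul_of_nonneg_right ?_ g1.le
          linarith
        _ ≤ 3 * (q ^ 2 * (1 + q ^ 2) * c) * (τ / y + (1 - τ ^ 2)) := by
          refine mul_le_mul_of_nonneg_left ?_ ?_
          · linarith
          · have : 0 ≤ c := by linarith
            positivity
        _ = _ := by ring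
    have f5 : q ^ 2 * (18 * y ^ 2 * (1 - τ ^ 2)) ≤ q ^ 2 * (39 / 2 * (τ / y)) :=
      mul_le_mul_of_nonneg_left f2 (by positivity)
    have f6 : 1 / 2 ≤ (κ - c) * (1 + 5 / 2 * q ^ 2) := by
      have h8 : 0 ≤ (κ - c - 1 / 2) * (5 / 2 * q ^ 2) := mul_nonneg (by linarith) (by positivity)
      have h9 : (κ - c) * (1 + 5 / 2 * q ^ 2) = (κ - c) + (κ - c - 1 / 2) * (5 / 2 * q ^ 2) +
        5 / 4 * q ^ 2 := by ring
      have h10 : 0 ≤ q ^ 2 := sq_nonneg q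
      linarith
    have f7 : y ^ 2 * (1 - τ ^ 2) * (1 + 18 * q ^ 2) = y ^ 2 * (1 - τ ^ 2) +
      q ^ 2 * (18 * y ^ 2 * (1 - τ ^ 2)) := by ring
    linarith
  have h5 : 0 ≤ r ^ 2 * (1 + 5 / 2 * q ^ 2) * (U0 r q R ^ 2 +
      √2 * (3 * q * r / (1 + 5 / 2 * q ^ 2) * U1 c r q R +
      (1 - 4 * q ^ 2) / (r * (1 + 5 / 2 * q ^ 2)) * U2 r q R) - (1 - κ / r ^ 2)) := by
    rw [key]; exact hpos
  have h6 := nonneg_of_mul_nonneg_right h5 (by positivity)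
  linarith

end

end Pool.Agent.Lib.MP_98c801_an

/-!
The geometric quantities as functions of `(s, t)` and their partial derivatives.
-/

namespace Pool.Agent.Lib.MP_98c801_an

open Real Set

noncomputable section

def rr (s t : ℝ) : ℝ := √(s ^ 2 + t ^ 2)

def qq (s t : ℝ) : ℝ := (s ^ 2 - t ^ 2) / (2 * (s ^ 2 + t ^ 2))

def RR (c s t : ℝ) : ℝ := √(s ^ 2 + t ^ 2 - c)

lemma rr_comm (s t : ℝ) : rr s t = rr t s := by unfold rr; rw [add_comm]

lemma qq_swap (s t : ℝ) : qq t s = -qq s t := by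
  unfold qq; rw [add_comm (t ^ 2), ← neg_div]; congr 1; ring

lemma RR_comm (c s t : ℝ) : RR c s t = RR c t s := by unfold RR; rw [add_comm (s ^ 2)]

lemma rr_pos {s t : ℝ} (h : 0 < s ^ 2 + t ^ 2) : 0 < rr s t := Real.sqrt_pos.2 h

lemma rr_sq (s t : ℝ) : rr s t ^ 2 = s ^ 2 + t ^ 2 := Real.sq_sqrt (by positivity)

lemma RR_pos {c s t : ℝ} (h : c < s ^ 2 + t ^ 2) : 0 < RR c s t := Real.sqrt_pos.2 (by linarith)

lemma RR_sq {c s t : ℝ} (h : c ≤ s ^ 2 + t ^ 2) : RR c s t ^ 2 = s ^ 2 + t ^ 2 - c :=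
  Real.sq_sqrt (by linarith)

lemma RR_zero {c s t : ℝ} (h : s ^ 2 + t ^ 2 ≤ c) : RR c s t = 0 :=
  Real.sqrt_eq_zero_of_nonpos (by linarith)

lemma s_sq_eq {s t : ℝ} (h : 0 < s ^ 2 + t ^ 2) : s ^ 2 = rr s t ^ 2 * (1 / 2 + qq s t) := by
  rw [rr_sq]; unfold qq; field_simp; ring

lemma t_sq_eq {s t : ℝ} (h : 0 < s ^ 2 + t ^ 2) : t ^ 2 = rr s t ^ 2 * (1 / 2 - qq s t) := by
  rw [rr_sq]; unfold qq; field_simp; ring

lemma qq_le_half (s t : ℝ) : qq s t ≤ 1 / 2 := by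
  rcases eq_or_lt_of_le (show 0 ≤ s ^ 2 + t ^ 2 by positivity) with h | h
  · unfold qq; rw [← h]; norm_num
  · unfold qq; rw [div_le_div_iff₀ (by positivity) (by norm_num)]; nlinarith [sq_nonneg t]

lemma neg_half_le_qq (s t : ℝ) : -(1 / 2) ≤ qq s t := by
  have := qq_le_half t s
  rw [qq_swap] at this
  linarith

lemma qq_pos {s t : ℝ} (ht : 0 ≤ t) (h : t < s) : 0 < qq s t := by
  unfold qq
  have : 0 < s ^ 2 - t ^ 2 := by nlinarith
  have : 0 < s ^ 2 + t ^ 2 := by nlinarith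
  positivity

lemma qq_nonneg {s t : ℝ} (ht : 0 ≤ t) (h : t ≤ s) : 0 ≤ qq s t := by
  unfold qq
  have : 0 ≤ s ^ 2 - t ^ 2 := by nlinarith
  positivity

lemma hasDerivAt_sq_add (s t : ℝ) : HasDerivAt (fun s => s ^ 2 + t ^ 2) (2 * s) s := by
  have := (hasDerivAt_pow 2 s).add_const (t ^ 2)
  refine this.congr_deriv ?_
  simp

lemma hasDerivAt_rr {s t : ℝ} (h : 0 < s ^ 2 + t ^ 2) :
    HasDerivAt (fun s => rr s t) (s / rr s t) s := by
  have := (hasDerivAt_sq_add s t).sqrt h.ne'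
  refine this.congr_deriv ?_
  unfold rr
  field_simp

lemma hasDerivAt_qq {s t : ℝ} (h : 0 < s ^ 2 + t ^ 2) :
    HasDerivAt (fun s => qq s t) (2 * s * t ^ 2 / rr s t ^ 4) s := by
  have h4 : rr s t ^ 4 = (s ^ 2 + t ^ 2) ^ 2 := by rw [← rr_sq]; ring
  have h1 : HasDerivAt (fun s => s ^ 2 - t ^ 2) (2 * s) s := by
    have := (hasDerivAt_pow 2 s).sub_const (t ^ 2)
    refine this.congr_deriv ?_
    simp
  have := h1.div ((hasDerivAt_sq_add s t).const_mul 2) (by positivity)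
  refine this.congr_deriv ?_
  rw [h4]
  field_simp
  ring

lemma hasDerivAt_RR {c s t : ℝ} (h0 : 0 < s ^ 2 + t ^ 2) (h : c < s ^ 2 + t ^ 2) :
    HasDerivAt (fun s => RR c s t) (rr s t * (s / rr s t) / RR c s t) s := by
  have h3 : s ^ 2 + t ^ 2 - c ≠ 0 := by
    have : 0 < s ^ 2 + t ^ 2 - c := by linarith
    exact this.ne'
  have := ((hasDerivAt_sq_add s t).sub_const c).sqrt h3
  refine this.congr_deriv ?_
  have h1 := rr_pos h0
  have h2 := RR_pos h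
  unfold RR at *
  field_simp

lemma hasDerivAt_rr' {s t : ℝ} (h : 0 < s ^ 2 + t ^ 2) :
    HasDerivAt (fun t => rr s t) (t / rr s t) t := by
  have h1 := hasDerivAt_rr (s := t) (t := s) (by linarith)
  rw [rr_comm t s] at h1
  exact h1.congr_of_eventuallyEq (Filter.Eventually.of_forall fun x => rr_comm s x)

lemma hasDerivAt_qq' {s t : ℝ} (h : 0 < s ^ 2 + t ^ 2) :
    HasDerivAt (fun t => qq s t) (-(2 * s ^ 2 * t) / rr s t ^ 4) t := by
  have h1 := (hasDerivAt_qq (s := t) (t := s) (by linarith)).neg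
  rw [rr_comm t s] at h1
  refine (h1.congr_of_eventuallyEq (Filter.Eventually.of_forall fun x => ?_)).congr_deriv ?_
  · simp only [Pi.neg_apply]
    exact qq_swap x s
  · ring

lemma hasDerivAt_RR' {c s t : ℝ} (h0 : 0 < s ^ 2 + t ^ 2) (h : c < s ^ 2 + t ^ 2) :
    HasDerivAt (fun t => RR c s t) (rr s t * (t / rr s t) / RR c s t) t := by
  have h1 := hasDerivAt_RR (c := c) (s := t) (t := s) (by linarith) (by linarith)
  rw [rr_comm t s, RR_comm c t s] at h1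
  exact h1.congr_of_eventuallyEq (Filter.Eventually.of_forall fun x => RR_comm c s x)

/-! ### The function `U` -/

def UU (c s t : ℝ) : ℝ := U0 (rr s t) (qq s t) (RR c s t)

def Us (c s t : ℝ) : ℝ := s * U1 c (rr s t) (qq s t) (RR c s t) +
  2 * s * t ^ 2 / rr s t ^ 4 * U2 (rr s t) (qq s t) (RR c s t)

def Ut (c s t : ℝ) : ℝ := t * U1 c (rr s t) (qq s t) (RR c s t) -
  2 * s ^ 2 * t / rr s t ^ 4 * U2 (rr s t) (qq s t) (RR c s t)

def Uss (c s t : ℝ) : ℝ := U1 c (rr s t) (qq s t) (RR c s t) +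
  s * (U1r c (rr s t) (qq s t) (RR c s t) * (s / rr s t) +
    U1q c (rr s t) (qq s t) (RR c s t) * (2 * s * t ^ 2 / rr s t ^ 4)) +
  (2 * t ^ 2 / rr s t ^ 4 - 8 * s ^ 2 * t ^ 2 / rr s t ^ 6) * U2 (rr s t) (qq s t) (RR c s t) +
  2 * s * t ^ 2 / rr s t ^ 4 * (U2r (rr s t) (qq s t) (RR c s t) * (s / rr s t) +
    U2q (rr s t) (qq s t) (RR c s t) * (2 * s * t ^ 2 / rr s t ^ 4))

def Utt (c s t : ℝ) : ℝ := U1 c (rr s t) (qq s t) (RR c s t) +
  t * (U1r c (rr s t) (qq s t) (RR c s t) * (t / rr s t) +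
    U1q c (rr s t) (qq s t) (RR c s t) * (-(2 * s ^ 2 * t) / rr s t ^ 4)) -
  (2 * s ^ 2 / rr s t ^ 4 - 8 * s ^ 2 * t ^ 2 / rr s t ^ 6) * U2 (rr s t) (qq s t) (RR c s t) -
  2 * s ^ 2 * t / rr s t ^ 4 * (U2r (rr s t) (qq s t) (RR c s t) * (t / rr s t) +
    U2q (rr s t) (qq s t) (RR c s t) * (-(2 * s ^ 2 * t) / rr s t ^ 4))

variable {c s t : ℝ}

lemma c_eq (h : c < s ^ 2 + t ^ 2) : c = rr s t ^ 2 - RR c s t ^ 2 := by
  rw [rr_sq, RR_sq h.le]; ring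

lemma hasDerivAt_UU_s (h0 : 0 < s ^ 2 + t ^ 2) (h : c < s ^ 2 + t ^ 2) :
    HasDerivAt (fun s => UU c s t) (Us c s t) s := by
  have h1 := rr_pos h0
  have := hasDerivAt_U0 (hasDerivAt_rr h0) (hasDerivAt_qq h0) (hasDerivAt_RR h0 h) h1 (RR_pos h)
    (c_eq h)
  refine this.congr_deriv ?_
  unfold Us
  field_simp

lemma hasDerivAt_UU_t (h0 : 0 < s ^ 2 + t ^ 2) (h : c < s ^ 2 + t ^ 2) :
    HasDerivAt (fun t => UU c s t) (Ut c s t) t := by
  have h1 := rr_pos h0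
  have := hasDerivAt_U0 (hasDerivAt_rr' h0) (hasDerivAt_qq' h0) (hasDerivAt_RR' h0 h) h1 (RR_pos h)
    (c_eq h)
  refine this.congr_deriv ?_
  unfold Ut
  field_simp
  ring

lemma hasDerivAt_Us (h0 : 0 < s ^ 2 + t ^ 2) (h : c < s ^ 2 + t ^ 2) :
    HasDerivAt (fun s => Us c s t) (Uss c s t) s := by
  have h1 := rr_pos h0
  have d1 := hasDerivAt_U1 (c := c) (hasDerivAt_rr h0) (hasDerivAt_qq h0) (hasDerivAt_RR h0 h) h1
    (RR_pos h)
  have d2 := hasDerivAt_U2 (hasDerivAt_rr h0) (hasDerivAt_qq h0) (hasDerivAt_RR h0 h) h1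
    (RR_pos h)
  have d3 : HasDerivAt (fun s => 2 * s * t ^ 2 / rr s t ^ 4)
      (2 * t ^ 2 / rr s t ^ 4 - 8 * s ^ 2 * t ^ 2 / rr s t ^ 6) s := by
    have := (((hasDerivAt_id s).const_mul 2).mul_const (t ^ 2)).div ((hasDerivAt_rr h0).pow 4)
      (by simp only [Pi.pow_apply]; positivity)
    refine this.congr_deriv ?_
    simp only [Pi.pow_apply, id]
    field_simp
    ring
  have := ((hasDerivAt_id s).mul d1).add (d3.mul d2)
  refine this.congr_deriv ?_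
  simp only [id]
  unfold Uss
  ring

lemma hasDerivAt_Ut (h0 : 0 < s ^ 2 + t ^ 2) (h : c < s ^ 2 + t ^ 2) :
    HasDerivAt (fun t => Ut c s t) (Utt c s t) t := by
  have h1 := rr_pos h0
  have d1 := hasDerivAt_U1 (c := c) (hasDerivAt_rr' h0) (hasDerivAt_qq' h0) (hasDerivAt_RR' h0 h) h1
    (RR_pos h)
  have d2 := hasDerivAt_U2 (hasDerivAt_rr' h0) (hasDerivAt_qq' h0) (hasDerivAt_RR' h0 h) h1
    (RR_pos h)
  have d3 : HasDerivAt (fun t => 2 * s ^ 2 * t / rr s t ^ 4)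
      (2 * s ^ 2 / rr s t ^ 4 - 8 * s ^ 2 * t ^ 2 / rr s t ^ 6) t := by
    have := ((hasDerivAt_id t).const_mul (2 * s ^ 2)).div ((hasDerivAt_rr' h0).pow 4)
      (by simp only [Pi.pow_apply]; positivity)
    refine this.congr_deriv ?_
    simp only [Pi.pow_apply, id]
    field_simp
    ring
  have := ((hasDerivAt_id t).mul d1).sub (d3.mul d2)
  refine this.congr_deriv ?_
  simp only [id]
  unfold Utt
  ring

/-- `U` is a subsolution. -/
lemma UU_pde {m : ℝ} (hm : 5 ≤ m) (hcm : c = 2 * m - 7 / 2) (ht : 0 < t) (hts : t < s)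
    (h : c < s ^ 2 + t ^ 2) :
    0 ≤ Uss c s t + Utt c s t + (m - 1) * (Us c s t / s + Ut c s t / t) +
      UU c s t - UU c s t ^ 3 := by
  have hs : 0 < s := ht.trans hts
  have h0 : 0 < s ^ 2 + t ^ 2 := by positivity
  have h1 := rr_pos h0
  have key := lap_nonneg hm h1 (qq_pos ht.le hts) (qq_le_half s t) (RR_pos h) (c_eq h) hcm
  have e1 := s_sq_eq h0
  have e2 := t_sq_eq h0
  have e : Uss c s t + Utt c s t + (m - 1) * (Us c s t / s + Ut c s t / t) +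
      UU c s t - UU c s t ^ 3 =
      2 * m * U1 c (rr s t) (qq s t) (RR c s t) -
        4 * m * (qq s t) * U2 (rr s t) (qq s t) (RR c s t) / rr s t ^ 2 +
        rr s t * U1r c (rr s t) (qq s t) (RR c s t) +
        (1 - 4 * qq s t ^ 2) * U2q (rr s t) (qq s t) (RR c s t) / rr s t ^ 2 +
        U0 (rr s t) (qq s t) (RR c s t) - U0 (rr s t) (qq s t) (RR c s t) ^ 3 := by
    unfold Uss Utt Us Ut UU
    generalize U1 c (rr s t) (qq s t) (RR c s t) = A1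
    generalize U1r c (rr s t) (qq s t) (RR c s t) = A2
    generalize U1q c (rr s t) (qq s t) (RR c s t) = A3
    generalize U2 (rr s t) (qq s t) (RR c s t) = A4
    generalize U2r (rr s t) (qq s t) (RR c s t) = A5
    generalize U2q (rr s t) (qq s t) (RR c s t) = A6
    generalize U0 (rr s t) (qq s t) (RR c s t) = A7
    generalize qq s t = q at e1 e2 ⊢
    generalize rr s t = r at e1 e2 h1 ⊢
    have f1 : (s * A1 + 2 * s * t ^ 2 / r ^ 4 * A4) / s = A1 + 2 * t ^ 2 / r ^ 4 * A4 := by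
      field_simp
    have f2 : (t * A1 - 2 * s ^ 2 * t / r ^ 4 * A4) / t = A1 - 2 * s ^ 2 / r ^ 4 * A4 := by
      field_simp
    rw [f1, f2]
    have f3 : A1 + s * (A2 * (s / r) + A3 * (2 * s * t ^ 2 / r ^ 4)) +
        (2 * t ^ 2 / r ^ 4 - 8 * s ^ 2 * t ^ 2 / r ^ 6) * A4 +
        2 * s * t ^ 2 / r ^ 4 * (A5 * (s / r) + A6 * (2 * s * t ^ 2 / r ^ 4)) +
        (A1 + t * (A2 * (t / r) + A3 * (-(2 * s ^ 2 * t) / r ^ 4)) -
          (2 * s ^ 2 / r ^ 4 - 8 * s ^ 2 * t ^ 2 / r ^ 6) * A4 -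
          2 * s ^ 2 * t / r ^ 4 * (A5 * (t / r) + A6 * (-(2 * s ^ 2 * t) / r ^ 4))) +
        (m - 1) * (A1 + 2 * t ^ 2 / r ^ 4 * A4 + (A1 - 2 * s ^ 2 / r ^ 4 * A4)) + A7 - A7 ^ 3 =
        A1 + (s ^ 2 * (A2 / r) + (s ^ 2 * t ^ 2) * A3 * (2 / r ^ 4)) +
        (2 * t ^ 2 / r ^ 4 - 8 * (s ^ 2 * t ^ 2) / r ^ 6) * A4 +
        2 * (s ^ 2 * t ^ 2) / r ^ 4 * (A5 / r + A6 * (2 * t ^ 2 / r ^ 4)) +
        (A1 + (A2 * (t ^ 2 / r) - A3 * (2 * (s ^ 2 * t ^ 2) / r ^ 4)) -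
          (2 * s ^ 2 / r ^ 4 - 8 * (s ^ 2 * t ^ 2) / r ^ 6) * A4 -
          2 * (s ^ 2 * t ^ 2) / r ^ 4 * (A5 / r - A6 * (2 * s ^ 2 / r ^ 4))) +
        (m - 1) * (A1 + 2 * t ^ 2 / r ^ 4 * A4 + (A1 - 2 * s ^ 2 / r ^ 4 * A4)) + A7 - A7 ^ 3 := by
      ring
    rw [f3, e1, e2]
    field_simp
    ring
  rw [e]
  exact key

end

end Pool.Agent.Lib.MP_98c801_an

/-!
The calibrating field: components, derivatives, and the pointwise facts.
-/

namespace Pool.Agent.Lib.MP_98c801_an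

open Real Set

noncomputable section

def nq (q : ℝ) : ℝ := 1 + 5 / 2 * q ^ 2

def AA (q : ℝ) : ℝ := (1 + q) / nq q

def SS (q : ℝ) : ℝ := (1 - 4 * q ^ 2) / 2 * (1 - 5 * q - 5 / 2 * q ^ 2) / nq q ^ 2 -
  (1 / 2 + q) * AA q

def CC (l q : ℝ) : ℝ := l - 6 * q + 6 * q ^ 2

def SC (l q : ℝ) : ℝ := (1 - 4 * q ^ 2) / 2 * (-6 + 12 * q) - (1 + 2 * q) * CC l q

lemma nq_pos (q : ℝ) : 0 < nq q := by unfold nq; positivity

variable {c s t l : ℝ}

lemma hasDerivAt_AA (hs : 0 < s) :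
    HasDerivAt (fun s => AA (qq s t) / rr s t) (SS (qq s t) / rr s t / s) s := by
  have h0 : 0 < s ^ 2 + t ^ 2 := by positivity
  have h1 := rr_pos h0
  have hq := hasDerivAt_qq h0
  have hr := hasDerivAt_rr h0
  have hn : nq (qq s t) ≠ 0 := (nq_pos _).ne'
  have d1 : HasDerivAt (fun s => nq (qq s t)) (5 * qq s t * (2 * s * t ^ 2 / rr s t ^ 4)) s := by
    have := ((hq.pow 2).const_mul (5 / 2)).const_add 1
    refine this.congr_deriv ?_
    simp only [Nat.cast_ofNat, Nat.add_one_sub_one, pow_one]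
    ring
  have d2 := ((hq.const_add 1).div d1 hn).div hr h1.ne'
  refine d2.congr_deriv ?_
  have e1 := s_sq_eq h0
  have e2 := t_sq_eq h0
  have e3 : 2 * s * t ^ 2 / rr s t ^ 4 = (1 - 4 * qq s t ^ 2) / 2 / s := by
    rw [e2, div_div, div_eq_div_iff (by positivity) (by positivity)]
    generalize qq s t = q at *
    generalize rr s t = r at *
    linear_combination (4 * r ^ 2 * (1 / 2 - q)) * e1
  rw [e3]
  simp only [SS, AA]
  have e4 : s / rr s t = (rr s t * (1 / 2 + qq s t)) / s := by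
    rw [div_eq_div_iff h1.ne' hs.ne']
    linear_combination e1
  simp only [Pi.div_apply]
  rw [e4]
  unfold nq at *
  generalize qq s t = q at *
  generalize rr s t = r at *
  field_simp
  ring

lemma hasDerivAt_CC (hs : 0 < s) :
    HasDerivAt (fun s => CC l (qq s t) / rr s t ^ 2) (SC l (qq s t) / rr s t ^ 2 / s) s := by
  have h0 : 0 < s ^ 2 + t ^ 2 := by positivity
  have h1 := rr_pos h0
  have hq := hasDerivAt_qq h0
  have hr := hasDerivAt_rr h0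
  have d1 : HasDerivAt (fun s => CC l (qq s t))
      ((-6 + 12 * qq s t) * (2 * s * t ^ 2 / rr s t ^ 4)) s := by
    have := ((hq.const_mul 6).const_sub l).add ((hq.pow 2).const_mul 6)
    refine this.congr_deriv ?_
    simp only [Nat.cast_ofNat, Nat.add_one_sub_one, pow_one]
    ring
  have d2 := d1.div (hr.pow 2) (by simp only [Pi.pow_apply]; positivity)
  refine d2.congr_deriv ?_
  have e1 := s_sq_eq h0
  have e2 := t_sq_eq h0
  have e3 : 2 * s * t ^ 2 / rr s t ^ 4 = (1 - 4 * qq s t ^ 2) / 2 / s := by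
    rw [e2, div_div, div_eq_div_iff (by positivity) (by positivity)]
    generalize qq s t = q at *
    generalize rr s t = r at *
    linear_combination (4 * r ^ 2 * (1 / 2 - q)) * e1
  rw [e3]
  simp only [SC]
  have e4 : s / rr s t = (rr s t * (1 / 2 + qq s t)) / s := by
    rw [div_eq_div_iff h1.ne' hs.ne']
    linear_combination e1
  simp only [Pi.pow_apply, Nat.cast_ofNat, Nat.add_one_sub_one, pow_one]
  rw [e4]
  generalize CC l (qq s t) = C at *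
  generalize qq s t = q at *
  generalize rr s t = r at *
  field_simp

/-- one component of the weighted field -/
def fld (m : ℕ) (ε l : ℝ) (Γ e : ℝ → ℝ) (t s : ℝ) : ℝ :=
  s ^ m * t ^ (m - 1) * (ε * Γ s * (AA (qq s t) / rr s t) + e s ^ 2 * (CC l (qq s t) / rr s t ^ 2))

/-- its derivative -/
def fld' (m : ℕ) (ε l Γ Γ' e e' t s : ℝ) : ℝ :=
  s ^ (m - 1) * t ^ (m - 1) * (m * (ε * Γ * (AA (qq s t) / rr s t) +
      e ^ 2 * (CC l (qq s t) / rr s t ^ 2)) +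
    ε * (s * Γ') * (AA (qq s t) / rr s t) + ε * Γ * (SS (qq s t) / rr s t) +
    2 * e * (s * e') * (CC l (qq s t) / rr s t ^ 2) + e ^ 2 * (SC l (qq s t) / rr s t ^ 2))

lemma hasDerivAt_fld {m : ℕ} (hm : 1 ≤ m) {ε : ℝ} {Γ e : ℝ → ℝ} {Γ' e' : ℝ} (hs : 0 < s)
    (hΓ : HasDerivAt Γ Γ' s) (he : HasDerivAt e e' s) :
    HasDerivAt (fld m ε l Γ e t) (fld' m ε l (Γ s) Γ' (e s) e' t s) s := by
  obtain ⟨k, rfl⟩ : ∃ k, m = k + 1 := ⟨m - 1, by omega⟩
  have d1 := ((hasDerivAt_pow (k + 1) s).mul_const (t ^ (k + 1 - 1))).mul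
    (((hΓ.const_mul ε).mul (hasDerivAt_AA (t := t) hs)).add
      ((he.pow 2).mul (hasDerivAt_CC (t := t) (l := l) hs)))
  refine d1.congr_deriv ?_
  simp only [fld', Pi.add_apply, Pi.mul_apply, Pi.pow_apply, Nat.cast_ofNat,
    Nat.add_one_sub_one, pow_one]
  field_simp
  ring

/-! ### pointwise facts -/

lemma normN {q : ℝ} : (1 / 2 + q) * AA q ^ 2 + (1 / 2 - q) * AA (-q) ^ 2 ≤ 1 := by
  have h1 := nq_pos q
  have h2 : nq (-q) = nq q := by unfold nq; ring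
  have e : (1 / 2 + q) * AA q ^ 2 + (1 / 2 - q) * AA (-q) ^ 2 = (1 + 5 * q ^ 2) / nq q ^ 2 := by
    unfold AA; rw [h2]; field_simp; ring
  rw [e, div_le_one (by positivity)]
  unfold nq
  nlinarith [sq_nonneg (q ^ 2)]

lemma divN {m q : ℝ} : m * (AA q - AA (-q)) + SS q - SS (-q) =
    q / nq q * (2 * m - 8 + 65 / 2 * q ^ 2 / nq q) := by
  have h1 := nq_pos q
  have h2 : nq (-q) = nq q := by unfold nq; ring
  unfold AA SS AA
  rw [h2]
  unfold nq at *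
  field_simp
  ring

lemma dotNC {m q : ℝ} (hl : l = (m + 2) / 3) :
    (1 / 2 + q) * AA q * CC l q - (1 / 2 - q) * AA (-q) * CC l (-q) =
    q / nq q * (m - 4 + 6 * q ^ 2) := by
  have h1 := nq_pos q
  have h2 : nq (-q) = nq q := by unfold nq; ring
  unfold AA CC
  rw [h2, hl]
  field_simp
  ring

lemma divC {m q : ℝ} (hl : l = (m + 2) / 3) :
    m * (CC l q + CC l (-q)) + SC l q + SC l (-q) -
      ((1 / 2 + q) * CC l q ^ 2 + (1 / 2 - q) * CC l (-q) ^ 2) =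
    (5 * m ^ 2 + 2 * m - 70) / 9 + (16 * m + 8) * q ^ 2 + 108 * q ^ 4 := by
  unfold SC CC
  rw [hl]
  ring

/-! ### The function `M` -/

def MM (κ s t : ℝ) : ℝ := max 0 (1 - κ / (s ^ 2 + t ^ 2))

def M1 (κ s t : ℝ) : ℝ := if κ < s ^ 2 + t ^ 2 then 2 * κ / (s ^ 2 + t ^ 2) ^ 2 else 0

/-- the scalar `Γ̃` -/
def Gt (U z M e : ℝ) : ℝ := Gam √2 U z M + √2 * U * z * e ^ 2

/-- its directional derivative -/
def Gt' (U z M e U' z' M' e' : ℝ) : ℝ :=
  √2 * (1 - z) ^ 2 * (M / 2 + U ^ 2 / 2 * (1 + 2 * z)) * U' +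
    (-(√2 * U * (1 - z) * (M + U ^ 2 * z))) * z' + √2 * U * (1 - z) ^ 2 / 2 * M' +
    (√2 * z * e ^ 2 * U' + √2 * U * e ^ 2 * z' + 2 * √2 * U * z * e * e')

lemma hasDerivAt_Gt {U z M e : ℝ → ℝ} {U' z' M' e' a : ℝ} (hU : HasDerivAt U U' a)
    (hz : HasDerivAt z z' a) (hM : HasDerivAt M M' a) (he : HasDerivAt e e' a) :
    HasDerivAt (fun a => Gt (U a) (z a) (M a) (e a))
      (Gt' (U a) (z a) (M a) (e a) U' z' M' e') a := by
  unfold Gt Gam
  have d1 := ((hU.const_mul √2).mul ((hz.const_sub 1).pow 2)).mul ((hM.div_const 2).add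
    (((hU.pow 2).div_const 6).mul ((hz.const_mul 2).const_add 1)))
  have d2 := ((hU.const_mul √2).mul hz).mul (he.pow 2)
  refine (d1.add d2).congr_deriv ?_
  simp only [Gt', Pi.add_apply, Pi.mul_apply, Pi.pow_apply, Nat.cast_ofNat,
    Nat.add_one_sub_one, pow_one]
  ring

lemma U1_nonneg {c r q R : ℝ} (hc : 0 ≤ c) (hr : 0 ≤ r) (hq : 0 ≤ q) (hR : 0 ≤ R) :
    0 ≤ U1 c r q R := by
  have hy : 0 ≤ yy q R := by unfold yy; positivity
  have h1 := tanh_nonneg hy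
  have h2 := (sigma_pos (yy q R)).le
  unfold U1
  positivity

lemma U2_nonneg {r q R : ℝ} (hr : 0 ≤ r) : 0 ≤ U2 r q R := by
  have h2 := (sigma_pos (yy q R)).le
  unfold U2
  positivity

lemma UU_nonneg {c s t : ℝ} (ht : 0 ≤ t) (h : t ≤ s) : 0 ≤ UU c s t := by
  have hq := qq_nonneg ht h
  have hR : 0 ≤ RR c s t := Real.sqrt_nonneg _
  have hr : 0 ≤ rr s t := Real.sqrt_nonneg _
  have hy : 0 ≤ yy (qq s t) (RR c s t) := by unfold yy; positivity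
  have h1 := tanh_nonneg hy
  unfold UU U0
  positivity

section vec

variable {m r q : ℝ}

lemma nq_neg (q : ℝ) : nq (-q) = nq q := by unfold nq; ring

lemma AA_comb : (1 / 2 + q) * AA q - (1 / 2 - q) * AA (-q) = 3 * q / nq q := by
  have hn := nq_pos q
  unfold AA; rw [nq_neg]; field_simp; ring

lemma AA_add : AA q + AA (-q) = 2 / nq q := by
  have hn := nq_pos q
  unfold AA; rw [nq_neg]; field_simp; ring

lemma vec_N (hr : 0 < r) (h1 : s ^ 2 = r ^ 2 * (1 / 2 + q)) (h2 : t ^ 2 = r ^ 2 * (1 / 2 - q)) :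
    (s * (AA q / r)) ^ 2 + (-(t * (AA (-q) / r))) ^ 2 ≤ 1 := by
  have e : (s * (AA q / r)) ^ 2 + (-(t * (AA (-q) / r))) ^ 2 =
      (1 / 2 + q) * AA q ^ 2 + (1 / 2 - q) * AA (-q) ^ 2 := by
    have : (s * (AA q / r)) ^ 2 + (-(t * (AA (-q) / r))) ^ 2 = s ^ 2 * AA q ^ 2 / r ^ 2 +
      t ^ 2 * AA (-q) ^ 2 / r ^ 2 := by ring
    rw [this, h1, h2]
    field_simp
  rw [e]
  exact normN

lemma vec_d (hm : 4 ≤ m) (hr : 0 < r) (hq : 0 ≤ q) :
    0 ≤ (m * (AA q - AA (-q)) + SS q - SS (-q)) / r := by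
  have hn := nq_pos q
  rw [divN]
  have : 0 ≤ 2 * m - 8 + 65 / 2 * q ^ 2 / nq q := by
    have : 0 ≤ 65 / 2 * q ^ 2 / nq q := by positivity
    linarith
  positivity

lemma vec_NC (hr : 0 < r) (h1 : s ^ 2 = r ^ 2 * (1 / 2 + q)) (h2 : t ^ 2 = r ^ 2 * (1 / 2 - q))
    (hq : 0 ≤ q) (hq2 : q ≤ 1 / 2) (hl : l = (m + 2) / 3) :
    s * (AA q / r) * (s * (CC l q / r ^ 2)) + -(t * (AA (-q) / r)) * (t * (CC l (-q) / r ^ 2)) ≤
      (m * (AA q - AA (-q)) + SS q - SS (-q)) / r / 2 := by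
  have hn := nq_pos q
  have e3 : s * (AA q / r) * (s * (CC l q / r ^ 2)) + -(t * (AA (-q) / r)) *
      (t * (CC l (-q) / r ^ 2)) = q / nq q * (m - 4 + 6 * q ^ 2) / r := by
    rw [← dotNC hl]
    have : s * (AA q / r) * (s * (CC l q / r ^ 2)) + -(t * (AA (-q) / r)) *
      (t * (CC l (-q) / r ^ 2)) = (s ^ 2 * (AA q * CC l q) -
      t ^ 2 * (AA (-q) * CC l (-q))) / r ^ 3 := by
      field_simp
      ring
    rw [this, h1, h2]
    field_simp
  rw [e3, divN]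
  have h5 : 6 * q ^ 2 ≤ 65 / 4 * q ^ 2 / nq q := by
    rw [le_div_iff₀ hn]
    have : nq q ≤ 13 / 8 := by unfold nq; nlinarith
    have h6 : 6 * q ^ 2 * nq q ≤ 6 * q ^ 2 * (13 / 8) :=
      mul_le_mul_of_nonneg_left this (by positivity)
    nlinarith [sq_nonneg q]
  have h7 : q / nq q * (2 * m - 8 + 65 / 2 * q ^ 2 / nq q) / r / 2 =
    q / nq q * (m - 4 + 65 / 4 * q ^ 2 / nq q) / r := by ring
  rw [h7]
  refine div_le_div_of_nonneg_right ?_ hr.le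
  refine mul_le_mul_of_nonneg_left ?_ (by positivity)
  linarith

lemma vec_D {κ : ℝ} (hm : 0 ≤ m) (hr : 0 < r) (h1 : s ^ 2 = r ^ 2 * (1 / 2 + q))
    (h2 : t ^ 2 = r ^ 2 * (1 / 2 - q)) (hl : l = (m + 2) / 3)
    (hκ : κ = (5 * m ^ 2 + 2 * m - 70) / 9) :
    κ / r ^ 2 ≤ (m * (CC l q + CC l (-q)) + SC l q + SC l (-q)) / r ^ 2 -
      ((s * (CC l q / r ^ 2)) ^ 2 + (t * (CC l (-q) / r ^ 2)) ^ 2) := by
  have e3 : (m * (CC l q + CC l (-q)) + SC l q + SC l (-q)) / r ^ 2 -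
      ((s * (CC l q / r ^ 2)) ^ 2 + (t * (CC l (-q) / r ^ 2)) ^ 2) =
      (κ + (16 * m + 8) * q ^ 2 + 108 * q ^ 4) / r ^ 2 := by
    rw [hκ, ← divC hl]
    have : (s * (CC l q / r ^ 2)) ^ 2 + (t * (CC l (-q) / r ^ 2)) ^ 2 =
        (s ^ 2 * CC l q ^ 2 + t ^ 2 * CC l (-q) ^ 2) / r ^ 4 := by
      field_simp
    rw [this, h1, h2]
    field_simp
  rw [e3]
  refine div_le_div_of_nonneg_right ?_ (by positivity)
  have : 0 ≤ (16 * m + 8) * q ^ 2 + 108 * q ^ 4 := by positivity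
  linarith

lemma vec_Nr (hr : 0 < r) (h1 : s ^ 2 = r ^ 2 * (1 / 2 + q)) (h2 : t ^ 2 = r ^ 2 * (1 / 2 - q)) :
    s * (AA q / r) * s + -(t * (AA (-q) / r)) * t = 3 * q * r / nq q := by
  have : s * (AA q / r) * s + -(t * (AA (-q) / r)) * t = (s ^ 2 * AA q - t ^ 2 * AA (-q)) / r := by
    ring
  rw [this, h1, h2]
  have : (r ^ 2 * (1 / 2 + q) * AA q - r ^ 2 * (1 / 2 - q) * AA (-q)) / r = r *
      ((1 / 2 + q) * AA q - (1 / 2 - q) * AA (-q)) := by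
    field_simp
  rw [this, AA_comb]
  ring

lemma vec_dU {V1 V2 : ℝ} (hr : 0 < r) (h1 : s ^ 2 = r ^ 2 * (1 / 2 + q))
    (h2 : t ^ 2 = r ^ 2 * (1 / 2 - q)) :
    s * (AA q / r) * (s * V1 + 2 * s * t ^ 2 / r ^ 4 * V2) +
      -(t * (AA (-q) / r)) * (t * V1 - 2 * s ^ 2 * t / r ^ 4 * V2) =
    3 * q * r / nq q * V1 + (1 - 4 * q ^ 2) / (r * nq q) * V2 := by
  have : s * (AA q / r) * (s * V1 + 2 * s * t ^ 2 / r ^ 4 * V2) +
      -(t * (AA (-q) / r)) * (t * V1 - 2 * s ^ 2 * t / r ^ 4 * V2) =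
    (s * (AA q / r) * s + -(t * (AA (-q) / r)) * t) * V1 +
      2 * (s ^ 2 * t ^ 2) / r ^ 5 * (AA q + AA (-q)) * V2 := by
    field_simp
    ring
  rw [this, vec_Nr hr h1 h2, AA_add, h1, h2]
  have hn := nq_pos q
  field_simp
  ring

end vec

/-- The pointwise inequality of the calibration argument in the `(s, t)` plane. -/
lemma pointwise {m : ℕ} {c κ s t z e e1 e2 z1 z2 : ℝ} (hm : 5 ≤ m) (hl : l = ((m : ℝ) + 2) / 3)
    (hc : c = 2 * m - 7 / 2) (hκ : κ = (5 * (m : ℝ) ^ 2 + 2 * m - 70) / 9) (ht : 0 < t) (hts : t < s)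
    (hz : 0 ≤ z) :
    0 ≤ s ^ (m - 1) * t ^ (m - 1) * ((e1 ^ 2 + e2 ^ 2) + (3 * UU c s t ^ 2 * z ^ 2 - 1) * e ^ 2 +
        1 / 2 * e ^ 4 + UU c s t ^ 2 * (z1 ^ 2 + z2 ^ 2) +
        1 / 2 * UU c s t ^ 4 * (z ^ 2 - 1) ^ 2) +
      (fld' m 1 l (Gt (UU c s t) z (MM κ s t) e)
        (Gt' (UU c s t) z (MM κ s t) e (Us c s t) z1 (s * M1 κ s t) e1) e e1 t s +
       fld' m (-1) l (Gt (UU c s t) z (MM κ s t) e)
        (Gt' (UU c s t) z (MM κ s t) e (Ut c s t) z2 (t * M1 κ s t) e2) e e2 s t) := by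
  have hm' : (5 : ℝ) ≤ m := by exact_mod_cast hm
  have hs : 0 < s := ht.trans hts
  have h0 : 0 < s ^ 2 + t ^ 2 := by positivity
  have hr := rr_pos h0
  have hq := qq_pos ht.le hts
  have hq2 := qq_le_half s t
  have hn := nq_pos (qq s t)
  have hR : 0 ≤ RR c s t := Real.sqrt_nonneg _
  have hc0 : 13 / 2 ≤ c := by rw [hc]; linarith
  have hκc : c + 1 / 2 ≤ κ := by rw [hκ, hc]; nlinarith
  have e1' := s_sq_eq h0
  have e2' := t_sq_eq h0
  have hU : 0 ≤ UU c s t := UU_nonneg ht.le hts.le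
  have hM : 0 ≤ MM κ s t := le_max_left _ _
  have hM1 : 0 ≤ M1 κ s t := by
    unfold M1
    split_ifs
    · have : 0 ≤ κ := by linarith
      positivity
    · exact le_rfl
  have hr2 : rr s t ^ 2 = s ^ 2 + t ^ 2 := rr_sq s t
  have kN := vec_N hr e1' e2'
  have kd0 := vec_d (by linarith : (4 : ℝ) ≤ m) hr hq.le
  have kNC := vec_NC hr e1' e2' hq.le hq2 hl
  have kD' := vec_D (by linarith : (0 : ℝ) ≤ m) hr e1' e2' hl hκ
  have kNr := vec_Nr hr e1' e2'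
  have kdU := vec_dU (V1 := U1 c (rr s t) (qq s t) (RR c s t))
    (V2 := U2 (rr s t) (qq s t) (RR c s t)) hr e1' e2'
  have kM : 1 - κ / rr s t ^ 2 ≤ MM κ s t := by
    rw [hr2]; exact le_max_right _ _
  have kdU2 : MM κ s t - UU c s t ^ 2 ≤ √2 * (s * (AA (qq s t) / rr s t) * Us c s t +
      -(t * (AA (-qq s t) / rr s t)) * Ut c s t) := by
    unfold Us Ut
    rw [kdU]
    rcases lt_or_ge κ (s ^ 2 + t ^ 2) with h | h
    · have hRp : 0 < RR c s t := RR_pos (by linarith)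
      have := first_order hr hq hRp (c_eq (by linarith)) hc0 hκc
      have h7 : MM κ s t = 1 - κ / rr s t ^ 2 := by
        rw [hr2]
        refine max_eq_right ?_
        rw [sub_nonneg, div_le_one h0]
        exact h.le
      rw [h7]
      unfold UU nq
      linarith
    · have h7 : MM κ s t = 0 := by
        refine max_eq_left ?_
        rw [sub_nonpos, le_div_iff₀ h0]
        linarith
      rw [h7]
      have h8 := U1_nonneg (c := c) (by linarith) hr.le hq.le hR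
      have h9 := U2_nonneg (q := qq s t) (R := RR c s t) hr.le
      have h10 : 0 ≤ 1 - 4 * qq s t ^ 2 := by nlinarith
      have h11 : 0 ≤ √2 * (3 * qq s t * rr s t / nq (qq s t) *
        U1 c (rr s t) (qq s t) (RR c s t) + (1 - 4 * qq s t ^ 2) / (rr s t * nq (qq s t)) *
        U2 (rr s t) (qq s t) (RR c s t)) := by positivity
      have := sq_nonneg (UU c s t)
      linarith
  have kdM : 0 ≤ s * (AA (qq s t) / rr s t) * (s * M1 κ s t) +
      -(t * (AA (-qq s t) / rr s t)) * (t * M1 κ s t) := by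
    have : s * (AA (qq s t) / rr s t) * (s * M1 κ s t) +
      -(t * (AA (-qq s t) / rr s t)) * (t * M1 κ s t) =
      (s * (AA (qq s t) / rr s t) * s + -(t * (AA (-qq s t) / rr s t)) * t) * M1 κ s t := by ring
    rw [this, kNr]
    positivity
  have kD : 1 - MM κ s t ≤ (m * (CC l (qq s t) + CC l (-qq s t)) + SC l (qq s t) +
      SC l (-qq s t)) / rr s t ^ 2 - ((s * (CC l (qq s t) / rr s t ^ 2)) ^ 2 +
      (t * (CC l (-qq s t) / rr s t ^ 2)) ^ 2) := by linarith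
  have main := calib (g := √2) (e := e) (e1 := e1) (e2 := e2) (z1 := z1) (z2 := z2) sqrt2_sq
    sqrt2_pos hU hz hM kd0 kdM kN kNC kD kdU2
  have hw : 0 ≤ s ^ (m - 1) * t ^ (m - 1) := by positivity
  refine (mul_nonneg hw main).trans_eq ?_
  clear main kD kdM kdU2 kdU kM kNr kD' kNC kd0 kN
  simp only [fld', Gt']
  rw [qq_swap s t, rr_comm t s, mul_comm (t ^ (m - 1)) (s ^ (m - 1))]
  unfold Gt
  generalize Gam √2 (UU c s t) z (MM κ s t) = GG
  generalize UU c s t = U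
  generalize MM κ s t = M
  generalize M1 κ s t = M1'
  generalize Us c s t = Us'
  generalize Ut c s t = Ut'
  generalize s ^ (m - 1) * t ^ (m - 1) = w
  generalize qq s t = q
  generalize rr s t = r
  generalize AA q = A
  generalize AA (-q) = A'
  generalize SS q = S
  generalize SS (-q) = S'
  generalize CC l q = Cq
  generalize CC l (-q) = Cq'
  generalize SC l q = T
  generalize SC l (-q) = T'
  ring

end

end Pool.Agent.Lib.MP_98c801_an
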