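import Mathlib
import Pool.Agent.Lib.MP_98c801_an.Geom

/-!
Integration by parts on the triangle `0 < t < s < R`.
-/

namespace Pool.Agent.Lib.MP_98c801_an

open Real Set MeasureTheory

noncomputable section

/-- open triangle `0 < t < s < R` -/
def Tri (R : ℝ) : Set (ℝ × ℝ) := {p | 0 < p.2 ∧ p.2 < p.1 ∧ p.1 < R}

lemma isOpen_Tri (R : ℝ) : IsOpen (Tri R) := by
  have h1 : IsOpen {p : ℝ × ℝ | 0 < p.2} := isOpen_lt continuous_const continuous_snd
  have h2 : IsOpen {p : ℝ × ℝ | p.2 < p.1} := isOpen_lt continuous_snd continuous_fst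
  have h3 : IsOpen {p : ℝ × ℝ | p.1 < R} := isOpen_lt continuous_fst continuous_const
  exact h1.inter (h2.inter h3)

lemma measurableSet_Tri (R : ℝ) : MeasurableSet (Tri R) := (isOpen_Tri R).measurableSet

lemma Tri_subset_Icc (R : ℝ) : Tri R ⊆ Icc (0 : ℝ) R ×ˢ Icc (0 : ℝ) R := by
  rintro ⟨s, t⟩ ⟨h1, h2, h3⟩
  simp only at h1 h2 h3
  exact ⟨⟨(h1.trans h2).le, h3.le⟩, ⟨h1.le, (h2.trans h3).le⟩⟩

lemma volume_Tri_lt_top (R : ℝ) : volume (Tri R) < ⊤ := by
  refine lt_of_le_of_lt (measure_mono (Tri_subset_Icc R)) ?_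
  exact (isCompact_Icc.prod isCompact_Icc).measure_lt_top

lemma ftc_Ioo {f f' : ℝ → ℝ} {a b : ℝ} (hab : a ≤ b) (hc : ContinuousOn f (Icc a b))
    (hd : ∃ A : Set ℝ, A.Countable ∧ ∀ s ∈ Ioo a b \ A, HasDerivAt f (f' s) s)
    (hi : IntegrableOn f' (Ioo a b)) : ∫ s in Ioo a b, f' s = f b - f a := by
  obtain ⟨A, hA, hd⟩ := hd
  rw [← integral_Ioc_eq_integral_Ioo, ← intervalIntegral.integral_of_le hab]
  refine MeasureTheory.integral_eq_of_hasDerivAt_off_countable_of_le f f' hab hA hc hd ?_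
  rw [intervalIntegrable_iff_integrableOn_Ioo_of_le hab]
  exact hi

lemma ibp_left {F F' : ℝ → ℝ → ℝ} {R : ℝ}
    (hFc : ∀ t, 0 < t → t < R → ContinuousOn (fun s => F s t) (Icc t R))
    (hF' : ∀ t, 0 < t → t < R → ∃ A : Set ℝ, A.Countable ∧
      ∀ s ∈ Ioo t R \ A, HasDerivAt (fun s => F s t) (F' s t) s)
    (hFi : IntegrableOn (fun p : ℝ × ℝ => F' p.1 p.2) (Tri R)) :
    ∫ p in Tri R, F' p.1 p.2 = ∫ t in Ioo 0 R, (F R t - F t t) := by
  have hFi' : Integrable ((Tri R).indicator fun p : ℝ × ℝ => F' p.1 p.2)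
      ((volume : Measure ℝ).prod volume) := by
    rw [← Measure.volume_eq_prod]
    exact hFi.integrable_indicator (measurableSet_Tri R)
  rw [← integral_indicator (measurableSet_Tri R), Measure.volume_eq_prod,
    integral_prod_symm _ hFi', ← integral_indicator measurableSet_Ioo]
  refine integral_congr_ae ?_
  filter_upwards [hFi'.prod_left_ae] with t ht
  by_cases h0 : t ∈ Ioo 0 R
  · rw [indicator_of_mem h0]
    have e1 : (fun s => (Tri R).indicator (fun p : ℝ × ℝ => F' p.1 p.2) (s, t)) =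
        (Ioo t R).indicator (fun s => F' s t) := by
      funext s
      by_cases hs : s ∈ Ioo t R
      · rw [indicator_of_mem hs, indicator_of_mem]
        exact ⟨h0.1, hs.1, hs.2⟩
      · rw [indicator_of_notMem hs, indicator_of_notMem]
        rintro ⟨_, h2, h3⟩
        exact hs ⟨h2, h3⟩
    rw [e1] at ht
    rw [e1, integral_indicator measurableSet_Ioo]
    exact ftc_Ioo h0.2.le (hFc t h0.1 h0.2) (hF' t h0.1 h0.2)
      ((integrable_indicator_iff measurableSet_Ioo).1 ht)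
  · rw [indicator_of_notMem h0]
    have e1 : (fun s => (Tri R).indicator (fun p : ℝ × ℝ => F' p.1 p.2) (s, t)) = fun _ => 0 := by
      funext s
      rw [indicator_of_notMem]
      rintro ⟨h1, h2, h3⟩
      exact h0 ⟨h1, lt_trans h2 h3⟩
    rw [e1, integral_zero]

lemma ibp_right {G G' : ℝ → ℝ → ℝ} {R : ℝ}
    (hGc : ∀ s, 0 < s → s < R → ContinuousOn (fun t => G s t) (Icc 0 s))
    (hG' : ∀ s, 0 < s → s < R → ∃ A : Set ℝ, A.Countable ∧
      ∀ t ∈ Ioo 0 s \ A, HasDerivAt (fun t => G s t) (G' s t) t)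
    (hGi : IntegrableOn (fun p : ℝ × ℝ => G' p.1 p.2) (Tri R)) :
    ∫ p in Tri R, G' p.1 p.2 = ∫ s in Ioo 0 R, (G s s - G s 0) := by
  have hGi' : Integrable ((Tri R).indicator fun p : ℝ × ℝ => G' p.1 p.2)
      ((volume : Measure ℝ).prod volume) := by
    rw [← Measure.volume_eq_prod]
    exact hGi.integrable_indicator (measurableSet_Tri R)
  rw [← integral_indicator (measurableSet_Tri R), Measure.volume_eq_prod,
    integral_prod _ hGi', ← integral_indicator measurableSet_Ioo]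
  refine integral_congr_ae ?_
  filter_upwards [hGi'.prod_right_ae] with s hs
  by_cases h0 : s ∈ Ioo 0 R
  · rw [indicator_of_mem h0]
    have e1 : (fun t => (Tri R).indicator (fun p : ℝ × ℝ => G' p.1 p.2) (s, t)) =
        (Ioo 0 s).indicator (fun t => G' s t) := by
      funext t
      by_cases ht : t ∈ Ioo 0 s
      · rw [indicator_of_mem ht, indicator_of_mem]
        exact ⟨ht.1, ht.2, h0.2⟩
      · rw [indicator_of_notMem ht, indicator_of_notMem]
        rintro ⟨h1, h2, _⟩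
        exact ht ⟨h1, h2⟩
    rw [e1] at hs
    rw [e1, integral_indicator measurableSet_Ioo]
    exact ftc_Ioo h0.1.le (hGc s h0.1 h0.2) (hG' s h0.1 h0.2)
      ((integrable_indicator_iff measurableSet_Ioo).1 hs)
  · rw [indicator_of_notMem h0]
    have e1 : (fun t => (Tri R).indicator (fun p : ℝ × ℝ => G' p.1 p.2) (s, t)) = fun _ => 0 := by
      funext t
      rw [indicator_of_notMem]
      rintro ⟨h1, h2, h3⟩
      exact h0 ⟨lt_trans h1 h2, h3⟩
    rw [e1, integral_zero]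

/-- integration by parts on the triangle -/
lemma ibp {F G F' G' : ℝ → ℝ → ℝ} {R : ℝ}
    (hFc : ∀ t, 0 < t → t < R → ContinuousOn (fun s => F s t) (Icc t R))
    (hGc : ∀ s, 0 < s → s < R → ContinuousOn (fun t => G s t) (Icc 0 s))
    (hF0 : ∀ t, 0 < t → t < R → F R t = 0)
    (hG0 : ∀ s, 0 < s → s < R → G s 0 = 0)
    (hdiag : ∀ s, 0 < s → s < R → F s s = G s s)
    (hF' : ∀ t, 0 < t → t < R → ∃ A : Set ℝ, A.Countable ∧
      ∀ s ∈ Ioo t R \ A, HasDerivAt (fun s => F s t) (F' s t) s)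
    (hG' : ∀ s, 0 < s → s < R → ∃ A : Set ℝ, A.Countable ∧
      ∀ t ∈ Ioo 0 s \ A, HasDerivAt (fun t => G s t) (G' s t) t)
    (hFi : IntegrableOn (fun p : ℝ × ℝ => F' p.1 p.2) (Tri R))
    (hGi : IntegrableOn (fun p : ℝ × ℝ => G' p.1 p.2) (Tri R)) :
    ∫ p in Tri R, (F' p.1 p.2 + G' p.1 p.2) = 0 := by
  rw [integral_add hFi hGi, ibp_left hFc hF' hFi, ibp_right hGc hG' hGi]
  have e1 : ∫ t in Ioo 0 R, (F R t - F t t) = ∫ t in Ioo 0 R, -(F t t) := by
    refine setIntegral_congr_fun measurableSet_Ioo fun t ht => ?_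
    rw [hF0 t ht.1 ht.2, zero_sub]
  have e2 : ∫ s in Ioo 0 R, (G s s - G s 0) = ∫ s in Ioo 0 R, F s s := by
    refine setIntegral_congr_fun measurableSet_Ioo fun t ht => ?_
    rw [hG0 t ht.1 ht.2, sub_zero, hdiag t ht.1 ht.2]
  rw [e1, e2, integral_neg]
  ring

end

end Pool.Agent.Lib.MP_98c801_an

/-!
Measurability, boundedness and continuity facts.
-/

namespace Pool.Agent.Lib.MP_98c801_an

open Real Set MeasureTheory

noncomputable section

/-- closed triangle -/
def CTri (R : ℝ) : Set (ℝ × ℝ) := {p | 0 ≤ p.2 ∧ p.2 ≤ p.1 ∧ p.1 ≤ R}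

lemma isCompact_CTri (R : ℝ) : IsCompact (CTri R) := by
  have h1 : IsClosed {p : ℝ × ℝ | 0 ≤ p.2} := isClosed_le continuous_const continuous_snd
  have h2 : IsClosed {p : ℝ × ℝ | p.2 ≤ p.1} := isClosed_le continuous_snd continuous_fst
  have h3 : IsClosed {p : ℝ × ℝ | p.1 ≤ R} := isClosed_le continuous_fst continuous_const
  have hc : IsClosed (CTri R) := h1.inter (h2.inter h3)
  refine IsCompact.of_isClosed_subset (isCompact_Icc.prod isCompact_Icc) hc
    (t := CTri R) (s := Icc (0 : ℝ) R ×ˢ Icc (0 : ℝ) R) ?_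
  rintro ⟨s, t⟩ ⟨h1, h2, h3⟩
  simp only at h1 h2 h3
  exact ⟨⟨h1.trans h2, h3⟩, ⟨h1, h2.trans h3⟩⟩

lemma Tri_subset_CTri (R : ℝ) : Tri R ⊆ CTri R := fun _ h => ⟨h.1.le, h.2.1.le, h.2.2.le⟩

/-- measurable and bounded on the triangle -/
def Good (R : ℝ) (f : ℝ × ℝ → ℝ) : Prop :=
  AEStronglyMeasurable f (volume.restrict (Tri R)) ∧ ∃ K, ∀ p ∈ Tri R, |f p| ≤ K

namespace Good

variable {R : ℝ} {f g : ℝ × ℝ → ℝ}

lemma add (hf : Good R f) (hg : Good R g) : Good R (fun p => f p + g p) := by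
  obtain ⟨K, hK⟩ := hf.2
  obtain ⟨L, hL⟩ := hg.2
  exact ⟨hf.1.add hg.1, K + L, fun p hp => (abs_add_le _ _).trans (add_le_add (hK p hp) (hL p hp))⟩

lemma neg (hf : Good R f) : Good R (fun p => -f p) := by
  obtain ⟨K, hK⟩ := hf.2
  exact ⟨hf.1.neg, K, fun p hp => by rw [abs_neg]; exact hK p hp⟩

lemma sub (hf : Good R f) (hg : Good R g) : Good R (fun p => f p - g p) := by
  simpa only [sub_eq_add_neg] using hf.add hg.neg

lemma mul (hf : Good R f) (hg : Good R g) : Good R (fun p => f p * g p) := by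
  obtain ⟨K, hK⟩ := hf.2
  obtain ⟨L, hL⟩ := hg.2
  refine ⟨hf.1.mul hg.1, K * L, fun p hp => ?_⟩
  rw [abs_mul]
  exact mul_le_mul (hK p hp) (hL p hp) (abs_nonneg _) ((abs_nonneg _).trans (hK p hp))

lemma const (c : ℝ) : Good R (fun _ => c) :=
  ⟨aestronglyMeasurable_const, |c|, fun _ _ => le_rfl⟩

lemma pow (hf : Good R f) (n : ℕ) : Good R (fun p => f p ^ n) := by
  induction n with
  | zero => simpa only [pow_zero] using const 1
  | succ n ih => simpa only [pow_succ] using ih.mul hf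

lemma of_continuousOn (hf : ContinuousOn f (CTri R)) : Good R f := by
  refine ⟨(hf.mono (Tri_subset_CTri R)).aestronglyMeasurable (measurableSet_Tri R), ?_⟩
  obtain ⟨K, hK⟩ := (isCompact_CTri R).exists_bound_of_continuousOn hf
  exact ⟨K, fun p hp => hK p (Tri_subset_CTri R hp)⟩

lemma of_measurable (hf : Measurable f) {K : ℝ} (hK : ∀ p ∈ Tri R, |f p| ≤ K) : Good R f :=
  ⟨hf.aestronglyMeasurable, K, hK⟩

lemma congr (hf : Good R f) (h : ∀ p ∈ Tri R, g p = f p) : Good R g := by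
  obtain ⟨K, hK⟩ := hf.2
  refine ⟨hf.1.congr ?_, K, fun p hp => by rw [h p hp]; exact hK p hp⟩
  filter_upwards [self_mem_ae_restrict (measurableSet_Tri R)] with p hp
  exact (h p hp).symm

lemma integrableOn (hf : Good R f) : IntegrableOn f (Tri R) := by
  obtain ⟨K, hK⟩ := hf.2
  have hc : IntegrableOn (fun _ : ℝ × ℝ => K) (Tri R) :=
    integrableOn_const (volume_Tri_lt_top R).ne
  refine Integrable.mono' hc hf.1 ?_
  filter_upwards [self_mem_ae_restrict (measurableSet_Tri R)] with p hp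
  exact hK p hp

end Good

lemma continuous_tanh' : Continuous Real.tanh :=
  continuous_iff_continuousAt.2 fun y => (hasDerivAt_tanh y).continuousAt

lemma tanh_lt_one' (y : ℝ) : Real.tanh y < 1 := by
  have := sigma_pos y
  nlinarith [sq_nonneg (Real.tanh y - 1)]

/-! ### joint continuity -/

/-- punctured plane -/
def Pun : Set (ℝ × ℝ) := {p | 0 < p.1 ^ 2 + p.2 ^ 2}

lemma continuous_rr : Continuous fun p : ℝ × ℝ => rr p.1 p.2 := by unfold rr; fun_prop

lemma continuous_RR (c : ℝ) : Continuous fun p : ℝ × ℝ => RR c p.1 p.2 := by unfold RR; fun_prop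

lemma continuousOn_qq : ContinuousOn (fun p : ℝ × ℝ => qq p.1 p.2) Pun := by
  unfold qq
  refine ContinuousOn.div (by fun_prop) (by fun_prop) fun p hp => ?_
  have : 0 < p.1 ^ 2 + p.2 ^ 2 := hp
  positivity

lemma continuous_yy : Continuous fun p : ℝ × ℝ => yy p.1 p.2 := by unfold yy; fun_prop

lemma continuousOn_tanh (c : ℝ) :
    ContinuousOn (fun p : ℝ × ℝ => Real.tanh (yy (qq p.1 p.2) (RR c p.1 p.2))) Pun :=
  continuous_tanh'.comp_continuousOn
    (continuous_yy.comp_continuousOn (continuousOn_qq.prodMk (continuous_RR c).continuousOn))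

lemma rr_pos_of_mem {p : ℝ × ℝ} (hp : p ∈ Pun) : 0 < rr p.1 p.2 := rr_pos hp

lemma continuousOn_UU (c : ℝ) : ContinuousOn (fun p : ℝ × ℝ => UU c p.1 p.2) Pun := by
  unfold UU U0
  exact ((continuous_RR c).continuousOn.div continuous_rr.continuousOn
    fun p hp => (rr_pos_of_mem hp).ne').mul (continuousOn_tanh c)

lemma continuousOn_MM (κ : ℝ) : ContinuousOn (fun p : ℝ × ℝ => MM κ p.1 p.2) Pun := by
  unfold MM
  refine continuousOn_const.sup (continuousOn_const.sub (ContinuousOn.div continuousOn_const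
    (by fun_prop) fun p hp => ?_))
  exact (show 0 < p.1 ^ 2 + p.2 ^ 2 from hp).ne'

/-! ### measurability -/

lemma measurable_qq : Measurable fun p : ℝ × ℝ => qq p.1 p.2 := by unfold qq; fun_prop

lemma measurable_yqR (c : ℝ) :
    Measurable fun p : ℝ × ℝ => yy (qq p.1 p.2) (RR c p.1 p.2) :=
  continuous_yy.measurable.comp (measurable_qq.prodMk (continuous_RR c).measurable)

lemma measurable_tqR (c : ℝ) :
    Measurable fun p : ℝ × ℝ => Real.tanh (yy (qq p.1 p.2) (RR c p.1 p.2)) :=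
  continuous_tanh'.measurable.comp (measurable_yqR c)

lemma measurable_UU (c : ℝ) : Measurable fun p : ℝ × ℝ => UU c p.1 p.2 := by
  unfold UU U0
  exact ((continuous_RR c).measurable.div continuous_rr.measurable).mul (measurable_tqR c)

lemma measurable_MM (κ : ℝ) : Measurable fun p : ℝ × ℝ => MM κ p.1 p.2 := by
  unfold MM
  fun_prop

lemma measurable_M1 (κ : ℝ) : Measurable fun p : ℝ × ℝ => M1 κ p.1 p.2 := by
  unfold M1
  refine Measurable.ite ?_ (by fun_prop) measurable_const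
  exact measurableSet_lt measurable_const (by fun_prop)

lemma measurable_U1 (c : ℝ) :
    Measurable fun p : ℝ × ℝ => U1 c (rr p.1 p.2) (qq p.1 p.2) (RR c p.1 p.2) := by
  unfold U1
  have h1 := measurable_yqR c
  have h2 := measurable_tqR c
  have h3 := continuous_rr.measurable
  have h4 := (continuous_RR c).measurable
  fun_prop

lemma measurable_U2 (c : ℝ) :
    Measurable fun p : ℝ × ℝ => U2 (rr p.1 p.2) (qq p.1 p.2) (RR c p.1 p.2) := by
  unfold U2
  have h1 := measurable_qq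
  have h2 := measurable_tqR c
  have h3 := continuous_rr.measurable
  have h4 := (continuous_RR c).measurable
  fun_prop

lemma measurable_Us (c : ℝ) : Measurable fun p : ℝ × ℝ => Us c p.1 p.2 := by
  unfold Us
  have h1 := measurable_U1 c
  have h2 := measurable_U2 c
  have h3 := continuous_rr.measurable
  fun_prop

lemma measurable_Ut (c : ℝ) : Measurable fun p : ℝ × ℝ => Ut c p.1 p.2 := by
  unfold Ut
  have h1 := measurable_U1 c
  have h2 := measurable_U2 c
  have h3 := continuous_rr.measurable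
  fun_prop

/-! ### bounds -/

lemma yy_nonneg {q R : ℝ} (hq : 0 ≤ q) (hR : 0 ≤ R) : 0 ≤ yy q R := by unfold yy; positivity

lemma yy_le {q R : ℝ} (hq : 0 ≤ q) (hq2 : q ≤ 1 / 2) (hR : 0 ≤ R) : yy q R ≤ R := by
  unfold yy
  have h1 : q + q ^ 3 ≤ 1 := by nlinarith [sq_nonneg q, mul_nonneg hq hq]
  have h2 : 1 ≤ √(2 : ℝ) := by
    rw [show (1 : ℝ) = √1 by simp]
    exact Real.sqrt_le_sqrt (by norm_num)
  rw [div_le_iff₀ sqrt2_pos]
  calc R * (q + q ^ 3) ≤ R * 1 := mul_le_mul_of_nonneg_left h1 hR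
    _ ≤ R * √2 := mul_le_mul_of_nonneg_left h2 hR

lemma UU_le_one {c s t : ℝ} (hc : 0 ≤ c) (ht : 0 < t) (hts : t < s) : UU c s t ≤ 1 := by
  have hs : 0 < s := ht.trans hts
  have h0 : 0 < s ^ 2 + t ^ 2 := by positivity
  have hr := rr_pos h0
  have hR : 0 ≤ RR c s t := Real.sqrt_nonneg _
  have h1 : RR c s t ≤ rr s t := by
    unfold RR rr
    exact Real.sqrt_le_sqrt (by linarith)
  have hq := qq_pos ht.le hts
  have h2 := (tanh_lt_one' (yy (qq s t) (RR c s t))).le
  have h3 := tanh_nonneg (yy_nonneg hq.le hR)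
  unfold UU U0
  have h4 : RR c s t / rr s t ≤ 1 := (div_le_one hr).2 h1
  have h5 : 0 ≤ RR c s t / rr s t := by positivity
  nlinarith

lemma sigma_le_one (y : ℝ) : 1 - Real.tanh y ^ 2 ≤ 1 := by nlinarith [sq_nonneg (Real.tanh y)]

/-- `0 ≤ r U1 ≤ 2` -/
lemma rU1_le {c s t : ℝ} (hc : 0 ≤ c) (ht : 0 < t) (hts : t < s) :
    rr s t * U1 c (rr s t) (qq s t) (RR c s t) ≤ 2 := by
  have hs : 0 < s := ht.trans hts
  have h0 : 0 < s ^ 2 + t ^ 2 := by positivity
  have hr := rr_pos h0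
  have hR : 0 ≤ RR c s t := Real.sqrt_nonneg _
  have hq := qq_pos ht.le hts
  have hq2 := qq_le_half s t
  have hy := yy_nonneg hq.le hR
  have hy2 := yy_le hq.le hq2 hR
  have ht1 := tanh_le_self hy
  have ht2 := tanh_nonneg hy
  have hs1 := sigma_le_one (yy (qq s t) (RR c s t))
  have hs2 := (sigma_pos (yy (qq s t) (RR c s t))).le
  rcases le_or_gt (s ^ 2 + t ^ 2) c with h | h
  · have : RR c s t = 0 := RR_zero h
    unfold U1
    rw [this]
    simp
  · have hRp := RR_pos h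
    have hcr : c / rr s t ^ 2 ≤ 1 := by
      rw [rr_sq, div_le_one h0]; exact h.le
    have hcr0 : 0 ≤ c / rr s t ^ 2 := by positivity
    unfold U1
    generalize yy (qq s t) (RR c s t) = y at *
    generalize RR c s t = R at *
    generalize rr s t = r at *
    have e : r * ((c * Real.tanh y / r ^ 2 + y * (1 - Real.tanh y ^ 2)) / (R * r)) =
        (c / r ^ 2 * Real.tanh y + y * (1 - Real.tanh y ^ 2)) / R := by
      field_simp
    rw [e, div_le_iff₀ hRp]
    have f1 : c / r ^ 2 * Real.tanh y ≤ 1 * y := mul_le_mul hcr ht1 ht2 (by norm_num)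
    have f2 : y * (1 - Real.tanh y ^ 2) ≤ y * 1 := mul_le_mul_of_nonneg_left hs1 hy
    linarith

lemma U2_le {c s t : ℝ} (hc : 0 ≤ c) (ht : 0 < t) (hts : t < s) :
    U2 (rr s t) (qq s t) (RR c s t) ≤ 2 * rr s t := by
  have hs : 0 < s := ht.trans hts
  have h0 : 0 < s ^ 2 + t ^ 2 := by positivity
  have hr := rr_pos h0
  have hR : 0 ≤ RR c s t := Real.sqrt_nonneg _
  have h1 : RR c s t ≤ rr s t := by
    unfold RR rr
    exact Real.sqrt_le_sqrt (by linarith)
  have hq := qq_pos ht.le hts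
  have hq2 := qq_le_half s t
  have hs1 := sigma_le_one (yy (qq s t) (RR c s t))
  have hs2 := (sigma_pos (yy (qq s t) (RR c s t))).le
  have h2 : 1 ≤ √(2 : ℝ) := by
    rw [show (1 : ℝ) = √1 by simp]
    exact Real.sqrt_le_sqrt (by norm_num)
  unfold U2
  generalize yy (qq s t) (RR c s t) = y at *
  generalize RR c s t = R at *
  generalize rr s t = r at *
  generalize qq s t = q at *
  rw [div_le_iff₀ (by positivity)]
  have f1 : R ^ 2 ≤ r ^ 2 := by nlinarith
  have f2 : 1 + 3 * q ^ 2 ≤ 2 := by nlinarith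
  have f3 : R ^ 2 * (1 - Real.tanh y ^ 2) ≤ r ^ 2 * 1 := mul_le_mul f1 hs1 hs2 (by positivity)
  have f4 : R ^ 2 * (1 - Real.tanh y ^ 2) * (1 + 3 * q ^ 2) ≤ (r ^ 2 * 1) * 2 :=
    mul_le_mul f3 f2 (by positivity) (by positivity)
  nlinarith [mul_nonneg (sub_nonneg.2 h2) (sq_nonneg r)]

lemma abs_Us_le {c s t : ℝ} (hc : 0 ≤ c) (ht : 0 < t) (hts : t < s) : |Us c s t| ≤ 6 := by
  have hs : 0 < s := ht.trans hts
  have h0 : 0 < s ^ 2 + t ^ 2 := by positivity
  have hr := rr_pos h0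
  have hR : 0 ≤ RR c s t := Real.sqrt_nonneg _
  have hq := qq_pos ht.le hts
  have a1 := rU1_le hc ht hts
  have a2 := U1_nonneg hc hr.le hq.le hR
  have a3 := U2_le hc ht hts
  have a4 := U2_nonneg (q := qq s t) (R := RR c s t) hr.le
  have hsr : s ≤ rr s t := by
    unfold rr; exact Real.le_sqrt_of_sq_le (by nlinarith [sq_nonneg t])
  have htr : t ^ 2 ≤ rr s t ^ 2 := by rw [rr_sq]; nlinarith [sq_nonneg s]
  unfold Us
  generalize U1 c (rr s t) (qq s t) (RR c s t) = A at *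
  generalize U2 (rr s t) (qq s t) (RR c s t) = B at *
  generalize rr s t = r at *
  have b1 : s * A ≤ 2 := (mul_le_mul_of_nonneg_right hsr a2).trans a1
  have b2 : 2 * s * t ^ 2 / r ^ 4 * B ≤ 4 := by
    have : 2 * s * t ^ 2 / r ^ 4 * B ≤ 2 * r * r ^ 2 / r ^ 4 * (2 * r) := by
      refine mul_le_mul ?_ a3 a4 (by positivity)
      refine div_le_div_of_nonneg_right ?_ (by positivity)
      exact mul_le_mul (by linarith) htr (by positivity) (by positivity)
    refine this.trans_eq ?_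
    field_simp
    ring
  have b3 : 0 ≤ s * A + 2 * s * t ^ 2 / r ^ 4 * B := by positivity
  rw [abs_of_nonneg b3]
  linarith

lemma abs_Ut_le {c s t : ℝ} (hc : 0 ≤ c) (ht : 0 < t) (hts : t < s) : |Ut c s t| ≤ 6 := by
  have hs : 0 < s := ht.trans hts
  have h0 : 0 < s ^ 2 + t ^ 2 := by positivity
  have hr := rr_pos h0
  have hR : 0 ≤ RR c s t := Real.sqrt_nonneg _
  have hq := qq_pos ht.le hts
  have a1 := rU1_le hc ht hts
  have a2 := U1_nonneg hc hr.le hq.le hR
  have a3 := U2_le hc ht hts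
  have a4 := U2_nonneg (q := qq s t) (R := RR c s t) hr.le
  have hsr : t ≤ rr s t := by
    unfold rr; exact Real.le_sqrt_of_sq_le (by nlinarith [sq_nonneg s])
  have htr : s ^ 2 ≤ rr s t ^ 2 := by rw [rr_sq]; nlinarith [sq_nonneg t]
  unfold Ut
  generalize U1 c (rr s t) (qq s t) (RR c s t) = A at *
  generalize U2 (rr s t) (qq s t) (RR c s t) = B at *
  generalize rr s t = r at *
  have b1 : t * A ≤ 2 := (mul_le_mul_of_nonneg_right hsr a2).trans a1
  have b2 : 2 * s ^ 2 * t / r ^ 4 * B ≤ 4 := by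
    have : 2 * s ^ 2 * t / r ^ 4 * B ≤ 2 * r ^ 2 * r / r ^ 4 * (2 * r) := by
      refine mul_le_mul ?_ a3 a4 (by positivity)
      refine div_le_div_of_nonneg_right ?_ (by positivity)
      exact mul_le_mul (by linarith) hsr (by positivity) (by positivity)
    refine this.trans_eq ?_
    field_simp
    ring
  have b3 : 0 ≤ t * A := by positivity
  have b4 : 0 ≤ 2 * s ^ 2 * t / r ^ 4 * B := by positivity
  rw [abs_le]
  constructor <;> linarith

section goods

variable {R c κ : ℝ}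

lemma good_s : Good R (fun p => p.1) := Good.of_continuousOn (by fun_prop)

lemma good_t : Good R (fun p => p.2) := Good.of_continuousOn (by fun_prop)

lemma good_rr : Good R (fun p => rr p.1 p.2) := Good.of_continuousOn continuous_rr.continuousOn

lemma good_q {φ : ℝ → ℝ} (hφ : Continuous φ) : Good R (fun p => φ (qq p.1 p.2)) := by
  obtain ⟨K, hK⟩ := (isCompact_Icc (a := -(1 / 2 : ℝ)) (b := 1 / 2)).exists_bound_of_continuousOn
    hφ.continuousOn
  exact Good.of_measurable (hφ.measurable.comp measurable_qq)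
    fun p _ => hK _ ⟨neg_half_le_qq _ _, qq_le_half _ _⟩

lemma good_UU (hc : 0 ≤ c) : Good R (fun p => UU c p.1 p.2) :=
  Good.of_measurable (measurable_UU c) (K := 1) fun p hp => by
    rw [abs_of_nonneg (UU_nonneg hp.1.le hp.2.1.le)]
    exact UU_le_one hc hp.1 hp.2.1

lemma good_Us (hc : 0 ≤ c) : Good R (fun p => Us c p.1 p.2) :=
  Good.of_measurable (measurable_Us c) (K := 6) fun _ hp => abs_Us_le hc hp.1 hp.2.1

lemma good_Ut (hc : 0 ≤ c) : Good R (fun p => Ut c p.1 p.2) :=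
  Good.of_measurable (measurable_Ut c) (K := 6) fun _ hp => abs_Ut_le hc hp.1 hp.2.1

lemma good_MM (hκ : 0 ≤ κ) : Good R (fun p => MM κ p.1 p.2) :=
  Good.of_measurable (measurable_MM κ) (K := 1) fun p hp => by
    have h0 : 0 ≤ κ / (p.1 ^ 2 + p.2 ^ 2) := by positivity
    unfold MM
    rw [abs_of_nonneg (le_max_left _ _)]
    exact max_le (by norm_num) (by linarith)

lemma good_M1 (hκ : 0 < κ) : Good R (fun p => M1 κ p.1 p.2) :=
  Good.of_measurable (measurable_M1 κ) (K := 2 / κ) fun p hp => by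
    unfold M1
    split_ifs with h
    · have h0 : 0 < p.1 ^ 2 + p.2 ^ 2 := hκ.trans h
      rw [abs_of_nonneg (by positivity), div_le_div_iff₀ (by positivity) hκ]
      nlinarith
    · rw [abs_zero]; positivity

lemma good_w {m : ℕ} (hm : 2 ≤ m) :
    Good R (fun p => p.1 ^ (m - 1) * p.2 ^ (m - 1) / rr p.1 p.2 ^ 2) := by
  obtain ⟨k, rfl⟩ : ∃ k, m = k + 2 := ⟨m - 2, by omega⟩
  have h1 : Good R (fun p : ℝ × ℝ => p.1 * p.2 / (p.1 ^ 2 + p.2 ^ 2)) :=
    Good.of_measurable (by fun_prop) (K := 1) fun p hp => by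
      have h0 : 0 < p.1 ^ 2 + p.2 ^ 2 := by
        have := hp.1
        positivity
      have h2 : 0 < p.2 := hp.1
      have h3 : 0 < p.1 := hp.1.trans hp.2.1
      rw [abs_of_nonneg (by positivity), div_le_one h0]
      nlinarith [sq_nonneg (p.1 - p.2)]
  refine (((good_s.pow k).mul (good_t.pow k)).mul h1).congr fun p _ => ?_
  rw [rr_sq, show k + 2 - 1 = k + 1 by omega]
  ring

end goods

end

end Pool.Agent.Lib.MP_98c801_an
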