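import Mathlib
import Pool.Agent.Lib.MP_98c801_an.Good

/-!
Comparison of a subsolution with the saddle-shaped solution.
-/

namespace Pool.Agent.Lib.MP_98c801_an

open Real Set MeasureTheory Filter Topology

noncomputable section

lemma hasDerivAt_max_sq_aux (y : ℝ) : HasDerivAt (fun y : ℝ => max y 0 ^ 2) (2 * max y 0) y := by
  rcases lt_trichotomy y 0 with h | h | h
  · rw [max_eq_right h.le, mul_zero]
    refine (hasDerivAt_const y (0 : ℝ)).congr_of_eventuallyEq ?_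
    filter_upwards [gt_mem_nhds h] with x hx
    rw [max_eq_right (le_of_lt hx)]
    norm_num
  · subst h
    simp only [max_self, mul_zero]
    have h1 : HasDerivWithinAt (fun y : ℝ => max y 0 ^ 2) 0 (Iic 0) 0 := by
      refine (hasDerivWithinAt_const 0 (Iic 0) (0 : ℝ)).congr (fun x hx => ?_) (by simp)
      rw [max_eq_right hx]
      norm_num
    have h2 : HasDerivWithinAt (fun y : ℝ => max y 0 ^ 2) 0 (Ici 0) 0 := by
      have h3 : HasDerivAt (fun y : ℝ => y ^ 2) 0 0 := by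
        simpa using hasDerivAt_pow 2 (0 : ℝ)
      refine h3.hasDerivWithinAt.congr (fun x hx => ?_) (by simp)
      rw [max_eq_left hx]
    have h4 := h1.union h2
    rw [Iic_union_Ici] at h4
    exact h4.hasDerivAt univ_mem
  · rw [max_eq_left h.le]
    have h3 : HasDerivAt (fun y : ℝ => y ^ 2) (2 * y) y := by
      simpa using hasDerivAt_pow 2 y
    refine h3.congr_of_eventuallyEq ?_
    filter_upwards [lt_mem_nhds h] with x hx
    rw [max_eq_left (le_of_lt hx)]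

lemma hasDerivAt_max_sq {h : ℝ → ℝ} {h' a : ℝ} (hh : HasDerivAt h h' a) :
    HasDerivAt (fun x => max (h x) 0 ^ 2) (2 * max (h a) 0 * h') a := by
  have := HasDerivAt.comp a (hasDerivAt_max_sq_aux (h a)) hh
  exact this

/-- pointwise algebra of the comparison argument -/
lemma comp_alg {W v f φ g ε κ δ a1 a2 b1 b2 L : ℝ} (hv : 0 < v) (hf : f = W - v) (hf0 : 0 ≤ f)
    (hL : -κ ^ 2 + W ^ 2 + 1 - δ / v - v ^ 2 ≤ L) :
    f ^ 2 * φ ^ 2 * (1 - κ ^ 2 - δ / v) - 2 * ε ^ 2 * (f ^ 2 * g ^ 2) ≤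
      2 * f * ((W * a1 - v * b1) * (a1 - b1) + (W * a2 - v * b2) * (a2 - b2)) * φ ^ 2 -
      2 * ε * f ^ 2 * φ * g * ((a1 - b1) + (a2 - b2)) +
      f ^ 2 * φ ^ 2 * (L - a1 ^ 2 - a2 ^ 2 + b1 ^ 2 + b2 ^ 2) := by
  have h1 : 0 ≤ f ^ 2 * ((φ * (a1 - b1) - ε * g) ^ 2 + (φ * (a2 - b2) - ε * g) ^ 2) := by positivity
  have h2 : 0 ≤ f ^ 2 * φ ^ 2 * (L - (-κ ^ 2 + W ^ 2 + 1 - δ / v - v ^ 2)) :=
    mul_nonneg (by positivity) (by linarith)
  have h3 : 0 ≤ f ^ 2 * φ ^ 2 * (W ^ 2 - v ^ 2) := by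
    refine mul_nonneg (by positivity) ?_
    have : W ^ 2 - v ^ 2 = f * (f + 2 * v) := by rw [hf]; ring
    rw [this]
    positivity
  have h4 : 0 ≤ 2 * v * f * φ ^ 2 * ((a1 - b1) ^ 2 + (a2 - b2) ^ 2) := by positivity
  have key : 2 * f * ((W * a1 - v * b1) * (a1 - b1) + (W * a2 - v * b2) * (a2 - b2)) * φ ^ 2 -
      2 * ε * f ^ 2 * φ * g * ((a1 - b1) + (a2 - b2)) +
      f ^ 2 * φ ^ 2 * (L - a1 ^ 2 - a2 ^ 2 + b1 ^ 2 + b2 ^ 2) -
      (f ^ 2 * φ ^ 2 * (1 - κ ^ 2 - δ / v) - 2 * ε ^ 2 * (f ^ 2 * g ^ 2)) =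
      f ^ 2 * ((φ * (a1 - b1) - ε * g) ^ 2 + (φ * (a2 - b2) - ε * g) ^ 2) +
      f ^ 2 * φ ^ 2 * (L - (-κ ^ 2 + W ^ 2 + 1 - δ / v - v ^ 2)) +
      f ^ 2 * φ ^ 2 * (W ^ 2 - v ^ 2) +
      2 * v * f * φ ^ 2 * ((a1 - b1) ^ 2 + (a2 - b2) ^ 2) := by
    rw [hf]
    ring
  linarith

lemma integrableOn_Tri_of_compact {R : ℝ} {K : Set (ℝ × ℝ)} {f : ℝ × ℝ → ℝ} (hK : IsCompact K)
    (hf : ContinuousOn f K) (h0 : ∀ p ∈ Tri R, p ∉ K → f p = 0) : IntegrableOn f (Tri R) := by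
  have h1 : IntegrableOn f K := hf.integrableOn_compact hK
  have h2 : IntegrableOn f (Tri R \ K) := by
    refine (integrableOn_zero (s := Tri R \ K)).congr_fun (fun p hp => ?_)
      ((measurableSet_Tri R).diff hK.measurableSet)
    exact (h0 p hp.1 hp.2).symm
  refine (h1.union h2).mono_set fun p hp => ?_
  by_cases h : p ∈ K
  · exact Or.inl h
  · exact Or.inr ⟨hp, h⟩

/-- A (saddle-shaped) solution in the variables `(s, t)`. -/
structure Sol2 (m : ℕ) (u us ut uss utt : ℝ → ℝ → ℝ) : Prop where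
  cu : Continuous fun p : ℝ × ℝ => u p.1 p.2
  cus : Continuous fun p : ℝ × ℝ => us p.1 p.2
  cut : Continuous fun p : ℝ × ℝ => ut p.1 p.2
  cuss : Continuous fun p : ℝ × ℝ => uss p.1 p.2
  cutt : Continuous fun p : ℝ × ℝ => utt p.1 p.2
  du_s : ∀ s t, HasDerivAt (fun s => u s t) (us s t) s
  du_t : ∀ s t, HasDerivAt (fun t => u s t) (ut s t) t
  dus : ∀ s t, HasDerivAt (fun s => us s t) (uss s t) s
  dut : ∀ s t, HasDerivAt (fun t => ut s t) (utt s t) t
  pde : ∀ s t, 0 < t → t < s →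
    uss s t + utt s t + ((m : ℝ) - 1) * (us s t / s + ut s t / t) = -(u s t - u s t ^ 3)
  pos : ∀ s t, 0 < t → t < s → 0 < u s t
  nonneg : ∀ s t, 0 ≤ t → t ≤ s → 0 ≤ u s t
  diag : ∀ s, u s s = 0

/-- positivity set in the closed sector -/
def PP (W : ℝ → ℝ → ℝ) : Set (ℝ × ℝ) := {p | 0 ≤ p.2 ∧ p.2 ≤ p.1 ∧ 0 < W p.1 p.2}

/-- A subsolution in the variables `(s, t)`. -/
structure Sub2 (m : ℕ) (κ : ℝ) (W Ws Wt Wss Wtt : ℝ → ℝ → ℝ) : Prop where
  cW : Continuous fun p : ℝ × ℝ => W p.1 p.2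
  cWs : ContinuousOn (fun p : ℝ × ℝ => Ws p.1 p.2) (PP W)
  cWt : ContinuousOn (fun p : ℝ × ℝ => Wt p.1 p.2) (PP W)
  cWss : ContinuousOn (fun p : ℝ × ℝ => Wss p.1 p.2) (PP W)
  cWtt : ContinuousOn (fun p : ℝ × ℝ => Wtt p.1 p.2) (PP W)
  dW_s : ∀ s t, 0 < t → t < s → 0 < W s t → HasDerivAt (fun s => W s t) (Ws s t) s
  dW_t : ∀ s t, 0 < t → t < s → 0 < W s t → HasDerivAt (fun t => W s t) (Wt s t) t
  dWs : ∀ s t, 0 < t → t < s → 0 < W s t → HasDerivAt (fun s => Ws s t) (Wss s t) s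
  dWt : ∀ s t, 0 < t → t < s → 0 < W s t → HasDerivAt (fun t => Wt s t) (Wtt s t) t
  pde : ∀ s t, 0 < t → t < s → 0 < W s t →
    0 ≤ Wss s t + Wtt s t + ((m : ℝ) - 1) * (Ws s t / s + Wt s t / t) + κ ^ 2 * W s t - W s t ^ 3
  diag : ∀ s, W s s = 0
  le_one : ∀ s t, 0 < t → t < s → W s t ≤ 1

/-- one component of the field of the comparison argument -/
def cF (a W v φ W' v' : ℝ) : ℝ := a * (max (W - v) 0 ^ 2 * max φ 0 ^ 2 * (W' / W - v' / v))

/-- its derivative; `a'` is the derivative of the weight, `φ'` that of `φ` -/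
def cF' (a W v φ W' v' a' φ' W'' v'' : ℝ) : ℝ :=
  a' * (max (W - v) 0 ^ 2 * max φ 0 ^ 2 * (W' / W - v' / v)) +
  a * ((2 * max (W - v) 0 * (W' - v') * max φ 0 ^ 2 +
    max (W - v) 0 ^ 2 * (2 * max φ 0 * φ')) * (W' / W - v' / v) +
    max (W - v) 0 ^ 2 * max φ 0 ^ 2 * ((W'' * W - W' * W') / W ^ 2 - (v'' * v - v' * v') / v ^ 2))

lemma hasDerivAt_cF {a W v φ W' v' : ℝ → ℝ} {a' φ' W'' v'' x : ℝ} (ha : HasDerivAt a a' x)
    (hW : HasDerivAt W (W' x) x) (hv : HasDerivAt v (v' x) x) (hφ : HasDerivAt φ φ' x)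
    (hW' : HasDerivAt W' W'' x) (hv' : HasDerivAt v' v'' x) (hW0 : W x ≠ 0) (hv0 : v x ≠ 0) :
    HasDerivAt (fun x => cF (a x) (W x) (v x) (φ x) (W' x) (v' x))
      (cF' (a x) (W x) (v x) (φ x) (W' x) (v' x) a' φ' W'' v'') x := by
  have d1 := ((hasDerivAt_max_sq (hW.sub hv)).mul (hasDerivAt_max_sq hφ)).mul
    ((hW'.div hW hW0).sub (hv'.div hv hv0))
  refine (ha.mul d1).congr_deriv ?_
  simp only [cF', Pi.mul_apply, Pi.sub_apply, Pi.div_apply]

lemma cF_zero {a W v φ W' v' : ℝ} (h : W ≤ v) : cF a W v φ W' v' = 0 := by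
  unfold cF; rw [max_eq_right (by linarith)]; ring

lemma cF'_zero {a W v φ W' v' a' φ' W'' v'' : ℝ} (h : W ≤ v) :
    cF' a W v φ W' v' a' φ' W'' v'' = 0 := by
  unfold cF'; rw [max_eq_right (by linarith)]; ring

/-- closed sector -/
def CS : Set (ℝ × ℝ) := {p | 0 ≤ p.2 ∧ p.2 ≤ p.1}

lemma cF_continuousOn {W Ws v vs a φ : ℝ × ℝ → ℝ}
    (cW : Continuous W) (cWs : ContinuousOn Ws {p | 0 ≤ p.2 ∧ p.2 ≤ p.1 ∧ 0 < W p})
    (cv : Continuous v) (cvs : Continuous vs) (ca : Continuous a) (cφ : Continuous φ)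
    (hv : ∀ p ∈ CS, 0 < v p) :
    ContinuousOn (fun p => cF (a p) (W p) (v p) (φ p) (Ws p) (vs p)) CS := by
  intro p hp
  rcases lt_or_ge (W p) (v p) with h | h
  · have h1 : ∀ᶠ x in 𝓝 p, W x < v x := (cW.tendsto p).eventually_lt (cv.tendsto p) h
    have h2 : ContinuousAt (fun p => cF (a p) (W p) (v p) (φ p) (Ws p) (vs p)) p := by
      refine (continuousAt_const (y := (0 : ℝ))).congr ?_
      filter_upwards [h1] with x hx
      exact (cF_zero hx.le).symm
    exact h2.continuousWithinAt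
  · have hW0 : 0 < W p := (hv p hp).trans_le h
    have h1 : ContinuousWithinAt Ws CS p := by
      refine (cWs p ⟨hp.1, hp.2, hW0⟩).mono_of_mem_nhdsWithin ?_
      have h3 : ∀ᶠ x in 𝓝[CS] p, 0 < W x :=
        mem_nhdsWithin_of_mem_nhds (Tendsto.eventually_lt tendsto_const_nhds (cW.tendsto p) hW0)
      filter_upwards [h3, self_mem_nhdsWithin] with x hx hx2
      exact ⟨hx2.1, hx2.2, hx⟩
    have h2 := cW.continuousWithinAt (s := CS) (x := p)
    have h3 := cv.continuousWithinAt (s := CS) (x := p)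
    have h4 := cvs.continuousWithinAt (s := CS) (x := p)
    have h5 := ca.continuousWithinAt (s := CS) (x := p)
    have h6 := cφ.continuousWithinAt (s := CS) (x := p)
    unfold cF
    exact h5.mul ((((h2.sub h3).sup continuousWithinAt_const).pow 2).mul
      ((h6.sup continuousWithinAt_const).pow 2) |>.mul
      ((h1.div h2 hW0.ne').sub (h4.div h3 (hv p hp).ne')))

lemma cF'_continuousOn {W Ws Wss v vs vss a a' φ φ' : ℝ × ℝ → ℝ} {K : Set (ℝ × ℝ)}
    (cW : ContinuousOn W K) (cWs : ContinuousOn Ws K) (cWss : ContinuousOn Wss K)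
    (cv : ContinuousOn v K) (cvs : ContinuousOn vs K) (cvss : ContinuousOn vss K)
    (ca : ContinuousOn a K) (ca' : ContinuousOn a' K) (cφ : ContinuousOn φ K)
    (cφ' : ContinuousOn φ' K) (hW : ∀ p ∈ K, W p ≠ 0) (hv : ∀ p ∈ K, v p ≠ 0) :
    ContinuousOn (fun p => cF' (a p) (W p) (v p) (φ p) (Ws p) (vs p) (a' p) (φ' p) (Wss p) (vss p))
      K := by
  unfold cF'
  have f1 : ContinuousOn (fun p => max (W p - v p) 0) K := (cW.sub cv).sup continuousOn_const
  have f2 : ContinuousOn (fun p => max (φ p) 0) K := cφ.sup continuousOn_const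
  have f3 : ContinuousOn (fun p => Ws p / W p - vs p / v p) K := (cWs.div cW hW).sub (cvs.div cv hv)
  have f4 : ContinuousOn (fun p => (Wss p * W p - Ws p * Ws p) / W p ^ 2 -
      (vss p * v p - vs p * vs p) / v p ^ 2) K :=
    (((cWss.mul cW).sub (cWs.mul cWs)).div (cW.pow 2) fun p hp => pow_ne_zero 2 (hW p hp)).sub
      (((cvss.mul cv).sub (cvs.mul cvs)).div (cv.pow 2) fun p hp => pow_ne_zero 2 (hv p hp))
  exact (ca'.mul (((f1.pow 2).mul (f2.pow 2)).mul f3)).add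
    (ca.mul ((((((continuousOn_const (c := (2 : ℝ))).mul f1).mul (cWs.sub cvs)).mul
      (f2.pow 2)).add ((f1.pow 2).mul (((continuousOn_const (c := (2 : ℝ))).mul f2).mul cφ'))).mul f3
      |>.add (((f1.pow 2).mul (f2.pow 2)).mul f4)))

/-- the pointwise inequality -/
lemma comp_point {k : ℕ} {κ : ℝ} {u us ut uss utt W Ws Wt Wss Wtt : ℝ → ℝ → ℝ}
    (hu : Sol2 (k + 2) u us ut uss utt) (hW : Sub2 (k + 2) κ W Ws Wt Wss Wtt) {δ ε gR s t : ℝ}
    (hδ : 0 < δ) (ht : 0 < t) (hts : t < s) :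
    s ^ (k + 1) * t ^ (k + 1) * (max (W s t - (u s t + δ)) 0 ^ 2 *
        max (Real.exp (-ε * (s + t)) - gR) 0 ^ 2 * (1 - κ ^ 2 - δ / (u s t + δ)) -
        2 * ε ^ 2 * (max (W s t - (u s t + δ)) 0 ^ 2 * Real.exp (-ε * (s + t)) ^ 2)) ≤
      cF' (s ^ (k + 1) * t ^ (k + 1)) (W s t) (u s t + δ) (Real.exp (-ε * (s + t)) - gR)
        (Ws s t) (us s t) ((k + 1) * s ^ k * t ^ (k + 1)) (-ε * Real.exp (-ε * (s + t)))
        (Wss s t) (uss s t) +
      cF' (s ^ (k + 1) * t ^ (k + 1)) (W s t) (u s t + δ) (Real.exp (-ε * (s + t)) - gR)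
        (Wt s t) (ut s t) ((k + 1) * s ^ (k + 1) * t ^ k) (-ε * Real.exp (-ε * (s + t)))
        (Wtt s t) (utt s t) := by
  have hs : 0 < s := ht.trans hts
  have hup := hu.pos s t ht hts
  have hv : 0 < u s t + δ := by linarith
  rcases le_or_gt (W s t) (u s t + δ) with h | h
  · rw [cF'_zero h, cF'_zero h, max_eq_right (by linarith)]
    simp
  · have hW0 : 0 < W s t := hv.trans h
    have p1 := hu.pde s t ht hts
    have p2 := hW.pde s t ht hts hW0
    push_cast at p1 p2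
    have e1 : ((k : ℝ) + 2 - 1) = k + 1 := by ring
    rw [e1] at p1 p2
    set g := Real.exp (-ε * (s + t)) with hg
    set φ := max (g - gR) 0 with hφ
    set f := max (W s t - (u s t + δ)) 0 with hf
    have hf1 : f = W s t - (u s t + δ) := max_eq_left (by linarith)
    have hf0 : 0 ≤ f := le_max_right _ _
    -- the Laplacian term
    have hL : -κ ^ 2 + W s t ^ 2 + 1 - δ / (u s t + δ) - (u s t + δ) ^ 2 ≤
        (Wss s t + Wtt s t + (k + 1) * (Ws s t / s + Wt s t / t)) / W s t -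
        (uss s t + utt s t + (k + 1) * (us s t / s + ut s t / t)) / (u s t + δ) := by
      rw [p1]
      have q1 : -κ ^ 2 + W s t ^ 2 ≤
          (Wss s t + Wtt s t + (k + 1) * (Ws s t / s + Wt s t / t)) / W s t := by
        rw [le_div_iff₀ hW0]
        linarith
      have q2 : 1 - δ / (u s t + δ) - (u s t + δ) ^ 2 ≤
          -(-(u s t - u s t ^ 3) / (u s t + δ)) := by
        rw [neg_div, neg_neg, le_div_iff₀ hv]
        have : (1 - δ / (u s t + δ) - (u s t + δ) ^ 2) * (u s t + δ) =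
          u s t - (u s t + δ) ^ 3 := by
          field_simp
          ring
        rw [this]
        have : u s t ^ 3 ≤ (u s t + δ) ^ 3 := pow_le_pow_left₀ hup.le (by linarith) 3
        linarith
      linarith
    have main := comp_alg (a1 := Ws s t / W s t) (a2 := Wt s t / W s t)
      (b1 := us s t / (u s t + δ)) (b2 := ut s t / (u s t + δ)) (φ := φ) (g := g) (ε := ε)
      hv hf1 hf0 hL
    have hw : 0 ≤ s ^ (k + 1) * t ^ (k + 1) := by positivity
    refine (mul_le_mul_of_nonneg_left main hw).trans_eq ?_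
    unfold cF'
    simp only [← hφ, ← hf]
    generalize f = f' at *
    generalize φ = φ' at *
    generalize g = g' at *
    generalize Wss s t = Wss' at *
    generalize Wtt s t = Wtt' at *
    generalize Ws s t = Ws' at *
    generalize Wt s t = Wt' at *
    generalize W s t = W' at *
    have hv' := hv
    generalize u s t + δ = v' at *
    generalize uss s t = uss' at *
    generalize utt s t = utt' at *
    generalize us s t = us' at *
    generalize ut s t = ut' at *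
    field_simp
    ring

/-- the comparison inequality at level `(R, δ)` -/
lemma comp_step {k : ℕ} {κ : ℝ} {u us ut uss utt W Ws Wt Wss Wtt : ℝ → ℝ → ℝ}
    (hu : Sol2 (k + 2) u us ut uss utt) (hW : Sub2 (k + 2) κ W Ws Wt Wss Wtt) {δ ε R : ℝ}
    (hδ : 0 < δ) (hε : 0 < ε) :
    (1 - κ ^ 2) * ∫ p in Tri R, p.1 ^ (k + 1) * p.2 ^ (k + 1) *
        (max (W p.1 p.2 - (u p.1 p.2 + δ)) 0 ^ 2 *
          max (Real.exp (-ε * (p.1 + p.2)) - Real.exp (-ε * R)) 0 ^ 2) ≤
      2 * ε ^ 2 * (∫ p in Tri R, p.1 ^ (k + 1) * p.2 ^ (k + 1) *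
        (max (W p.1 p.2 - (u p.1 p.2 + δ)) 0 ^ 2 * Real.exp (-ε * (p.1 + p.2)) ^ 2)) +
      ∫ p in Tri R, p.1 ^ (k + 1) * p.2 ^ (k + 1) *
        (max (W p.1 p.2 - (u p.1 p.2 + δ)) 0 ^ 2 *
          max (Real.exp (-ε * (p.1 + p.2)) - Real.exp (-ε * R)) 0 ^ 2 * (δ / (u p.1 p.2 + δ))) := by
  set gR := Real.exp (-ε * R) with hgR
  have cW := hW.cW
  have cu := hu.cu
  have cv : Continuous fun p : ℝ × ℝ => u p.1 p.2 + δ := cu.add_const δ
  have cg : Continuous fun p : ℝ × ℝ => Real.exp (-ε * (p.1 + p.2)) := by fun_prop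
  have cφ : Continuous fun p : ℝ × ℝ => Real.exp (-ε * (p.1 + p.2)) - gR := by fun_prop
  have cw : Continuous fun p : ℝ × ℝ => p.1 ^ (k + 1) * p.2 ^ (k + 1) := by fun_prop
  have hvpos : ∀ p ∈ CS, 0 < u p.1 p.2 + δ := fun p hp => by
    have := hu.nonneg p.1 p.2 hp.1 hp.2
    linarith
  set F : ℝ → ℝ → ℝ := fun s t => cF (s ^ (k + 1) * t ^ (k + 1)) (W s t) (u s t + δ)
    (Real.exp (-ε * (s + t)) - gR) (Ws s t) (us s t) with hF
  set G : ℝ → ℝ → ℝ := fun s t => cF (s ^ (k + 1) * t ^ (k + 1)) (W s t) (u s t + δ)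
    (Real.exp (-ε * (s + t)) - gR) (Wt s t) (ut s t) with hG
  set F' : ℝ → ℝ → ℝ := fun s t => cF' (s ^ (k + 1) * t ^ (k + 1)) (W s t) (u s t + δ)
    (Real.exp (-ε * (s + t)) - gR) (Ws s t) (us s t) ((k + 1) * s ^ k * t ^ (k + 1))
    (-ε * Real.exp (-ε * (s + t))) (Wss s t) (uss s t) with hF'
  set G' : ℝ → ℝ → ℝ := fun s t => cF' (s ^ (k + 1) * t ^ (k + 1)) (W s t) (u s t + δ)
    (Real.exp (-ε * (s + t)) - gR) (Wt s t) (ut s t) ((k + 1) * s ^ (k + 1) * t ^ k)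
    (-ε * Real.exp (-ε * (s + t))) (Wtt s t) (utt s t) with hG'
  -- compact set
  set K : Set (ℝ × ℝ) := CTri R ∩ {p | u p.1 p.2 + δ ≤ W p.1 p.2} with hK
  have hKc : IsCompact K := (isCompact_CTri R).inter_right (isClosed_le cv cW)
  have hKP : K ⊆ PP W := fun p hp => by
    have h1 := hvpos p ⟨hp.1.1, hp.1.2.1⟩
    exact ⟨hp.1.1, hp.1.2.1, h1.trans_le hp.2⟩
  have hKW : ∀ p ∈ K, W p.1 p.2 ≠ 0 := fun p hp => (hKP hp).2.2.ne'
  have hKv : ∀ p ∈ K, u p.1 p.2 + δ ≠ 0 := fun p hp => (hvpos p ⟨hp.1.1, hp.1.2.1⟩).ne'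
  have iF : IntegrableOn (fun p : ℝ × ℝ => F' p.1 p.2) (Tri R) := by
    refine integrableOn_Tri_of_compact hKc ?_ fun p hp hpK => ?_
    · exact cF'_continuousOn cW.continuousOn (hW.cWs.mono hKP) (hW.cWss.mono hKP) cv.continuousOn
        hu.cus.continuousOn hu.cuss.continuousOn cw.continuousOn (by fun_prop) cφ.continuousOn
        (by fun_prop) hKW hKv
    · have : ¬ (u p.1 p.2 + δ ≤ W p.1 p.2) := fun h => hpK ⟨Tri_subset_CTri R hp, h⟩
      exact cF'_zero (le_of_lt (not_le.1 this))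
  have iG : IntegrableOn (fun p : ℝ × ℝ => G' p.1 p.2) (Tri R) := by
    refine integrableOn_Tri_of_compact hKc ?_ fun p hp hpK => ?_
    · exact cF'_continuousOn cW.continuousOn (hW.cWt.mono hKP) (hW.cWtt.mono hKP) cv.continuousOn
        hu.cut.continuousOn hu.cutt.continuousOn cw.continuousOn (by fun_prop) cφ.continuousOn
        (by fun_prop) hKW hKv
    · have : ¬ (u p.1 p.2 + δ ≤ W p.1 p.2) := fun h => hpK ⟨Tri_subset_CTri R hp, h⟩
      exact cF'_zero (le_of_lt (not_le.1 this))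
  have cFc : ContinuousOn (fun p : ℝ × ℝ => F p.1 p.2) CS :=
    cF_continuousOn cW hW.cWs cv hu.cus cw cφ hvpos
  have cGc : ContinuousOn (fun p : ℝ × ℝ => G p.1 p.2) CS :=
    cF_continuousOn cW hW.cWt cv hu.cut cw cφ hvpos
  have hibp : ∫ p in Tri R, (F' p.1 p.2 + G' p.1 p.2) = 0 := by
    refine ibp (F := F) (G := G) ?_ ?_ ?_ ?_ ?_ ?_ ?_ iF iG
    · intro t ht htR
      exact cFc.comp (f := fun s : ℝ => ((s, t) : ℝ × ℝ)) (by fun_prop) fun s hs => ⟨ht.le, hs.1⟩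
    · intro s hs hsR
      exact cGc.comp (f := fun t : ℝ => ((s, t) : ℝ × ℝ)) (by fun_prop) fun t ht => ⟨ht.1, ht.2⟩
    · intro t ht htR
      simp only [hF, cF]
      have : max (Real.exp (-ε * (R + t)) - gR) 0 = 0 := by
        refine max_eq_right ?_
        rw [sub_nonpos, hgR]
        exact Real.exp_le_exp.2 (by nlinarith [mul_pos hε ht])
      rw [this]
      ring
    · intro s hs _
      simp only [hG, cF]
      rw [zero_pow (by omega)]
      ring
    · intro s hs _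
      simp only [hF, hG]
      have h1 : W s s ≤ u s s + δ := by rw [hW.diag, hu.diag]; linarith
      rw [cF_zero h1, cF_zero h1]
    · intro t ht htR
      refine ⟨∅, countable_empty, fun s hs => ?_⟩
      have hs1 : t < s := hs.1.1
      rcases le_or_gt (W s t) 0 with h | h
      · have hv0 := hu.pos s t ht hs1
        have h1 : ∀ᶠ x in 𝓝 s, W x t < u x t + δ := by
          have c1 : Continuous fun x : ℝ => W x t := cW.comp (by fun_prop : Continuous fun x : ℝ => ((x, t) : ℝ × ℝ))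
          have c2 : Continuous fun x : ℝ => u x t + δ :=
            cv.comp (by fun_prop : Continuous fun x : ℝ => ((x, t) : ℝ × ℝ))
          exact (c1.tendsto s).eventually_lt (c2.tendsto s) (by linarith)
        have h2 : F' s t = 0 := cF'_zero (by linarith)
        rw [h2]
        refine (hasDerivAt_const s (0 : ℝ)).congr_of_eventuallyEq ?_
        filter_upwards [h1] with x hx
        exact cF_zero hx.le
      · have hd : HasDerivAt (fun s : ℝ => s ^ (k + 1) * t ^ (k + 1))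
            ((k + 1) * s ^ k * t ^ (k + 1)) s := by
          refine ((hasDerivAt_pow (k + 1) s).mul_const _).congr_deriv ?_
          push_cast
          simp
        have hφ : HasDerivAt (fun s : ℝ => Real.exp (-ε * (s + t)) - gR)
            (-ε * Real.exp (-ε * (s + t))) s := by
          have := ((((hasDerivAt_id s).add_const t).const_mul (-ε)).exp).sub_const gR
          refine this.congr_deriv ?_
          simp [mul_comm]
        have hv0 := hu.pos s t ht hs1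
        exact hasDerivAt_cF (a := fun s => s ^ (k + 1) * t ^ (k + 1)) (W := fun s => W s t)
          (v := fun s => u s t + δ) (φ := fun s => Real.exp (-ε * (s + t)) - gR)
          (W' := fun s => Ws s t) (v' := fun s => us s t) hd (hW.dW_s s t ht hs1 h)
          ((hu.du_s s t).add_const δ) hφ (hW.dWs s t ht hs1 h) (hu.dus s t) h.ne' (by positivity)
    · intro s hs hsR
      refine ⟨∅, countable_empty, fun t ht => ?_⟩
      have ht0 : 0 < t := ht.1.1
      have hs1 : t < s := ht.1.2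
      rcases le_or_gt (W s t) 0 with h | h
      · have hv0 := hu.pos s t ht0 hs1
        have h1 : ∀ᶠ x in 𝓝 t, W s x < u s x + δ := by
          have c1 : Continuous fun x : ℝ => W s x := cW.comp (by fun_prop : Continuous fun x : ℝ => ((s, x) : ℝ × ℝ))
          have c2 : Continuous fun x : ℝ => u s x + δ :=
            cv.comp (by fun_prop : Continuous fun x : ℝ => ((s, x) : ℝ × ℝ))
          exact (c1.tendsto t).eventually_lt (c2.tendsto t) (by linarith)
        have h2 : G' s t = 0 := cF'_zero (by linarith)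
        rw [h2]
        refine (hasDerivAt_const t (0 : ℝ)).congr_of_eventuallyEq ?_
        filter_upwards [h1] with x hx
        exact cF_zero hx.le
      · have hd : HasDerivAt (fun t : ℝ => s ^ (k + 1) * t ^ (k + 1))
            ((k + 1) * s ^ (k + 1) * t ^ k) t := by
          refine ((hasDerivAt_pow (k + 1) t).const_mul _).congr_deriv ?_
          rw [Nat.add_sub_cancel]
          push_cast
          ring
        have hφ : HasDerivAt (fun t : ℝ => Real.exp (-ε * (s + t)) - gR)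
            (-ε * Real.exp (-ε * (s + t))) t := by
          have := ((((hasDerivAt_id t).const_add s).const_mul (-ε)).exp).sub_const gR
          refine this.congr_deriv ?_
          simp [mul_comm]
        have hv0 := hu.pos s t ht0 hs1
        exact hasDerivAt_cF (a := fun t => s ^ (k + 1) * t ^ (k + 1)) (W := fun t => W s t)
          (v := fun t => u s t + δ) (φ := fun t => Real.exp (-ε * (s + t)) - gR)
          (W' := fun t => Wt s t) (v' := fun t => ut s t) hd (hW.dW_t s t ht0 hs1 h)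
          ((hu.du_t s t).add_const δ) hφ (hW.dWt s t ht0 hs1 h) (hu.dut s t) h.ne' (by positivity)
  -- integrability of the three pieces
  have i1 : IntegrableOn (fun p : ℝ × ℝ => p.1 ^ (k + 1) * p.2 ^ (k + 1) *
        (max (W p.1 p.2 - (u p.1 p.2 + δ)) 0 ^ 2 *
          max (Real.exp (-ε * (p.1 + p.2)) - gR) 0 ^ 2)) (Tri R) :=
    (Good.of_continuousOn (by fun_prop)).integrableOn
  have i2 : IntegrableOn (fun p : ℝ × ℝ => p.1 ^ (k + 1) * p.2 ^ (k + 1) *
        (max (W p.1 p.2 - (u p.1 p.2 + δ)) 0 ^ 2 * Real.exp (-ε * (p.1 + p.2)) ^ 2)) (Tri R) :=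
    (Good.of_continuousOn (by fun_prop)).integrableOn
  have i3 : IntegrableOn (fun p : ℝ × ℝ => p.1 ^ (k + 1) * p.2 ^ (k + 1) *
        (max (W p.1 p.2 - (u p.1 p.2 + δ)) 0 ^ 2 *
          max (Real.exp (-ε * (p.1 + p.2)) - gR) 0 ^ 2 * (δ / (u p.1 p.2 + δ)))) (Tri R) := by
    refine (Good.of_continuousOn ?_).integrableOn
    refine ContinuousOn.mul (by fun_prop) (ContinuousOn.mul (by fun_prop) ?_)
    exact continuousOn_const.div cv.continuousOn fun p hp => (hvpos p ⟨hp.1, hp.2.1⟩).ne'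
  have j1 : IntegrableOn (fun p : ℝ × ℝ => (1 - κ ^ 2) * (p.1 ^ (k + 1) * p.2 ^ (k + 1) *
        (max (W p.1 p.2 - (u p.1 p.2 + δ)) 0 ^ 2 *
          max (Real.exp (-ε * (p.1 + p.2)) - gR) 0 ^ 2))) (Tri R) := i1.const_mul _
  have j2 : IntegrableOn (fun p : ℝ × ℝ => 2 * ε ^ 2 * (p.1 ^ (k + 1) * p.2 ^ (k + 1) *
        (max (W p.1 p.2 - (u p.1 p.2 + δ)) 0 ^ 2 * Real.exp (-ε * (p.1 + p.2)) ^ 2))) (Tri R) :=
    i2.const_mul _
  have j12 : IntegrableOn (fun p : ℝ × ℝ => (1 - κ ^ 2) * (p.1 ^ (k + 1) * p.2 ^ (k + 1) *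
        (max (W p.1 p.2 - (u p.1 p.2 + δ)) 0 ^ 2 *
          max (Real.exp (-ε * (p.1 + p.2)) - gR) 0 ^ 2)) -
      2 * ε ^ 2 * (p.1 ^ (k + 1) * p.2 ^ (k + 1) *
        (max (W p.1 p.2 - (u p.1 p.2 + δ)) 0 ^ 2 * Real.exp (-ε * (p.1 + p.2)) ^ 2))) (Tri R) :=
    j1.sub j2
  have hmono : ∫ p in Tri R, ((1 - κ ^ 2) * (p.1 ^ (k + 1) * p.2 ^ (k + 1) *
        (max (W p.1 p.2 - (u p.1 p.2 + δ)) 0 ^ 2 *
          max (Real.exp (-ε * (p.1 + p.2)) - gR) 0 ^ 2)) -
      2 * ε ^ 2 * (p.1 ^ (k + 1) * p.2 ^ (k + 1) *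
        (max (W p.1 p.2 - (u p.1 p.2 + δ)) 0 ^ 2 * Real.exp (-ε * (p.1 + p.2)) ^ 2)) -
      p.1 ^ (k + 1) * p.2 ^ (k + 1) *
        (max (W p.1 p.2 - (u p.1 p.2 + δ)) 0 ^ 2 *
          max (Real.exp (-ε * (p.1 + p.2)) - gR) 0 ^ 2 * (δ / (u p.1 p.2 + δ)))) ≤
      ∫ p in Tri R, (F' p.1 p.2 + G' p.1 p.2) := by
    refine setIntegral_mono_on (j12.sub i3) (iF.add iG)
      (measurableSet_Tri R) fun p hp => ?_
    refine le_trans (le_of_eq ?_) (comp_point hu hW (gR := gR) (ε := ε) hδ hp.1 hp.2.1)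
    ring
  rw [hibp, integral_sub j12 i3, integral_sub j1 j2, integral_const_mul,
    integral_const_mul] at hmono
  linarith

end

end Pool.Agent.Lib.MP_98c801_an

/-!
The limit in the comparison argument.
-/

namespace Pool.Agent.Lib.MP_98c801_an

open Real Set MeasureTheory Filter Topology

noncomputable section

/-- open sector -/
def Sec : Set (ℝ × ℝ) := {p | 0 < p.2 ∧ p.2 < p.1}

lemma isOpen_Sec : IsOpen Sec := by
  have h1 : IsOpen {p : ℝ × ℝ | 0 < p.2} := isOpen_lt continuous_const continuous_snd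
  have h2 : IsOpen {p : ℝ × ℝ | p.2 < p.1} := isOpen_lt continuous_snd continuous_fst
  exact h1.inter h2

lemma Tri_subset_Sec (R : ℝ) : Tri R ⊆ Sec := fun _ h => ⟨h.1, h.2.1⟩

lemma integrableOn_pow_exp (k : ℕ) {b : ℝ} (hb : 0 < b) :
    IntegrableOn (fun x : ℝ => x ^ (k + 1) * Real.exp (-b * x)) (Ioi 0) := by
  have h := integrableOn_rpow_mul_exp_neg_mul_rpow (p := 1) (s := (k : ℝ) + 1) (b := b)
    (by positivity |> fun (h : (0 : ℝ) < (k : ℝ) + 1) => by linarith) one_pos hb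
  refine h.congr_fun (fun x hx => ?_) measurableSet_Ioi
  simp only [Real.rpow_one]
  rw [show ((k : ℝ) + 1) = ((k + 1 : ℕ) : ℝ) by push_cast; ring, Real.rpow_natCast]

lemma integrableOn_dom (k : ℕ) {ε : ℝ} (hε : 0 < ε) :
    IntegrableOn (fun p : ℝ × ℝ => p.1 ^ (k + 1) * p.2 ^ (k + 1) *
      Real.exp (-ε * (p.1 + p.2)) ^ 2) Sec := by
  have h1 := integrableOn_pow_exp k (b := 2 * ε) (by positivity)
  have h2 : IntegrableOn (fun p : ℝ × ℝ => (p.1 ^ (k + 1) * Real.exp (-(2 * ε) * p.1)) *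
      (p.2 ^ (k + 1) * Real.exp (-(2 * ε) * p.2))) (Ioi 0 ×ˢ Ioi 0) := by
    have := Integrable.mul_prod h1 h1
    rw [Measure.prod_restrict, ← Measure.volume_eq_prod] at this
    exact this
  have h3 : Sec ⊆ Ioi (0 : ℝ) ×ˢ Ioi (0 : ℝ) := fun p hp => ⟨hp.1.trans hp.2, hp.1⟩
  refine (h2.mono_set h3).congr_fun (fun p _ => ?_) isOpen_Sec.measurableSet
  simp only
  rw [← Real.exp_nat_mul]
  have : Real.exp ((2 : ℕ) * (-ε * (p.1 + p.2))) = Real.exp (-(2 * ε) * p.1) *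
      Real.exp (-(2 * ε) * p.2) := by
    rw [← Real.exp_add]; congr 1; push_cast; ring
  rw [this]
  ring

lemma dct_Tri {k : ℕ} {ε : ℝ} (hε : 0 < ε) {H : ℕ → ℝ × ℝ → ℝ} {H' : ℝ × ℝ → ℝ}
    (hc : ∀ n, ContinuousOn (H n) Sec)
    (hb : ∀ n, ∀ p ∈ Sec, |H n p| ≤ Real.exp (-ε * (p.1 + p.2)) ^ 2)
    (hl : ∀ p ∈ Sec, Tendsto (fun n => H n p) atTop (𝓝 (H' p))) :
    Tendsto (fun n : ℕ => ∫ p in Tri n, p.1 ^ (k + 1) * p.2 ^ (k + 1) * H n p) atTop
      (𝓝 (∫ p in Sec, p.1 ^ (k + 1) * p.2 ^ (k + 1) * H' p)) := by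
  have e : ∀ n : ℕ, ∫ p in Tri n, p.1 ^ (k + 1) * p.2 ^ (k + 1) * H n p =
      ∫ p in Sec, (Tri n).indicator (fun p : ℝ × ℝ => p.1 ^ (k + 1) * p.2 ^ (k + 1) * H n p) p := by
    intro n
    rw [setIntegral_indicator (measurableSet_Tri _),
      inter_eq_self_of_subset_right (Tri_subset_Sec _)]
  simp_rw [e]
  refine tendsto_integral_of_dominated_convergence
    (fun p : ℝ × ℝ => p.1 ^ (k + 1) * p.2 ^ (k + 1) * Real.exp (-ε * (p.1 + p.2)) ^ 2)
    (fun n => ?_) (integrableOn_dom k hε) (fun n => ?_) ?_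
  · refine AEStronglyMeasurable.indicator ?_ (measurableSet_Tri _)
    refine ContinuousOn.aestronglyMeasurable ?_ isOpen_Sec.measurableSet
    exact ContinuousOn.mul (by fun_prop) (hc n)
  · filter_upwards [self_mem_ae_restrict isOpen_Sec.measurableSet] with p hp
    have h1 : 0 < p.2 := hp.1
    have h2 : 0 < p.1 := hp.1.trans hp.2
    have hw : 0 ≤ p.1 ^ (k + 1) * p.2 ^ (k + 1) := by positivity
    by_cases h : p ∈ Tri n
    · rw [indicator_of_mem h, Real.norm_eq_abs, abs_mul, abs_of_nonneg hw]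
      exact mul_le_mul_of_nonneg_left (hb n p hp) hw
    · rw [indicator_of_notMem h, norm_zero]
      positivity
  · filter_upwards [self_mem_ae_restrict isOpen_Sec.measurableSet] with p hp
    refine ((tendsto_const_nhds (x := p.1 ^ (k + 1) * p.2 ^ (k + 1))).mul (hl p hp)).congr' ?_
    obtain ⟨N, hN⟩ := exists_nat_gt p.1
    filter_upwards [eventually_ge_atTop N] with n hn
    rw [indicator_of_mem]
    refine ⟨hp.1, hp.2, hN.trans_le ?_⟩
    exact_mod_cast hn

/-- Comparison principle. -/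
theorem comparison {k : ℕ} {κ : ℝ} {u us ut uss utt W Ws Wt Wss Wtt : ℝ → ℝ → ℝ}
    (hu : Sol2 (k + 2) u us ut uss utt) (hW : Sub2 (k + 2) κ W Ws Wt Wss Wtt)
    (hκ0 : 0 ≤ κ) (hκ : κ < 1) {s t : ℝ} (ht : 0 < t) (hts : t < s) : W s t ≤ u s t := by
  have hκ2 : 0 < 1 - κ ^ 2 := by nlinarith
  set ε := √(1 - κ ^ 2) / 2 with hεd
  have hε : 0 < ε := by have := Real.sqrt_pos.2 hκ2; positivity
  have hε2 : 2 * ε ^ 2 = (1 - κ ^ 2) / 2 := by
    rw [hεd, div_pow, Real.sq_sqrt hκ2.le]; ring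
  have cW := hW.cW
  have cu := hu.cu
  have hδ : ∀ n : ℕ, (0 : ℝ) < 1 / ((n : ℝ) + 1) := fun n => by positivity
  have lδ : Tendsto (fun n : ℕ => 1 / ((n : ℝ) + 1)) atTop (𝓝 0) :=
    tendsto_one_div_add_atTop_nhds_zero_nat
  have lg : Tendsto (fun n : ℕ => Real.exp (-ε * n)) atTop (𝓝 0) := by
    have h1 : Tendsto (fun n : ℕ => ε * (n : ℝ)) atTop atTop :=
      tendsto_natCast_atTop_atTop.const_mul_atTop hε
    have h2 := Real.tendsto_exp_neg_atTop_nhds_zero.comp h1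
    refine h2.congr fun n => ?_
    simp [Function.comp_apply]
  have hf : ∀ n : ℕ, ∀ p ∈ Sec, 0 ≤ max (W p.1 p.2 - (u p.1 p.2 + 1 / ((n : ℝ) + 1))) 0 ∧
      max (W p.1 p.2 - (u p.1 p.2 + 1 / ((n : ℝ) + 1))) 0 ≤ 1 := fun n p hp => by
    refine ⟨le_max_right _ _, max_le ?_ zero_le_one⟩
    have h1 := hW.le_one p.1 p.2 hp.1 hp.2
    have h2 := hu.pos p.1 p.2 hp.1 hp.2
    have := hδ n
    linarith
  have hφ : ∀ n : ℕ, ∀ p ∈ Sec, 0 ≤ max (Real.exp (-ε * (p.1 + p.2)) - Real.exp (-ε * n)) 0 ∧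
      max (Real.exp (-ε * (p.1 + p.2)) - Real.exp (-ε * n)) 0 ≤ Real.exp (-ε * (p.1 + p.2)) :=
    fun n p _ => by
    refine ⟨le_max_right _ _, max_le ?_ (Real.exp_pos _).le⟩
    have := Real.exp_pos (-ε * n)
    linarith
  have lf : ∀ p : ℝ × ℝ, Tendsto (fun n : ℕ => max (W p.1 p.2 - (u p.1 p.2 + 1 / ((n : ℝ) + 1))) 0)
      atTop (𝓝 (max (W p.1 p.2 - u p.1 p.2) 0)) := fun p => by
    have := ((tendsto_const_nhds (x := W p.1 p.2)).sub
      ((tendsto_const_nhds (x := u p.1 p.2)).add lδ)).max (tendsto_const_nhds (x := (0 : ℝ)))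
    rwa [add_zero] at this
  have lφ : ∀ p : ℝ × ℝ,
      Tendsto (fun n : ℕ => max (Real.exp (-ε * (p.1 + p.2)) - Real.exp (-ε * n)) 0)
      atTop (𝓝 (Real.exp (-ε * (p.1 + p.2)))) := fun p => by
    have := ((tendsto_const_nhds (x := Real.exp (-ε * (p.1 + p.2)))).sub lg).max
      (tendsto_const_nhds (x := (0 : ℝ)))
    rwa [sub_zero, max_eq_left (Real.exp_pos _).le] at this
  have L1 := dct_Tri (k := k) hε (H := fun n p =>
      max (W p.1 p.2 - (u p.1 p.2 + 1 / ((n : ℝ) + 1))) 0 ^ 2 *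
      max (Real.exp (-ε * (p.1 + p.2)) - Real.exp (-ε * n)) 0 ^ 2)
      (H' := fun p => max (W p.1 p.2 - u p.1 p.2) 0 ^ 2 * Real.exp (-ε * (p.1 + p.2)) ^ 2)
      (fun n => by fun_prop) (fun n p hp => by
        have h1 := hf n p hp
        have h2 := hφ n p hp
        rw [abs_of_nonneg (by positivity)]
        have h3 := pow_le_pow_left₀ h1.1 h1.2 2
        have h4 := pow_le_pow_left₀ h2.1 h2.2 2
        have := mul_le_mul h3 h4 (by positivity) (by norm_num)
        simpa using this) (fun p hp => ((lf p).pow 2).mul ((lφ p).pow 2))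
  have L2 := dct_Tri (k := k) hε (H := fun n p =>
      max (W p.1 p.2 - (u p.1 p.2 + 1 / ((n : ℝ) + 1))) 0 ^ 2 *
      Real.exp (-ε * (p.1 + p.2)) ^ 2)
      (H' := fun p => max (W p.1 p.2 - u p.1 p.2) 0 ^ 2 * Real.exp (-ε * (p.1 + p.2)) ^ 2)
      (fun n => by fun_prop) (fun n p hp => by
        have h1 := hf n p hp
        rw [abs_of_nonneg (by positivity)]
        have h3 := pow_le_pow_left₀ h1.1 h1.2 2
        have := mul_le_mul_of_nonneg_right h3 (sq_nonneg (Real.exp (-ε * (p.1 + p.2))))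
        simpa using this) (fun p hp => ((lf p).pow 2).mul tendsto_const_nhds)
  have L3 := dct_Tri (k := k) hε (H := fun n p =>
      max (W p.1 p.2 - (u p.1 p.2 + 1 / ((n : ℝ) + 1))) 0 ^ 2 *
      max (Real.exp (-ε * (p.1 + p.2)) - Real.exp (-ε * n)) 0 ^ 2 *
      (1 / ((n : ℝ) + 1) / (u p.1 p.2 + 1 / ((n : ℝ) + 1))))
      (H' := fun _ => 0)
      (fun n => by
        refine ContinuousOn.mul (by fun_prop) (continuousOn_const.div (by fun_prop) fun p hp => ?_)
        have := hu.pos p.1 p.2 hp.1 hp.2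
        have := hδ n
        positivity) (fun n p hp => by
        have h1 := hf n p hp
        have h2 := hφ n p hp
        have h5 := hu.pos p.1 p.2 hp.1 hp.2
        have h6 := hδ n
        rw [abs_of_nonneg (by positivity)]
        have h3 := pow_le_pow_left₀ h1.1 h1.2 2
        have h4 := pow_le_pow_left₀ h2.1 h2.2 2
        have h7 := mul_le_mul h3 h4 (by positivity) (by norm_num)
        have h8 : 1 / ((n : ℝ) + 1) / (u p.1 p.2 + 1 / ((n : ℝ) + 1)) ≤ 1 := by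
          rw [div_le_one (by positivity)]; linarith
        have := mul_le_mul h7 h8 (by positivity) (by positivity)
        simpa using this) (fun p hp => by
        have h5 := hu.pos p.1 p.2 hp.1 hp.2
        have h6 := (((lf p).pow 2).mul ((lφ p).pow 2)).mul
          (lδ.div ((tendsto_const_nhds (x := u p.1 p.2)).add lδ) (by rw [add_zero]; exact h5.ne'))
        simpa using h6)
  have step := fun n : ℕ => comp_step hu hW (R := n) (hδ n) hε
  have lim := le_of_tendsto_of_tendsto' (L1.const_mul (1 - κ ^ 2))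
    ((L2.const_mul (2 * ε ^ 2)).add L3) step
  simp only [mul_zero, integral_zero, add_zero] at lim
  rw [hε2] at lim
  set I := ∫ p in Sec, p.1 ^ (k + 1) * p.2 ^ (k + 1) *
    (max (W p.1 p.2 - u p.1 p.2) 0 ^ 2 * Real.exp (-ε * (p.1 + p.2)) ^ 2) with hI
  have hI0 : I ≤ 0 := by nlinarith
  have hnn : ∀ p ∈ Sec, 0 ≤ p.1 ^ (k + 1) * p.2 ^ (k + 1) *
    (max (W p.1 p.2 - u p.1 p.2) 0 ^ 2 * Real.exp (-ε * (p.1 + p.2)) ^ 2) := fun p hp => by
    have h1 : 0 < p.2 := hp.1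
    have h2 : 0 < p.1 := hp.1.trans hp.2
    positivity
  have hI1 : I = 0 := le_antisymm hI0 (setIntegral_nonneg isOpen_Sec.measurableSet hnn)
  have hint : IntegrableOn (fun p : ℝ × ℝ => p.1 ^ (k + 1) * p.2 ^ (k + 1) *
    (max (W p.1 p.2 - u p.1 p.2) 0 ^ 2 * Real.exp (-ε * (p.1 + p.2)) ^ 2)) Sec := by
    refine Integrable.mono' (integrableOn_dom k hε) ?_ ?_
    · exact ContinuousOn.aestronglyMeasurable (by fun_prop) isOpen_Sec.measurableSet
    · filter_upwards [self_mem_ae_restrict isOpen_Sec.measurableSet] with p hp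
      rw [Real.norm_eq_abs, abs_of_nonneg (hnn p hp)]
      have h1 : 0 < p.2 := hp.1
      have h2 : 0 < p.1 := hp.1.trans hp.2
      have hw : 0 ≤ p.1 ^ (k + 1) * p.2 ^ (k + 1) := by positivity
      refine mul_le_mul_of_nonneg_left ?_ hw
      have h3 : max (W p.1 p.2 - u p.1 p.2) 0 ^ 2 ≤ 1 ^ 2 := by
        refine pow_le_pow_left₀ (le_max_right _ _) (max_le ?_ zero_le_one) 2
        have h1 := hW.le_one p.1 p.2 hp.1 hp.2
        have h2 := hu.pos p.1 p.2 hp.1 hp.2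
        linarith
      have := mul_le_mul_of_nonneg_right h3 (sq_nonneg (Real.exp (-ε * (p.1 + p.2))))
      simpa using this
  have hae : (fun p : ℝ × ℝ => p.1 ^ (k + 1) * p.2 ^ (k + 1) *
      (max (W p.1 p.2 - u p.1 p.2) 0 ^ 2 * Real.exp (-ε * (p.1 + p.2)) ^ 2)) =ᵐ[volume.restrict Sec]
      fun _ => 0 := by
    refine (setIntegral_eq_zero_iff_of_nonneg_ae ?_ hint).1 hI1
    filter_upwards [self_mem_ae_restrict isOpen_Sec.measurableSet] with p hp
    exact hnn p hp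
  have heq := Measure.eqOn_open_of_ae_eq hae isOpen_Sec (by fun_prop) continuousOn_const
    (show ((s, t) : ℝ × ℝ) ∈ Sec from ⟨ht, hts⟩)
  simp only at heq
  have hs : 0 < s := ht.trans hts
  by_contra hcon
  push Not at hcon
  have h1 : max (W s t - u s t) 0 = W s t - u s t := max_eq_left (by linarith)
  rw [h1] at heq
  have h2 : 0 < W s t - u s t := by linarith
  have : 0 < s ^ (k + 1) * t ^ (k + 1) * ((W s t - u s t) ^ 2 * Real.exp (-ε * (s + t)) ^ 2) := by
    positivity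
  linarith

end

end Pool.Agent.Lib.MP_98c801_an
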