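import Mathlib
import Pool.Agent.Lib.MP_98c801_an.Good

/-!
The calibration inequality in integrated form.
-/

namespace Pool.Agent.Lib.MP_98c801_an

open Real Set MeasureTheory Filter Topology

noncomputable section

variable {c κ s t l : ℝ}

lemma Us_zero (h : s ^ 2 + t ^ 2 ≤ c) : Us c s t = 0 := by
  unfold Us U1 U2; rw [RR_zero h]; simp

lemma Ut_zero (h : s ^ 2 + t ^ 2 ≤ c) : Ut c s t = 0 := by
  unfold Ut U1 U2; rw [RR_zero h]; simp

lemma UU_zero (h : s ^ 2 + t ^ 2 ≤ c) : UU c s t = 0 := by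
  unfold UU U0; rw [RR_zero h]; simp

lemma hasDerivAt_UU_s' (h0 : 0 < s ^ 2 + t ^ 2) (h : s ^ 2 + t ^ 2 ≠ c) :
    HasDerivAt (fun s => UU c s t) (Us c s t) s := by
  rcases lt_or_gt_of_ne h with h | h
  · rw [Us_zero h.le]
    refine (hasDerivAt_const s (0 : ℝ)).congr_of_eventuallyEq ?_
    have : ∀ᶠ x in 𝓝 s, x ^ 2 + t ^ 2 < c :=
      (Continuous.tendsto (by fun_prop : Continuous fun x : ℝ => x ^ 2 + t ^ 2) s).eventually_lt
        tendsto_const_nhds h
    filter_upwards [this] with x hx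
    exact UU_zero hx.le
  · exact hasDerivAt_UU_s h0 h

lemma hasDerivAt_UU_t' (h0 : 0 < s ^ 2 + t ^ 2) (h : s ^ 2 + t ^ 2 ≠ c) :
    HasDerivAt (fun t => UU c s t) (Ut c s t) t := by
  rcases lt_or_gt_of_ne h with h | h
  · rw [Ut_zero h.le]
    refine (hasDerivAt_const t (0 : ℝ)).congr_of_eventuallyEq ?_
    have : ∀ᶠ x in 𝓝 t, s ^ 2 + x ^ 2 < c :=
      (Continuous.tendsto (by fun_prop : Continuous fun x : ℝ => s ^ 2 + x ^ 2) t).eventually_lt
        tendsto_const_nhds h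
    filter_upwards [this] with x hx
    exact UU_zero hx.le
  · exact hasDerivAt_UU_t h0 h

lemma MM_comm (κ s t : ℝ) : MM κ s t = MM κ t s := by unfold MM; rw [add_comm]

lemma M1_comm (κ s t : ℝ) : M1 κ s t = M1 κ t s := by unfold M1; rw [add_comm]

lemma hasDerivAt_MM_s (h0 : 0 < s ^ 2 + t ^ 2) (h : s ^ 2 + t ^ 2 ≠ κ) :
    HasDerivAt (fun s => MM κ s t) (s * M1 κ s t) s := by
  have hcont : Continuous fun x : ℝ => x ^ 2 + t ^ 2 := by fun_prop
  rcases lt_or_gt_of_ne h with h | h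
  · have : M1 κ s t = 0 := by unfold M1; rw [if_neg (not_lt.2 h.le)]
    rw [this, mul_zero]
    refine (hasDerivAt_const s (0 : ℝ)).congr_of_eventuallyEq ?_
    have h1 : ∀ᶠ x in 𝓝 s, x ^ 2 + t ^ 2 < κ :=
      (hcont.tendsto s).eventually_lt tendsto_const_nhds h
    have h2 : ∀ᶠ x in 𝓝 s, 0 < x ^ 2 + t ^ 2 :=
      Tendsto.eventually_lt tendsto_const_nhds (hcont.tendsto s) h0
    filter_upwards [h1, h2] with x hx hx2
    unfold MM
    refine max_eq_left ?_
    rw [sub_nonpos, le_div_iff₀ hx2]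
    linarith
  · have : M1 κ s t = 2 * κ / (s ^ 2 + t ^ 2) ^ 2 := by unfold M1; rw [if_pos h]
    rw [this]
    have d1 := (((hasDerivAt_sq_add s t).inv h0.ne').const_mul κ).const_sub 1
    refine (d1.congr_of_eventuallyEq ?_).congr_deriv ?_
    · have h1 : ∀ᶠ x in 𝓝 s, κ < x ^ 2 + t ^ 2 :=
        Tendsto.eventually_lt tendsto_const_nhds (hcont.tendsto s) h
      have h2 : ∀ᶠ x in 𝓝 s, 0 < x ^ 2 + t ^ 2 :=
        Tendsto.eventually_lt tendsto_const_nhds (hcont.tendsto s) h0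
      filter_upwards [h1, h2] with x hx hx2
      unfold MM
      simp only [Pi.inv_apply]
      rw [← div_eq_mul_inv]
      refine max_eq_right ?_
      rw [sub_nonneg, div_le_one hx2]
      exact hx.le
    · field_simp

lemma hasDerivAt_MM_t (h0 : 0 < s ^ 2 + t ^ 2) (h : s ^ 2 + t ^ 2 ≠ κ) :
    HasDerivAt (fun t => MM κ s t) (t * M1 κ s t) t := by
  have h1 := hasDerivAt_MM_s (κ := κ) (s := t) (t := s) (by linarith) (by rw [add_comm]; exact h)
  rw [M1_comm] at h1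
  exact h1.congr_of_eventuallyEq (Filter.Eventually.of_forall fun x => MM_comm κ s x)

lemma countable_sq (a b : ℝ) : {x : ℝ | x ^ 2 + b = a}.Countable := by
  refine Set.Countable.mono (s₂ := {√(a - b), -√(a - b)}) ?_ (Set.toFinite _).countable
  intro x hx
  have h1 : x ^ 2 + b = a := hx
  have h2 : x ^ 2 = √(a - b) ^ 2 := by
    rw [Real.sq_sqrt (by nlinarith [sq_nonneg x])]
    linarith
  rcases sq_eq_sq_iff_eq_or_eq_neg.1 h2 with h | h
  · left; exact h
  · right; exact h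

lemma continuous_nq : Continuous nq := by unfold nq; fun_prop

lemma continuous_AA : Continuous AA := by
  unfold AA
  exact Continuous.div (by fun_prop) continuous_nq fun q => (nq_pos q).ne'

lemma continuous_SS : Continuous SS := by
  unfold SS
  exact (Continuous.div (by fun_prop) (continuous_nq.pow 2) fun q =>
    pow_ne_zero 2 (nq_pos q).ne').sub (Continuous.mul (by fun_prop) continuous_AA)

lemma continuous_CC (l : ℝ) : Continuous (CC l) := by unfold CC; fun_prop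

lemma continuous_SC (l : ℝ) : Continuous (SC l) := by unfold SC CC; fun_prop

/-! ### goodness of the derivative of the field -/

lemma good_fld' {R : ℝ} {m : ℕ} (hm : 2 ≤ m) (ε l : ℝ) {Γ Γ' e e' : ℝ × ℝ → ℝ} (h1 : Good R Γ)
    (h2 : Good R Γ') (h3 : Good R e) (h4 : Good R e') :
    Good R (fun p => fld' m ε l (Γ p) (Γ' p) (e p) (e' p) p.2 p.1) := by
  have gA := good_q (R := R) continuous_AA
  have gS := good_q (R := R) continuous_SS
  have gC := good_q (R := R) (continuous_CC l)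
  have gT := good_q (R := R) (continuous_SC l)
  have gr := good_rr (R := R)
  have key := (good_w (R := R) hm).mul
    (((((Good.const (m : ℝ)).mul ((((Good.const ε).mul h1).mul (gA.mul gr)).add
      ((h3.pow 2).mul gC))).add (((Good.const ε).mul (good_s.mul h2)).mul (gA.mul gr))).add
      (((Good.const ε).mul h1).mul (gS.mul gr))).add
      ((((Good.const 2).mul h3).mul (good_s.mul h4)).mul gC) |>.add ((h3.pow 2).mul gT))
  refine key.congr fun p hp => ?_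
  have h0 : 0 < p.1 ^ 2 + p.2 ^ 2 := by
    have := hp.1
    positivity
  have hr := rr_pos h0
  unfold fld'
  field_simp

lemma good_fld'_swap {R : ℝ} {m : ℕ} (hm : 2 ≤ m) (ε l : ℝ) {Γ Γ' e e' : ℝ × ℝ → ℝ}
    (h1 : Good R Γ) (h2 : Good R Γ') (h3 : Good R e) (h4 : Good R e') :
    Good R (fun p => fld' m ε l (Γ p) (Γ' p) (e p) (e' p) p.1 p.2) := by
  have gA := good_q (R := R) (continuous_AA.comp continuous_neg)
  have gS := good_q (R := R) (continuous_SS.comp continuous_neg)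
  have gC := good_q (R := R) ((continuous_CC l).comp continuous_neg)
  have gT := good_q (R := R) ((continuous_SC l).comp continuous_neg)
  have gr := good_rr (R := R)
  have key := (good_w (R := R) hm).mul
    (((((Good.const (m : ℝ)).mul ((((Good.const ε).mul h1).mul (gA.mul gr)).add
      ((h3.pow 2).mul gC))).add (((Good.const ε).mul (good_t.mul h2)).mul (gA.mul gr))).add
      (((Good.const ε).mul h1).mul (gS.mul gr))).add
      ((((Good.const 2).mul h3).mul (good_t.mul h4)).mul gC) |>.add ((h3.pow 2).mul gT))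
  refine key.congr fun p hp => ?_
  have h0 : 0 < p.1 ^ 2 + p.2 ^ 2 := by
    have := hp.1
    positivity
  have hr := rr_pos h0
  unfold fld'
  rw [qq_swap p.1 p.2, rr_comm p.2 p.1]
  simp only [Function.comp_apply]
  field_simp

lemma good_Gt {R : ℝ} {U z M e : ℝ × ℝ → ℝ} (h1 : Good R U)
    (h2 : Good R z) (h3 : Good R M) (h4 : Good R e) :
    Good R (fun p => Gt (U p) (z p) (M p) (e p)) := by
  unfold Gt Gam
  have e1 := (((Good.const (√2)).mul h1).mul (((Good.const 1).sub h2).pow 2)).mul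
    ((h3.mul (Good.const (1 / 2))).add (((h1.pow 2).mul (Good.const (1 / 6))).mul
      ((Good.const 1).add ((Good.const 2).mul h2))))
  have e2 := (((Good.const (√2)).mul h1).mul h2).mul (h4.pow 2)
  refine (e1.add e2).congr fun p _ => ?_
  ring

lemma good_Gt' {R : ℝ} {U z M e U' z' M' e' : ℝ × ℝ → ℝ} (h1 : Good R U)
    (h2 : Good R z) (h3 : Good R M) (h4 : Good R e) (h5 : Good R U')
    (h6 : Good R z') (h7 : Good R M') (h8 : Good R e') :
    Good R (fun p => Gt' (U p) (z p) (M p) (e p) (U' p) (z' p) (M' p) (e' p)) := by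
  unfold Gt'
  have g1 := (Good.const (R := R) 1).sub h2
  have e1 := (((Good.const (√2)).mul (g1.pow 2)).mul
    ((h3.mul (Good.const (1 / 2))).add (((h1.pow 2).mul (Good.const (1 / 2))).mul
      ((Good.const 1).add ((Good.const 2).mul h2))))).mul h5
  have e2 := ((((Good.const (√2)).mul h1).mul g1).mul (h3.add ((h1.pow 2).mul h2))).neg.mul h6
  have e3 := ((((Good.const (√2)).mul h1).mul (g1.pow 2)).mul (Good.const (1 / 2))).mul h7
  have e4 := (((Good.const (√2)).mul h2).mul (h4.pow 2)).mul h5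
  have e5 := (((Good.const (√2)).mul h1).mul (h4.pow 2)).mul h6
  have e6 := (((((Good.const (2 * √2))).mul h1).mul h2).mul h4).mul h8
  refine (((e1.add e2).add e3).add ((e4.add e5).add e6)).congr fun p _ => ?_
  ring

/-! ### continuity of the field -/

lemma contF {m : ℕ} {ε : ℝ} {e z : ℝ → ℝ → ℝ} {S : Set (ℝ × ℝ)} (hS : S ⊆ Pun)
    (he : ContinuousOn (fun p : ℝ × ℝ => e p.1 p.2) S)
    (hz : ContinuousOn (fun p : ℝ × ℝ => z p.1 p.2) S) :
    ContinuousOn (fun p : ℝ × ℝ => fld m ε l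
      (fun s => Gt (UU c s p.2) (z s p.2) (MM κ s p.2) (e s p.2)) (fun s => e s p.2) p.2 p.1) S := by
  have hq := continuousOn_qq.mono hS
  have hA := continuous_AA.comp_continuousOn hq
  have hC := (continuous_CC l).comp_continuousOn hq
  have hU := (continuousOn_UU c).mono hS
  have hM := (continuousOn_MM κ).mono hS
  have hr := continuous_rr.continuousOn (s := S)
  have hr0 : ∀ p ∈ S, rr p.1 p.2 ≠ 0 := fun p hp => (rr_pos_of_mem (hS hp)).ne'
  have hr1 : ∀ p ∈ S, rr p.1 p.2 ^ 2 ≠ 0 := fun p hp => pow_ne_zero 2 (hr0 p hp)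
  have h1 := hA.div hr hr0
  have h2 := hC.div (hr.pow 2) hr1
  have h3 : ContinuousOn (fun p : ℝ × ℝ => Gt (UU c p.1 p.2) (z p.1 p.2) (MM κ p.1 p.2) (e p.1 p.2))
      S := by
    unfold Gt Gam
    fun_prop
  have h4 : ContinuousOn (fun p : ℝ × ℝ => p.1 ^ m * p.2 ^ (m - 1)) S := by fun_prop
  exact h4.mul (((continuousOn_const (c := ε)).mul h3 |>.mul h1).add ((he.pow 2).mul h2))

lemma contG {m : ℕ} {ε : ℝ} {e z : ℝ → ℝ → ℝ} {S : Set (ℝ × ℝ)} (hS : S ⊆ Pun)
    (he : ContinuousOn (fun p : ℝ × ℝ => e p.1 p.2) S)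
    (hz : ContinuousOn (fun p : ℝ × ℝ => z p.1 p.2) S) :
    ContinuousOn (fun p : ℝ × ℝ => fld m ε l
      (fun t => Gt (UU c p.1 t) (z p.1 t) (MM κ p.1 t) (e p.1 t)) (fun t => e p.1 t) p.1 p.2) S := by
  have hq := (continuousOn_qq.mono hS).neg
  have hA := continuous_AA.comp_continuousOn hq
  have hC := (continuous_CC l).comp_continuousOn hq
  have hU := (continuousOn_UU c).mono hS
  have hM := (continuousOn_MM κ).mono hS
  have hr := continuous_rr.continuousOn (s := S)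
  have hr0 : ∀ p ∈ S, rr p.1 p.2 ≠ 0 := fun p hp => (rr_pos_of_mem (hS hp)).ne'
  have hr1 : ∀ p ∈ S, rr p.1 p.2 ^ 2 ≠ 0 := fun p hp => pow_ne_zero 2 (hr0 p hp)
  have h1 := hA.div hr hr0
  have h2 := hC.div (hr.pow 2) hr1
  have h3 : ContinuousOn (fun p : ℝ × ℝ => Gt (UU c p.1 p.2) (z p.1 p.2) (MM κ p.1 p.2) (e p.1 p.2))
      S := by
    unfold Gt Gam
    fun_prop
  have h4 : ContinuousOn (fun p : ℝ × ℝ => p.2 ^ m * p.1 ^ (m - 1)) S := by fun_prop
  refine (h4.mul (((continuousOn_const (c := ε)).mul h3 |>.mul h1).add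
    ((he.pow 2).mul h2))).congr fun p _ => ?_
  simp only [fld]
  rw [qq_swap p.1 p.2, rr_comm p.2 p.1]
  rfl

/-- The calibration inequality. -/
theorem J_nonneg {m : ℕ} {R : ℝ} (hm : 5 ≤ m) (hc : c = 2 * m - 7 / 2)
    {e es et z zs zt : ℝ → ℝ → ℝ}
    (he : ContinuousOn (fun p : ℝ × ℝ => e p.1 p.2) (CTri R))
    (hes : ContinuousOn (fun p : ℝ × ℝ => es p.1 p.2) (CTri R))
    (het : ContinuousOn (fun p : ℝ × ℝ => et p.1 p.2) (CTri R))
    (hz : ContinuousOn (fun p : ℝ × ℝ => z p.1 p.2) (CTri R))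
    (hzs : ContinuousOn (fun p : ℝ × ℝ => zs p.1 p.2) (CTri R))
    (hzt : ContinuousOn (fun p : ℝ × ℝ => zt p.1 p.2) (CTri R))
    (de_s : ∀ s t, 0 < t → t < s → s < R → HasDerivAt (fun s => e s t) (es s t) s)
    (de_t : ∀ s t, 0 < t → t < s → s < R → HasDerivAt (fun t => e s t) (et s t) t)
    (dz_s : ∀ s t, 0 < t → t < s → s < R → HasDerivAt (fun s => z s t) (zs s t) s)
    (dz_t : ∀ s t, 0 < t → t < s → s < R → HasDerivAt (fun t => z s t) (zt s t) t)
    (z0 : ∀ s t, 0 < t → t < s → s < R → 0 ≤ z s t)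
    (eR : ∀ t, 0 < t → t < R → e R t = 0) (zR : ∀ t, 0 < t → t < R → z R t = 1) :
    0 ≤ ∫ p in Tri R, p.1 ^ (m - 1) * p.2 ^ (m - 1) * ((es p.1 p.2 ^ 2 + et p.1 p.2 ^ 2) +
      (3 * UU c p.1 p.2 ^ 2 * z p.1 p.2 ^ 2 - 1) * e p.1 p.2 ^ 2 + 1 / 2 * e p.1 p.2 ^ 4 +
      UU c p.1 p.2 ^ 2 * (zs p.1 p.2 ^ 2 + zt p.1 p.2 ^ 2) +
      1 / 2 * UU c p.1 p.2 ^ 4 * (z p.1 p.2 ^ 2 - 1) ^ 2) := by
  have hm' : (5 : ℝ) ≤ m := by exact_mod_cast hm
  have hm1 : 1 ≤ m := by omega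
  have hm2 : 2 ≤ m := by omega
  have hc0 : 0 < c := by rw [hc]; linarith
  obtain ⟨κ, hκ⟩ : ∃ κ, κ = (5 * (m : ℝ) ^ 2 + 2 * m - 70) / 9 := ⟨_, rfl⟩
  obtain ⟨l, hl⟩ : ∃ l, l = ((m : ℝ) + 2) / 3 := ⟨_, rfl⟩
  have hκ0 : 0 < κ := by rw [hκ]; nlinarith
  set F : ℝ → ℝ → ℝ := fun s t => fld m 1 l
    (fun s => Gt (UU c s t) (z s t) (MM κ s t) (e s t)) (fun s => e s t) t s with hF
  set G : ℝ → ℝ → ℝ := fun s t => fld m (-1) l
    (fun t => Gt (UU c s t) (z s t) (MM κ s t) (e s t)) (fun t => e s t) s t with hG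
  set F' : ℝ → ℝ → ℝ := fun s t => fld' m 1 l (Gt (UU c s t) (z s t) (MM κ s t) (e s t))
    (Gt' (UU c s t) (z s t) (MM κ s t) (e s t) (Us c s t) (zs s t) (s * M1 κ s t) (es s t))
    (e s t) (es s t) t s with hF'
  set G' : ℝ → ℝ → ℝ := fun s t => fld' m (-1) l (Gt (UU c s t) (z s t) (MM κ s t) (e s t))
    (Gt' (UU c s t) (z s t) (MM κ s t) (e s t) (Ut c s t) (zt s t) (t * M1 κ s t) (et s t))
    (e s t) (et s t) s t with hG'
  have gU := good_UU (R := R) hc0.le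
  have gUs := good_Us (R := R) hc0.le
  have gUt := good_Ut (R := R) hc0.le
  have gM := good_MM (R := R) hκ0.le
  have gM1 := good_M1 (R := R) hκ0
  have ge := Good.of_continuousOn he
  have ges := Good.of_continuousOn hes
  have get' := Good.of_continuousOn het
  have gz := Good.of_continuousOn hz
  have gzs := Good.of_continuousOn hzs
  have gzt := Good.of_continuousOn hzt
  have gGt := good_Gt gU gz gM ge
  have gGs := good_Gt' gU gz gM ge gUs gzs (good_s.mul gM1) ges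
  have gGt2 := good_Gt' gU gz gM ge gUt gzt (good_t.mul gM1) get'
  have gF : Good R (fun p => F' p.1 p.2) := good_fld' hm2 1 l gGt gGs ge ges
  have gG : Good R (fun p => G' p.1 p.2) := good_fld'_swap hm2 (-1) l gGt gGt2 ge get'
  have hS : CTri R ∩ {p | 0 < p.1} ⊆ Pun := fun p hp => by
    have h1 : 0 < p.1 := hp.2
    show 0 < p.1 ^ 2 + p.2 ^ 2
    positivity
  have hFcont := contF (c := c) (κ := κ) (l := l) (m := m) (ε := 1) hS
    (he.mono inter_subset_left) (hz.mono inter_subset_left)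
  have hGcont := contG (c := c) (κ := κ) (l := l) (m := m) (ε := -1) hS
    (he.mono inter_subset_left) (hz.mono inter_subset_left)
  have hibp : ∫ p in Tri R, (F' p.1 p.2 + G' p.1 p.2) = 0 := by
    refine ibp (F := F) (G := G) ?_ ?_ ?_ ?_ ?_ ?_ ?_ gF.integrableOn gG.integrableOn
    · intro t ht htR
      refine hFcont.comp (f := fun s : ℝ => ((s, t) : ℝ × ℝ)) (by fun_prop) fun s hs => ?_
      exact ⟨⟨ht.le, hs.1, hs.2⟩, ht.trans_le hs.1⟩
    · intro s hs hsR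
      refine hGcont.comp (f := fun t : ℝ => ((s, t) : ℝ × ℝ)) (by fun_prop) fun t ht => ?_
      exact ⟨⟨ht.1, ht.2, hsR.le⟩, hs⟩
    · intro t ht htR
      simp only [hF, fld, Gt, Gam, eR t ht htR, zR t ht htR]
      ring
    · intro s hs _
      simp only [hG, fld]
      rw [zero_pow (by omega)]
      ring
    · intro s hs _
      have hq : qq s s = 0 := by unfold qq; simp
      have hU : UU c s s = 0 := by unfold UU U0 yy; rw [hq]; simp
      simp only [hF, hG, fld, Gt, Gam, hU]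
      ring
    · intro t ht htR
      refine ⟨{x : ℝ | x ^ 2 + t ^ 2 = c} ∪ {x : ℝ | x ^ 2 + t ^ 2 = κ},
        (countable_sq _ _).union (countable_sq _ _), fun s hs => ?_⟩
      have hs1 : t < s := hs.1.1
      have hs2 : s < R := hs.1.2
      have hs0 : 0 < s := ht.trans hs1
      have h0 : 0 < s ^ 2 + t ^ 2 := by positivity
      have hn1 : s ^ 2 + t ^ 2 ≠ c := fun h => hs.2 (Or.inl h)
      have hn2 : s ^ 2 + t ^ 2 ≠ κ := fun h => hs.2 (Or.inr h)
      exact hasDerivAt_fld hm1 hs0 (hasDerivAt_Gt (hasDerivAt_UU_s' h0 hn1) (dz_s s t ht hs1 hs2)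
        (hasDerivAt_MM_s h0 hn2) (de_s s t ht hs1 hs2)) (de_s s t ht hs1 hs2)
    · intro s hs hsR
      refine ⟨{x : ℝ | x ^ 2 + s ^ 2 = c} ∪ {x : ℝ | x ^ 2 + s ^ 2 = κ},
        (countable_sq _ _).union (countable_sq _ _), fun t ht => ?_⟩
      have ht1 : 0 < t := ht.1.1
      have ht2 : t < s := ht.1.2
      have h0 : 0 < s ^ 2 + t ^ 2 := by positivity
      have hn1 : s ^ 2 + t ^ 2 ≠ c := fun h => ht.2 (Or.inl (by rw [← h]; exact add_comm _ _))
      have hn2 : s ^ 2 + t ^ 2 ≠ κ := fun h => ht.2 (Or.inr (by rw [← h]; exact add_comm _ _))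
      exact hasDerivAt_fld hm1 ht1 (hasDerivAt_Gt (hasDerivAt_UU_t' h0 hn1) (dz_t s t ht1 ht2 hsR)
        (hasDerivAt_MM_t h0 hn2) (de_t s t ht1 ht2 hsR)) (de_t s t ht1 ht2 hsR)
  have gI : Good R (fun p => p.1 ^ (m - 1) * p.2 ^ (m - 1) * ((es p.1 p.2 ^ 2 + et p.1 p.2 ^ 2) +
      (3 * UU c p.1 p.2 ^ 2 * z p.1 p.2 ^ 2 - 1) * e p.1 p.2 ^ 2 + 1 / 2 * e p.1 p.2 ^ 4 +
      UU c p.1 p.2 ^ 2 * (zs p.1 p.2 ^ 2 + zt p.1 p.2 ^ 2) +
      1 / 2 * UU c p.1 p.2 ^ 4 * (z p.1 p.2 ^ 2 - 1) ^ 2)) := by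
    exact ((good_s.pow _).mul (good_t.pow _)).mul
      ((((((ges.pow 2).add (get'.pow 2)).add
        (((((Good.const 3).mul (gU.pow 2)).mul (gz.pow 2)).sub (Good.const 1)).mul
          (ge.pow 2))).add ((Good.const (1 / 2)).mul (ge.pow 4))).add
        ((gU.pow 2).mul ((gzs.pow 2).add (gzt.pow 2)))).add
        (((Good.const (1 / 2)).mul (gU.pow 4)).mul (((gz.pow 2).sub (Good.const 1)).pow 2)))
  have hsum : ∫ p in Tri R, (p.1 ^ (m - 1) * p.2 ^ (m - 1) * ((es p.1 p.2 ^ 2 + et p.1 p.2 ^ 2) +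
      (3 * UU c p.1 p.2 ^ 2 * z p.1 p.2 ^ 2 - 1) * e p.1 p.2 ^ 2 + 1 / 2 * e p.1 p.2 ^ 4 +
      UU c p.1 p.2 ^ 2 * (zs p.1 p.2 ^ 2 + zt p.1 p.2 ^ 2) +
      1 / 2 * UU c p.1 p.2 ^ 4 * (z p.1 p.2 ^ 2 - 1) ^ 2) + (F' p.1 p.2 + G' p.1 p.2)) =
      ∫ p in Tri R, p.1 ^ (m - 1) * p.2 ^ (m - 1) * ((es p.1 p.2 ^ 2 + et p.1 p.2 ^ 2) +
      (3 * UU c p.1 p.2 ^ 2 * z p.1 p.2 ^ 2 - 1) * e p.1 p.2 ^ 2 + 1 / 2 * e p.1 p.2 ^ 4 +
      UU c p.1 p.2 ^ 2 * (zs p.1 p.2 ^ 2 + zt p.1 p.2 ^ 2) +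
      1 / 2 * UU c p.1 p.2 ^ 4 * (z p.1 p.2 ^ 2 - 1) ^ 2) := by
    rw [integral_add gI.integrableOn (gF.add gG).integrableOn, hibp, add_zero]
  rw [← hsum]
  refine setIntegral_nonneg (measurableSet_Tri R) fun p hp => ?_
  exact pointwise hm hl hc hκ hp.1 hp.2.1 (z0 _ _ hp.1 hp.2.1 hp.2.2)

end

end Pool.Agent.Lib.MP_98c801_an
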