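import Mathlib
import Pool.Agent.Lib.MP_98c801_an.Compare
import Pool.Agent.Lib.MP_98c801_an.JLemma

/-!
The explicit subsolution lies below the saddle-shaped solution.
-/

namespace Pool.Agent.Lib.MP_98c801_an

open Real Set MeasureTheory Filter Topology

noncomputable section

lemma continuous_UU {c : ℝ} (hc : 0 < c) : Continuous fun p : ℝ × ℝ => UU c p.1 p.2 := by
  rw [continuous_iff_continuousAt]
  intro p
  rcases eq_or_lt_of_le (show 0 ≤ p.1 ^ 2 + p.2 ^ 2 by positivity) with h | h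
  · have h1 : ∀ᶠ x : ℝ × ℝ in 𝓝 p, x.1 ^ 2 + x.2 ^ 2 < c := by
      have hcont : Continuous fun x : ℝ × ℝ => x.1 ^ 2 + x.2 ^ 2 := by fun_prop
      exact (hcont.tendsto p).eventually_lt tendsto_const_nhds (by rw [← h]; exact hc)
    refine (continuousAt_const (y := (0 : ℝ))).congr ?_
    filter_upwards [h1] with x hx
    exact (UU_zero hx.le).symm
  · have hopen : IsOpen Pun := isOpen_lt continuous_const (by fun_prop)
    exact (continuousOn_UU c).continuousAt (hopen.mem_nhds h)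

/-- the region where `U` is smooth -/
def Reg (c : ℝ) : Set (ℝ × ℝ) := {p | c < p.1 ^ 2 + p.2 ^ 2}

section reg

variable {c : ℝ}

lemma Reg_subset_Pun (hc : 0 < c) : Reg c ⊆ Pun := fun _ hp => hc.trans hp

lemma contReg_aux (hc : 0 < c) :
    ContinuousOn (fun p : ℝ × ℝ => qq p.1 p.2) (Reg c) ∧
    ContinuousOn (fun p : ℝ × ℝ => yy (qq p.1 p.2) (RR c p.1 p.2)) (Reg c) ∧
    ContinuousOn (fun p : ℝ × ℝ => Real.tanh (yy (qq p.1 p.2) (RR c p.1 p.2))) (Reg c) ∧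
    (∀ p ∈ Reg c, rr p.1 p.2 ≠ 0) ∧ (∀ p ∈ Reg c, RR c p.1 p.2 ≠ 0) := by
  have h1 := Reg_subset_Pun hc
  refine ⟨continuousOn_qq.mono h1, ?_, (continuousOn_tanh c).mono h1, ?_, ?_⟩
  · exact (continuous_yy.comp_continuousOn (continuousOn_qq.prodMk
      (continuous_RR c).continuousOn)).mono h1
  · exact fun p hp => (rr_pos_of_mem (h1 hp)).ne'
  · exact fun p hp => (RR_pos hp).ne'

lemma contReg_U1 (hc : 0 < c) :
    ContinuousOn (fun p : ℝ × ℝ => U1 c (rr p.1 p.2) (qq p.1 p.2) (RR c p.1 p.2)) (Reg c) := by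
  obtain ⟨hq, hy, ht, hr, hR⟩ := contReg_aux hc
  have cr := continuous_rr.continuousOn (s := Reg c)
  have cR := (continuous_RR c).continuousOn (s := Reg c)
  unfold U1
  refine ContinuousOn.div (ContinuousOn.add (ContinuousOn.div (by fun_prop) (by fun_prop) ?_)
    (by fun_prop)) (by fun_prop) ?_
  · exact fun p hp => pow_ne_zero 2 (hr p hp)
  · exact fun p hp => mul_ne_zero (hR p hp) (hr p hp)

lemma contReg_U2 (hc : 0 < c) :
    ContinuousOn (fun p : ℝ × ℝ => U2 (rr p.1 p.2) (qq p.1 p.2) (RR c p.1 p.2)) (Reg c) := by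
  obtain ⟨hq, hy, ht, hr, hR⟩ := contReg_aux hc
  have cr := continuous_rr.continuousOn (s := Reg c)
  have cR := (continuous_RR c).continuousOn (s := Reg c)
  unfold U2
  refine ContinuousOn.div (by fun_prop) (by fun_prop) ?_
  exact fun p hp => mul_ne_zero sqrt2_pos.ne' (hr p hp)

lemma contReg_U1r (hc : 0 < c) :
    ContinuousOn (fun p : ℝ × ℝ => U1r c (rr p.1 p.2) (qq p.1 p.2) (RR c p.1 p.2)) (Reg c) := by
  obtain ⟨hq, hy, ht, hr, hR⟩ := contReg_aux hc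
  have cr := continuous_rr.continuousOn (s := Reg c)
  have cR := (continuous_RR c).continuousOn (s := Reg c)
  unfold U1r
  have f1 : ∀ p ∈ Reg c, RR c p.1 p.2 ^ 3 * rr p.1 p.2 ^ 2 ≠ 0 := fun p hp =>
    mul_ne_zero (pow_ne_zero 3 (hR p hp)) (pow_ne_zero 2 (hr p hp))
  have f2 : ∀ p ∈ Reg c, RR c p.1 p.2 * rr p.1 p.2 ^ 4 ≠ 0 := fun p hp =>
    mul_ne_zero (hR p hp) (pow_ne_zero 4 (hr p hp))
  have f3 : ∀ p ∈ Reg c, RR c p.1 p.2 ^ 2 ≠ 0 := fun p hp => pow_ne_zero 2 (hR p hp)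
  have f4 : ∀ p ∈ Reg c, rr p.1 p.2 ^ 2 ≠ 0 := fun p hp => pow_ne_zero 2 (hr p hp)
  exact (continuousOn_const.mul ((ContinuousOn.div (by fun_prop) (by fun_prop) f1).sub
    (ContinuousOn.div (by fun_prop) (by fun_prop) f2))).sub
    (((ContinuousOn.div (by fun_prop) (by fun_prop) hR).mul (by fun_prop)).mul
    ((ContinuousOn.div (by fun_prop) (by fun_prop) f3).add
      (ContinuousOn.div (by fun_prop) (by fun_prop) f4)))

lemma contReg_U1q (hc : 0 < c) :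
    ContinuousOn (fun p : ℝ × ℝ => U1q c (rr p.1 p.2) (qq p.1 p.2) (RR c p.1 p.2)) (Reg c) := by
  obtain ⟨hq, hy, ht, hr, hR⟩ := contReg_aux hc
  have cr := continuous_rr.continuousOn (s := Reg c)
  have cR := (continuous_RR c).continuousOn (s := Reg c)
  unfold U1q
  exact (ContinuousOn.div (by fun_prop) (by fun_prop) fun p hp =>
      mul_ne_zero sqrt2_pos.ne' (pow_ne_zero 3 (hr p hp))).add
    (ContinuousOn.div (by fun_prop) (by fun_prop) fun p hp =>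
      mul_ne_zero sqrt2_pos.ne' (hr p hp))

lemma contReg_U2r (hc : 0 < c) :
    ContinuousOn (fun p : ℝ × ℝ => U2r (rr p.1 p.2) (qq p.1 p.2) (RR c p.1 p.2)) (Reg c) := by
  obtain ⟨hq, hy, ht, hr, hR⟩ := contReg_aux hc
  have cr := continuous_rr.continuousOn (s := Reg c)
  have cR := (continuous_RR c).continuousOn (s := Reg c)
  unfold U2r
  exact ((ContinuousOn.div (by fun_prop) (by fun_prop) fun p hp => sqrt2_pos.ne').mul
    (by fun_prop)).mul (ContinuousOn.sub (by fun_prop)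
      (ContinuousOn.div (by fun_prop) (by fun_prop) fun p hp => pow_ne_zero 2 (hr p hp)))

lemma contReg_U2q (hc : 0 < c) :
    ContinuousOn (fun p : ℝ × ℝ => U2q (rr p.1 p.2) (qq p.1 p.2) (RR c p.1 p.2)) (Reg c) := by
  obtain ⟨hq, hy, ht, hr, hR⟩ := contReg_aux hc
  have cr := continuous_rr.continuousOn (s := Reg c)
  have cR := (continuous_RR c).continuousOn (s := Reg c)
  unfold U2q
  exact ((ContinuousOn.div (by fun_prop) (by fun_prop) fun p hp =>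
      mul_ne_zero sqrt2_pos.ne' (hr p hp)).mul (by fun_prop)).mul
    (ContinuousOn.sub (by fun_prop) (ContinuousOn.mul (ContinuousOn.mul (by fun_prop)
      (ContinuousOn.div (by fun_prop) (by fun_prop) fun p hp => sqrt2_pos.ne')) (by fun_prop)))

lemma contReg_Us (hc : 0 < c) : ContinuousOn (fun p : ℝ × ℝ => Us c p.1 p.2) (Reg c) := by
  have h1 := contReg_U1 hc
  have h2 := contReg_U2 hc
  have hr := (contReg_aux hc).2.2.2.1
  have cr := continuous_rr.continuousOn (s := Reg c)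
  unfold Us
  exact ContinuousOn.add (by fun_prop) ((ContinuousOn.div (by fun_prop) (by fun_prop) fun p hp =>
    pow_ne_zero 4 (hr p hp)).mul h2)

lemma contReg_Ut (hc : 0 < c) : ContinuousOn (fun p : ℝ × ℝ => Ut c p.1 p.2) (Reg c) := by
  have h1 := contReg_U1 hc
  have h2 := contReg_U2 hc
  have hr := (contReg_aux hc).2.2.2.1
  have cr := continuous_rr.continuousOn (s := Reg c)
  unfold Ut
  exact ContinuousOn.sub (by fun_prop) ((ContinuousOn.div (by fun_prop) (by fun_prop) fun p hp =>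
    pow_ne_zero 4 (hr p hp)).mul h2)

lemma contReg_Uss (hc : 0 < c) : ContinuousOn (fun p : ℝ × ℝ => Uss c p.1 p.2) (Reg c) := by
  have h1 := contReg_U1 hc
  have h2 := contReg_U2 hc
  have h3 := contReg_U1r hc
  have h4 := contReg_U1q hc
  have h5 := contReg_U2r hc
  have h6 := contReg_U2q hc
  have hr := (contReg_aux hc).2.2.2.1
  have cr := continuous_rr.continuousOn (s := Reg c)
  have d1 : ContinuousOn (fun p : ℝ × ℝ => p.1 / rr p.1 p.2) (Reg c) :=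
    ContinuousOn.div (by fun_prop) (by fun_prop) hr
  have d2 : ContinuousOn (fun p : ℝ × ℝ => 2 * p.1 * p.2 ^ 2 / rr p.1 p.2 ^ 4) (Reg c) :=
    ContinuousOn.div (by fun_prop) (by fun_prop) fun p hp => pow_ne_zero 4 (hr p hp)
  have d3 : ContinuousOn (fun p : ℝ × ℝ => 2 * p.2 ^ 2 / rr p.1 p.2 ^ 4 -
      8 * p.1 ^ 2 * p.2 ^ 2 / rr p.1 p.2 ^ 6) (Reg c) :=
    (ContinuousOn.div (by fun_prop) (by fun_prop) fun p hp => pow_ne_zero 4 (hr p hp)).sub
    (ContinuousOn.div (by fun_prop) (by fun_prop) fun p hp => pow_ne_zero 6 (hr p hp))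
  unfold Uss
  exact ((h1.add (continuousOn_fst.mul ((h3.mul d1).add (h4.mul d2)))).add (d3.mul h2)).add
    (d2.mul ((h5.mul d1).add (h6.mul d2)))

lemma contReg_Utt (hc : 0 < c) : ContinuousOn (fun p : ℝ × ℝ => Utt c p.1 p.2) (Reg c) := by
  have h1 := contReg_U1 hc
  have h2 := contReg_U2 hc
  have h3 := contReg_U1r hc
  have h4 := contReg_U1q hc
  have h5 := contReg_U2r hc
  have h6 := contReg_U2q hc
  have hr := (contReg_aux hc).2.2.2.1
  have cr := continuous_rr.continuousOn (s := Reg c)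
  have d1 : ContinuousOn (fun p : ℝ × ℝ => p.2 / rr p.1 p.2) (Reg c) :=
    ContinuousOn.div (by fun_prop) (by fun_prop) hr
  have d2 : ContinuousOn (fun p : ℝ × ℝ => -(2 * p.1 ^ 2 * p.2) / rr p.1 p.2 ^ 4) (Reg c) :=
    ContinuousOn.div (by fun_prop) (by fun_prop) fun p hp => pow_ne_zero 4 (hr p hp)
  have d2' : ContinuousOn (fun p : ℝ × ℝ => 2 * p.1 ^ 2 * p.2 / rr p.1 p.2 ^ 4) (Reg c) :=
    ContinuousOn.div (by fun_prop) (by fun_prop) fun p hp => pow_ne_zero 4 (hr p hp)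
  have d3 : ContinuousOn (fun p : ℝ × ℝ => 2 * p.1 ^ 2 / rr p.1 p.2 ^ 4 -
      8 * p.1 ^ 2 * p.2 ^ 2 / rr p.1 p.2 ^ 6) (Reg c) :=
    (ContinuousOn.div (by fun_prop) (by fun_prop) fun p hp => pow_ne_zero 4 (hr p hp)).sub
    (ContinuousOn.div (by fun_prop) (by fun_prop) fun p hp => pow_ne_zero 6 (hr p hp))
  unfold Utt
  exact ((h1.add (continuousOn_snd.mul ((h3.mul d1).add (h4.mul d2)))).sub (d3.mul h2)).sub
    (d2'.mul ((h5.mul d1).add (h6.mul d2)))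

end reg

lemma comp_scale (g : ℝ → ℝ → ℝ) {κ a : ℝ} {S T : Set (ℝ × ℝ)}
    (hg : ContinuousOn (fun p : ℝ × ℝ => g p.1 p.2) T)
    (hmap : MapsTo (fun p : ℝ × ℝ => ((κ * p.1, κ * p.2) : ℝ × ℝ)) S T) :
    ContinuousOn (fun p : ℝ × ℝ => a * g (κ * p.1) (κ * p.2)) S := by
  have hcm : ContinuousOn (fun p : ℝ × ℝ => ((κ * p.1, κ * p.2) : ℝ × ℝ)) S := by fun_prop
  exact continuousOn_const.mul (hg.comp hcm hmap)

lemma deriv_scale (f : ℝ → ℝ) {f' κ a b x : ℝ} (hf : HasDerivAt f f' (κ * x)) (hb : b = a * κ) :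
    HasDerivAt (fun x => a * f (κ * x)) (b * f') x := by
  have h1 : HasDerivAt (fun x => κ * x) κ x := by simpa using (hasDerivAt_id x).const_mul κ
  have := (HasDerivAt.comp x hf h1).const_mul a
  refine this.congr_deriv ?_
  rw [hb]
  ring

/-- The rescaled explicit function is a subsolution. -/
lemma sub2_UU {k : ℕ} {c κ : ℝ} (hm : 5 ≤ k + 2) (hc : c = 2 * ((k + 2 : ℕ) : ℝ) - 7 / 2)
    (hκ0 : 0 < κ) (hκ1 : κ ≤ 1) :
    Sub2 (k + 2) κ (fun s t => κ * UU c (κ * s) (κ * t)) (fun s t => κ ^ 2 * Us c (κ * s) (κ * t))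
      (fun s t => κ ^ 2 * Ut c (κ * s) (κ * t)) (fun s t => κ ^ 3 * Uss c (κ * s) (κ * t))
      (fun s t => κ ^ 3 * Utt c (κ * s) (κ * t)) := by
  have hm' : (5 : ℝ) ≤ ((k + 2 : ℕ) : ℝ) := by exact_mod_cast hm
  have hc0 : 0 < c := by rw [hc]; linarith
  have hpos : ∀ s t : ℝ, 0 < κ * UU c (κ * s) (κ * t) → c < (κ * s) ^ 2 + (κ * t) ^ 2 := by
    intro s t h
    by_contra hcon
    push Not at hcon
    rw [UU_zero hcon, mul_zero] at h
    exact lt_irrefl _ h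
  have hmap : MapsTo (fun p : ℝ × ℝ => ((κ * p.1, κ * p.2) : ℝ × ℝ))
      (PP fun s t => κ * UU c (κ * s) (κ * t)) (Reg c) := fun p hp => hpos p.1 p.2 hp.2.2
  constructor
  · have h1 : Continuous fun p : ℝ × ℝ => ((κ * p.1, κ * p.2) : ℝ × ℝ) := by fun_prop
    exact continuous_const.mul ((continuous_UU hc0).comp h1)
  · exact comp_scale (Us c) (contReg_Us hc0) hmap
  · exact comp_scale (Ut c) (contReg_Ut hc0) hmap
  · exact comp_scale (Uss c) (contReg_Uss hc0) hmap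
  · exact comp_scale (Utt c) (contReg_Utt hc0) hmap
  · intro s t ht hts h
    have h1 := hpos s t h
    exact deriv_scale (fun x => UU c x (κ * t)) (hasDerivAt_UU_s (hc0.trans h1) h1) (by ring)
  · intro s t ht hts h
    have h1 := hpos s t h
    exact deriv_scale (fun x => UU c (κ * s) x) (hasDerivAt_UU_t (hc0.trans h1) h1) (by ring)
  · intro s t ht hts h
    have h1 := hpos s t h
    exact deriv_scale (fun x => Us c x (κ * t)) (hasDerivAt_Us (hc0.trans h1) h1) (by ring)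
  · intro s t ht hts h
    have h1 := hpos s t h
    exact deriv_scale (fun x => Ut c (κ * s) x) (hasDerivAt_Ut (hc0.trans h1) h1) (by ring)
  · intro s t ht hts h
    have h1 := hpos s t h
    have hs : 0 < s := ht.trans hts
    have key := UU_pde (c := c) (s := κ * s) (t := κ * t) hm' hc (by positivity)
      (mul_lt_mul_of_pos_left hts hκ0) h1
    have e : κ ^ 3 * Uss c (κ * s) (κ * t) + κ ^ 3 * Utt c (κ * s) (κ * t) +
        (((k + 2 : ℕ) : ℝ) - 1) * (κ ^ 2 * Us c (κ * s) (κ * t) / s +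
          κ ^ 2 * Ut c (κ * s) (κ * t) / t) +
        κ ^ 2 * (κ * UU c (κ * s) (κ * t)) - (κ * UU c (κ * s) (κ * t)) ^ 3 =
        κ ^ 3 * (Uss c (κ * s) (κ * t) + Utt c (κ * s) (κ * t) +
        (((k + 2 : ℕ) : ℝ) - 1) * (Us c (κ * s) (κ * t) / (κ * s) +
          Ut c (κ * s) (κ * t) / (κ * t)) +
        UU c (κ * s) (κ * t) - UU c (κ * s) (κ * t) ^ 3) := by
      field_simp
    rw [e]
    positivity
  · intro s
    have hq : qq (κ * s) (κ * s) = 0 := by unfold qq; simp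
    have hU : UU c (κ * s) (κ * s) = 0 := by unfold UU U0 yy; rw [hq]; simp
    rw [hU, mul_zero]
  · intro s t ht hts
    have h1 := UU_le_one (c := c) (s := κ * s) (t := κ * t) hc0.le (by positivity)
      (mul_lt_mul_of_pos_left hts hκ0)
    have h2 := UU_nonneg (c := c) (s := κ * s) (t := κ * t) (by positivity)
      (mul_lt_mul_of_pos_left hts hκ0).le
    nlinarith

/-- `U ≤ u` in the sector. -/
theorem UU_le {m : ℕ} {c : ℝ} {u us ut uss utt : ℝ → ℝ → ℝ} (hm : 5 ≤ m)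
    (hc : c = 2 * (m : ℝ) - 7 / 2) (hu : Sol2 m u us ut uss utt) {s t : ℝ} (ht : 0 < t)
    (hts : t < s) : UU c s t ≤ u s t := by
  obtain ⟨k, rfl⟩ : ∃ k, m = k + 2 := ⟨m - 2, by omega⟩
  have hm' : (5 : ℝ) ≤ ((k + 2 : ℕ) : ℝ) := by exact_mod_cast hm
  have hc0 : 0 < c := by rw [hc]; linarith
  have hlim : Tendsto (fun κ : ℝ => κ * UU c (κ * s) (κ * t)) (𝓝[<] 1) (𝓝 (UU c s t)) := by
    have h1 : Continuous fun κ : ℝ => κ * UU c (κ * s) (κ * t) :=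
      continuous_id.mul ((continuous_UU hc0).comp
        (by fun_prop : Continuous fun κ : ℝ => ((κ * s, κ * t) : ℝ × ℝ)))
    have h2 := h1.tendsto 1
    simp only [one_mul] at h2
    exact h2.mono_left nhdsWithin_le_nhds
  refine le_of_tendsto hlim ?_
  have h0 : ∀ᶠ κ : ℝ in 𝓝[<] 1, 0 < κ :=
    mem_nhdsWithin_of_mem_nhds (lt_mem_nhds one_pos)
  filter_upwards [h0, self_mem_nhdsWithin] with κ hκ0 hκ1
  exact comparison hu (sub2_UU hm hc hκ0 (le_of_lt hκ1)) hκ0.le hκ1 ht hts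

end

end Pool.Agent.Lib.MP_98c801_an

/-!
The energy inequality on the triangle.
-/

namespace Pool.Agent.Lib.MP_98c801_an

open Real Set MeasureTheory Filter Topology

noncomputable section

/-- smoothed absolute value, normalised to be `1` at `1` -/
def zz (δ ζ : ℝ) : ℝ := √(ζ ^ 2 + δ ^ 2) + 1 - √(1 + δ ^ 2)

lemma zz_one (δ : ℝ) : zz δ 1 = 1 := by unfold zz; simp

lemma sqrt_add_sq_le {a δ : ℝ} (hδ : 0 ≤ δ) : √(a ^ 2 + δ ^ 2) ≤ |a| + δ := by
  refine Real.sqrt_le_iff.2 ⟨by positivity, ?_⟩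
  have := abs_nonneg a
  nlinarith [sq_abs a]

lemma abs_le_sqrt_add_sq {a δ : ℝ} : |a| ≤ √(a ^ 2 + δ ^ 2) := by
  refine Real.le_sqrt_of_sq_le ?_
  rw [sq_abs]
  nlinarith [sq_nonneg δ]

lemma zz_le {δ ζ : ℝ} (hδ : 0 ≤ δ) : zz δ ζ ≤ |ζ| + δ := by
  have h1 := sqrt_add_sq_le (a := ζ) hδ
  have h2 := abs_le_sqrt_add_sq (a := 1) (δ := δ)
  rw [abs_one] at h2
  unfold zz
  rw [one_pow] at h2
  linarith

lemma le_zz {δ ζ : ℝ} (hδ : 0 ≤ δ) : |ζ| - δ ≤ zz δ ζ := by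
  have h1 := abs_le_sqrt_add_sq (a := ζ) (δ := δ)
  have h2 := sqrt_add_sq_le (a := 1) hδ
  rw [abs_one, one_pow] at h2
  unfold zz
  linarith

lemma zz_nonneg {δ ζ : ℝ} (hδ : 0 ≤ δ) : 0 ≤ zz δ ζ := by
  have h1 : δ ≤ √(ζ ^ 2 + δ ^ 2) := Real.le_sqrt_of_sq_le (by nlinarith [sq_nonneg ζ])
  have h2 := sqrt_add_sq_le (a := 1) hδ
  rw [abs_one, one_pow] at h2
  unfold zz
  linarith

lemma hasDerivAt_zz {δ : ℝ} (hδ : 0 < δ) {ζ : ℝ → ℝ} {ζ' x : ℝ} (h : HasDerivAt ζ ζ' x) :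
    HasDerivAt (fun x => zz δ (ζ x)) (ζ x * ζ' / √(ζ x ^ 2 + δ ^ 2)) x := by
  have hpos : 0 < ζ x ^ 2 + δ ^ 2 := by positivity
  have h1 := ((((h.pow 2).add_const (δ ^ 2)).sqrt hpos.ne').add_const 1).sub_const (√(1 + δ ^ 2))
  refine h1.congr_deriv ?_
  simp only [Nat.cast_ofNat, Nat.add_one_sub_one, pow_one, Pi.pow_apply]
  have := Real.sqrt_pos.2 hpos
  field_simp

/-- algebra: comparing the calibrated integrand with the true one -/
lemma core_alg {A U u o e δ ζ z : ℝ} (hA : 1 ≤ A) (hδ0 : 0 < δ) (hδ1 : δ ≤ 1) (hu : 0 ≤ u)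
    (huA : u ≤ A) (ho : |o| ≤ A) (he : |e| ≤ A) (hU0 : 0 ≤ U) (hU : U ≤ u)
    (hζ : ζ * (u + δ) = o + δ) (hz0 : 0 ≤ z) (hz1 : z ≤ |ζ| + δ) (hz2 : |ζ| - δ ≤ z) :
    3 * U ^ 2 * z ^ 2 * e ^ 2 + 1 / 2 * U ^ 4 * (z ^ 2 - 1) ^ 2 ≤
      3 * o ^ 2 * e ^ 2 + 1 / 2 * (o ^ 2 - u ^ 2) ^ 2 + 200 * A ^ 4 * δ := by
  have hp : 0 < u + δ := by linarith
  set p := u + δ with hpd
  set Z := p * z with hZ
  have hZ0 : 0 ≤ Z := by positivity
  have hpA : p ≤ 2 * A := by linarith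
  have h1 : |ζ| * p = |o + δ| := by rw [← hζ, abs_mul, abs_of_pos hp]
  have h2 : Z ≤ |o + δ| + 2 * A * δ := by
    have := mul_le_mul_of_nonneg_left hz1 hp.le
    have h3 := mul_le_mul_of_nonneg_right hpA hδ0.le
    rw [hZ]
    nlinarith
  have h2' : |o + δ| - 2 * A * δ ≤ Z := by
    have := mul_le_mul_of_nonneg_left hz2 hp.le
    have h3 := mul_le_mul_of_nonneg_right hpA hδ0.le
    rw [hZ]
    nlinarith
  have h3 : |o + δ| ≤ |o| + δ := (abs_add_le o δ).trans (by rw [abs_of_pos hδ0])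
  have h3' : |o| - δ ≤ |o + δ| := by
    have := abs_sub_abs_le_abs_sub o (-δ)
    rw [abs_neg, abs_of_pos hδ0, sub_neg_eq_add] at this
    exact this
  have hAδ : δ ≤ A * δ := by nlinarith
  have h4 : Z ≤ |o| + 3 * A * δ := by linarith
  have h4' : |o| - 3 * A * δ ≤ Z := by linarith
  have hAd1 : A * δ ≤ A := by nlinarith
  have ho0 := abs_nonneg o
  have hZA : Z ≤ 4 * A := by linarith
  -- |o² - Z²| ≤ 15 A² δ
  have hsq : o ^ 2 = |o| ^ 2 := (sq_abs o).symm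
  have h5 : Z ^ 2 - o ^ 2 ≤ 15 * A ^ 2 * δ := by
    rw [hsq]
    have : Z ^ 2 - |o| ^ 2 = (Z - |o|) * (Z + |o|) := by ring
    rw [this]
    have hs : Z + |o| ≤ 5 * A := by linarith
    have hs0 : 0 ≤ Z + |o| := by linarith
    calc (Z - |o|) * (Z + |o|) ≤ (3 * A * δ) * (Z + |o|) :=
          mul_le_mul_of_nonneg_right (by linarith) hs0
      _ ≤ (3 * A * δ) * (5 * A) := mul_le_mul_of_nonneg_left hs (by positivity)
      _ = 15 * A ^ 2 * δ := by ring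
  have h5' : o ^ 2 - Z ^ 2 ≤ 15 * A ^ 2 * δ := by
    rw [hsq]
    have : |o| ^ 2 - Z ^ 2 = (|o| - Z) * (Z + |o|) := by ring
    rw [this]
    have hs : Z + |o| ≤ 5 * A := by linarith
    have hs0 : 0 ≤ Z + |o| := by linarith
    calc (|o| - Z) * (Z + |o|) ≤ (3 * A * δ) * (Z + |o|) :=
          mul_le_mul_of_nonneg_right (by linarith) hs0
      _ ≤ (3 * A * δ) * (5 * A) := mul_le_mul_of_nonneg_left hs (by positivity)
      _ = 15 * A ^ 2 * δ := by ring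
  have h6 : p ^ 2 - u ^ 2 ≤ 3 * A ^ 2 * δ := by
    have : p ^ 2 - u ^ 2 = δ * (2 * u + δ) := by rw [hpd]; ring
    rw [this]
    have : 2 * u + δ ≤ 3 * A ^ 2 := by nlinarith
    nlinarith
  have h6' : 0 ≤ p ^ 2 - u ^ 2 := by
    have : p ^ 2 - u ^ 2 = δ * (2 * u + δ) := by rw [hpd]; ring
    rw [this]
    positivity
  -- a, b
  set a := o ^ 2 - u ^ 2 with ha
  set b := Z ^ 2 - p ^ 2 with hb
  have hA2δ : 0 ≤ A ^ 2 * δ := by positivity
  have hab1 : b - a ≤ 18 * A ^ 2 * δ := by rw [ha, hb]; linarith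
  have hab2 : a - b ≤ 18 * A ^ 2 * δ := by rw [ha, hb]; linarith
  have hu20 := sq_nonneg u
  have hp20 := sq_nonneg p
  have ho20 := sq_nonneg o
  have hZ20 := sq_nonneg Z
  have ho2 : o ^ 2 ≤ A ^ 2 := by rw [hsq]; exact pow_le_pow_left₀ ho0 ho 2
  have hu2 : u ^ 2 ≤ A ^ 2 := pow_le_pow_left₀ hu huA 2
  have hZ2 : Z ^ 2 ≤ 16 * A ^ 2 := by
    have := pow_le_pow_left₀ hZ0 hZA 2
    linarith [this, (by ring : (4 * A) ^ 2 = 16 * A ^ 2)]
  have hp2 : p ^ 2 ≤ 4 * A ^ 2 := by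
    have := pow_le_pow_left₀ hp.le hpA 2
    linarith [this, (by ring : (2 * A) ^ 2 = 4 * A ^ 2)]
  have hA20 := sq_nonneg A
  have hsum1 : a + b ≤ 17 * A ^ 2 := by rw [ha, hb]; linarith
  have hsum2 : -(17 * A ^ 2) ≤ a + b := by rw [ha, hb]; linarith
  have h7 : b ^ 2 - a ^ 2 ≤ 306 * A ^ 4 * δ := by
    have e1 : b ^ 2 - a ^ 2 = (b - a) * (a + b) := by ring
    rw [e1]
    have h8 : |(b - a) * (a + b)| ≤ (18 * A ^ 2 * δ) * (17 * A ^ 2) := by
      rw [abs_mul]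
      refine mul_le_mul ?_ ?_ (abs_nonneg _) (by positivity)
      · rw [abs_le]; constructor <;> linarith
      · rw [abs_le]; constructor <;> linarith
    have h9 := le_abs_self ((b - a) * (a + b))
    have h10 : (18 * A ^ 2 * δ) * (17 * A ^ 2) = 306 * A ^ 4 * δ := by ring
    linarith
  have hUp : U ≤ p := by linarith
  have hU2 : U ^ 2 ≤ p ^ 2 := pow_le_pow_left₀ hU0 hUp 2
  have hU4 : U ^ 4 ≤ p ^ 4 := pow_le_pow_left₀ hU0 hUp 4
  have he2 : e ^ 2 ≤ A ^ 2 := by rw [← sq_abs e]; exact pow_le_pow_left₀ (abs_nonneg _) he 2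
  have g1 : 3 * U ^ 2 * z ^ 2 * e ^ 2 ≤ 3 * Z ^ 2 * e ^ 2 := by
    have : 3 * Z ^ 2 * e ^ 2 = 3 * p ^ 2 * z ^ 2 * e ^ 2 := by rw [hZ]; ring
    rw [this]
    have h11 : U ^ 2 * (z ^ 2 * e ^ 2) ≤ p ^ 2 * (z ^ 2 * e ^ 2) :=
      mul_le_mul_of_nonneg_right hU2 (by positivity)
    linarith
  have g2 : 3 * Z ^ 2 * e ^ 2 ≤ 3 * o ^ 2 * e ^ 2 + 45 * A ^ 4 * δ := by
    have k1 : (Z ^ 2 - o ^ 2) * e ^ 2 ≤ (15 * A ^ 2 * δ) * e ^ 2 :=
      mul_le_mul_of_nonneg_right h5 (sq_nonneg _)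
    have k2 : (15 * A ^ 2 * δ) * e ^ 2 ≤ (15 * A ^ 2 * δ) * A ^ 2 :=
      mul_le_mul_of_nonneg_left he2 (by positivity)
    have k3 : (15 * A ^ 2 * δ) * A ^ 2 = 15 * A ^ 4 * δ := by ring
    linarith
  have g3 : 1 / 2 * U ^ 4 * (z ^ 2 - 1) ^ 2 ≤ 1 / 2 * b ^ 2 := by
    have : b ^ 2 = p ^ 4 * (z ^ 2 - 1) ^ 2 := by rw [hb, hZ]; ring
    rw [this]
    have := mul_le_mul_of_nonneg_right hU4 (sq_nonneg (z ^ 2 - 1))
    linarith
  have hA4 : 0 ≤ A ^ 4 * δ := by positivity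
  linarith

/-- The identity behind the decomposition. -/
lemma core_id {u us ut o os ot δ p ζs ζt ψ ψs ψt : ℝ} (hp : p = u + δ) (hp0 : p ≠ 0)
    (hζs : ζs = (os * p - (o + δ) * us) / p ^ 2)
    (hζt : ζt = (ot * p - (o + δ) * ut) / p ^ 2) (hψ : ψ = (o + δ) ^ 2 / p - p)
    (hψs : ψs = 2 * (o + δ) * os / p - (o + δ) ^ 2 * us / p ^ 2 - us)
    (hψt : ψt = 2 * (o + δ) * ot / p - (o + δ) ^ 2 * ut / p ^ 2 - ut) :
    (os ^ 2 + ot ^ 2) - (us ^ 2 + ut ^ 2) + 1 / 2 * (1 - o ^ 2) ^ 2 - 1 / 2 * (1 - u ^ 2) ^ 2 =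
      (us * ψs + ut * ψt - (u - u ^ 3) * ψ) + p ^ 2 * (ζs ^ 2 + ζt ^ 2) +
      1 / 2 * (o ^ 2 - u ^ 2) ^ 2 - (1 - u ^ 2) * (δ * (o - u) ^ 2 / p) := by
  have e1 : (os ^ 2 + ot ^ 2) - (us ^ 2 + ut ^ 2) = (us * ψs + ut * ψt) +
      p ^ 2 * (ζs ^ 2 + ζt ^ 2) := by
    rw [hζs, hζt, hψs, hψt]
    field_simp
    ring
  have e2 : 1 / 2 * (1 - o ^ 2) ^ 2 - 1 / 2 * (1 - u ^ 2) ^ 2 = - (u - u ^ 3) * ψ +
      1 / 2 * (o ^ 2 - u ^ 2) ^ 2 - (1 - u ^ 2) * (δ * (o - u) ^ 2 / p) := by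
    rw [hψ]
    field_simp
    rw [hp]
    ring
  linarith

/-- integration by parts against the solution -/
lemma u_ibp {k : ℕ} {u us ut uss utt ψ ψs ψt : ℝ → ℝ → ℝ} {R : ℝ}
    (hu : Sol2 (k + 2) u us ut uss utt)
    (cψ : ContinuousOn (fun p : ℝ × ℝ => ψ p.1 p.2) (CTri R))
    (cψs : ContinuousOn (fun p : ℝ × ℝ => ψs p.1 p.2) (CTri R))
    (cψt : ContinuousOn (fun p : ℝ × ℝ => ψt p.1 p.2) (CTri R))
    (dψ_s : ∀ s t, 0 < t → t < s → s < R → HasDerivAt (fun s => ψ s t) (ψs s t) s)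
    (dψ_t : ∀ s t, 0 < t → t < s → s < R → HasDerivAt (fun t => ψ s t) (ψt s t) t)
    (ψdiag : ∀ s, 0 < s → s < R → ψ s s = 0) (ψR : ∀ t, 0 < t → t < R → ψ R t = 0) :
    ∫ p in Tri R, p.1 ^ (k + 1) * p.2 ^ (k + 1) * (us p.1 p.2 * ψs p.1 p.2 +
      ut p.1 p.2 * ψt p.1 p.2 - (u p.1 p.2 - u p.1 p.2 ^ 3) * ψ p.1 p.2) = 0 := by
  have cu := hu.cu.continuousOn (s := CTri R)
  have cus := hu.cus.continuousOn (s := CTri R)
  have cut := hu.cut.continuousOn (s := CTri R)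
  have cuss := hu.cuss.continuousOn (s := CTri R)
  have cutt := hu.cutt.continuousOn (s := CTri R)
  set F : ℝ → ℝ → ℝ := fun s t => s ^ (k + 1) * t ^ (k + 1) * (ψ s t * us s t) with hF
  set G : ℝ → ℝ → ℝ := fun s t => s ^ (k + 1) * t ^ (k + 1) * (ψ s t * ut s t) with hG
  set F' : ℝ → ℝ → ℝ := fun s t => (k + 1) * s ^ k * t ^ (k + 1) * (ψ s t * us s t) +
    s ^ (k + 1) * t ^ (k + 1) * (ψs s t * us s t + ψ s t * uss s t) with hF'
  set G' : ℝ → ℝ → ℝ := fun s t => (k + 1) * s ^ (k + 1) * t ^ k * (ψ s t * ut s t) +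
    s ^ (k + 1) * t ^ (k + 1) * (ψt s t * ut s t + ψ s t * utt s t) with hG'
  have cF : ContinuousOn (fun p : ℝ × ℝ => F p.1 p.2) (CTri R) := by
    simp only [hF]; fun_prop
  have cG : ContinuousOn (fun p : ℝ × ℝ => G p.1 p.2) (CTri R) := by
    simp only [hG]; fun_prop
  have cF' : ContinuousOn (fun p : ℝ × ℝ => F' p.1 p.2) (CTri R) := by
    simp only [hF']; fun_prop
  have cG' : ContinuousOn (fun p : ℝ × ℝ => G' p.1 p.2) (CTri R) := by
    simp only [hG']; fun_prop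
  have hibp : ∫ p in Tri R, (F' p.1 p.2 + G' p.1 p.2) = 0 := by
    refine ibp (F := F) (G := G) ?_ ?_ ?_ ?_ ?_ ?_ ?_
      (Good.of_continuousOn cF').integrableOn (Good.of_continuousOn cG').integrableOn
    · intro t ht htR
      exact cF.comp (f := fun s : ℝ => ((s, t) : ℝ × ℝ)) (by fun_prop)
        fun s hs => ⟨ht.le, hs.1, hs.2⟩
    · intro s hs hsR
      exact cG.comp (f := fun t : ℝ => ((s, t) : ℝ × ℝ)) (by fun_prop)
        fun t ht => ⟨ht.1, ht.2, hsR.le⟩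
    · intro t ht htR
      simp only [hF, ψR t ht htR]
      ring
    · intro s hs _
      simp only [hG]
      rw [zero_pow (by omega)]
      ring
    · intro s hs hsR
      simp only [hF, hG, ψdiag s hs hsR]
      ring
    · intro t ht htR
      refine ⟨∅, countable_empty, fun s hs => ?_⟩
      have hd : HasDerivAt (fun s : ℝ => s ^ (k + 1) * t ^ (k + 1))
          ((k + 1) * s ^ k * t ^ (k + 1)) s := by
        refine ((hasDerivAt_pow (k + 1) s).mul_const _).congr_deriv ?_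
        rw [Nat.add_sub_cancel]
        push_cast
        ring
      exact hd.mul ((dψ_s s t ht hs.1.1 hs.1.2).mul (hu.dus s t))
    · intro s hs hsR
      refine ⟨∅, countable_empty, fun t ht => ?_⟩
      have hd : HasDerivAt (fun t : ℝ => s ^ (k + 1) * t ^ (k + 1))
          ((k + 1) * s ^ (k + 1) * t ^ k) t := by
        refine ((hasDerivAt_pow (k + 1) t).const_mul _).congr_deriv ?_
        rw [Nat.add_sub_cancel]
        push_cast
        ring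
      exact hd.mul ((dψ_t s t ht.1.1 ht.1.2 hsR).mul (hu.dut s t))
  rw [← hibp]
  refine setIntegral_congr_fun (measurableSet_Tri R) fun p hp => ?_
  have ht : 0 < p.2 := hp.1
  have hs : 0 < p.1 := hp.1.trans hp.2.1
  have h1 := hu.pde p.1 p.2 hp.1 hp.2.1
  have e1 : (((k + 2 : ℕ) : ℝ) - 1) = k + 1 := by push_cast; ring
  rw [e1] at h1
  simp only [hF', hG']
  have h2 : u p.1 p.2 - u p.1 p.2 ^ 3 = -(uss p.1 p.2 + utt p.1 p.2 +
    (k + 1) * (us p.1 p.2 / p.1 + ut p.1 p.2 / p.2)) := by linarith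
  rw [h2]
  field_simp
  ring

end

end Pool.Agent.Lib.MP_98c801_an

/-!
The energy inequality on the triangle, main theorem.
-/

namespace Pool.Agent.Lib.MP_98c801_an

open Real Set MeasureTheory Filter Topology

noncomputable section

lemma grad_zz_le {U p ζ ζs ζt δ : ℝ} (hδ : 0 < δ) (hU0 : 0 ≤ U) (hUp : U ≤ p) :
    U ^ 2 * ((ζ * ζs / √(ζ ^ 2 + δ ^ 2)) ^ 2 + (ζ * ζt / √(ζ ^ 2 + δ ^ 2)) ^ 2) ≤
      p ^ 2 * (ζs ^ 2 + ζt ^ 2) := by
  have hpos : 0 < ζ ^ 2 + δ ^ 2 := by positivity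
  have e : (ζ * ζs / √(ζ ^ 2 + δ ^ 2)) ^ 2 + (ζ * ζt / √(ζ ^ 2 + δ ^ 2)) ^ 2 =
      ζ ^ 2 / (ζ ^ 2 + δ ^ 2) * (ζs ^ 2 + ζt ^ 2) := by
    rw [div_pow, div_pow, Real.sq_sqrt hpos.le]
    field_simp
  rw [e]
  have h1 : ζ ^ 2 / (ζ ^ 2 + δ ^ 2) ≤ 1 := by
    rw [div_le_one hpos]; nlinarith [sq_nonneg δ]
  have h2 : U ^ 2 ≤ p ^ 2 := pow_le_pow_left₀ hU0 hUp 2
  have h3 : ζ ^ 2 / (ζ ^ 2 + δ ^ 2) * (ζs ^ 2 + ζt ^ 2) ≤ 1 * (ζs ^ 2 + ζt ^ 2) :=
    mul_le_mul_of_nonneg_right h1 (by positivity)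
  rw [one_mul] at h3
  exact mul_le_mul h2 h3 (by positivity) (by positivity)

lemma split4 {f g h j : ℝ × ℝ → ℝ} {S : Set (ℝ × ℝ)} (hf : IntegrableOn f S)
    (hg : IntegrableOn g S) (hh : IntegrableOn h S) (hj : IntegrableOn j S) :
    ∫ p in S, (((f + g) + h) - j) p = (∫ p in S, f p) + (∫ p in S, g p) + (∫ p in S, h p) -
      ∫ p in S, j p := by
  have h1 : ∫ p in S, (((f + g) + h) - j) p = ∫ p in S, (((f p + g p) + h p) - j p) := rfl
  have i1 : IntegrableOn (fun p => f p + g p) S := hf.add hg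
  have i2 : IntegrableOn (fun p => f p + g p + h p) S := i1.add hh
  rw [h1, integral_sub i2 hj, integral_add i1 hh, integral_add hf hg]

/-- the inequality at level `δ` -/
lemma core_step {m : ℕ} (hm : 5 ≤ m) {R A δ : ℝ} {u us ut uss utt e es et o os ot : ℝ → ℝ → ℝ}
    (hu : Sol2 m u us ut uss utt)
    (ce : Continuous fun p : ℝ × ℝ => e p.1 p.2) (ces : Continuous fun p : ℝ × ℝ => es p.1 p.2)
    (cet : Continuous fun p : ℝ × ℝ => et p.1 p.2) (co : Continuous fun p : ℝ × ℝ => o p.1 p.2)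
    (cos : Continuous fun p : ℝ × ℝ => os p.1 p.2) (cot : Continuous fun p : ℝ × ℝ => ot p.1 p.2)
    (de_s : ∀ s t, HasDerivAt (fun s => e s t) (es s t) s)
    (de_t : ∀ s t, HasDerivAt (fun t => e s t) (et s t) t)
    (do_s : ∀ s t, HasDerivAt (fun s => o s t) (os s t) s)
    (do_t : ∀ s t, HasDerivAt (fun t => o s t) (ot s t) t)
    (odiag : ∀ s, o s s = 0) (eR : ∀ t, 0 < t → t < R → e R t = 0)
    (oR : ∀ t, 0 < t → t < R → o R t = u R t)
    (hA : 1 ≤ A) (hAu : ∀ p ∈ CTri R, |u p.1 p.2| ≤ A) (hAo : ∀ p ∈ CTri R, |o p.1 p.2| ≤ A)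
    (hAe : ∀ p ∈ CTri R, |e p.1 p.2| ≤ A) (hδ0 : 0 < δ) (hδ1 : δ ≤ 1) :
    0 ≤ (∫ p in Tri R, p.1 ^ (m - 1) * p.2 ^ (m - 1) *
      ((es p.1 p.2 ^ 2 + et p.1 p.2 ^ 2) + ((os p.1 p.2 ^ 2 + ot p.1 p.2 ^ 2) -
        (us p.1 p.2 ^ 2 + ut p.1 p.2 ^ 2) + 1 / 2 * (1 - o p.1 p.2 ^ 2) ^ 2 -
        1 / 2 * (1 - u p.1 p.2 ^ 2) ^ 2) + (3 * o p.1 p.2 ^ 2 - 1) * e p.1 p.2 ^ 2 +
        1 / 2 * e p.1 p.2 ^ 4)) +
      200 * A ^ 4 * δ * (∫ p in Tri R, p.1 ^ (m - 1) * p.2 ^ (m - 1)) +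
      ∫ p in Tri R, p.1 ^ (m - 1) * p.2 ^ (m - 1) *
        (|1 - u p.1 p.2 ^ 2| * (δ * (o p.1 p.2 - u p.1 p.2) ^ 2 / (u p.1 p.2 + δ))) := by
  obtain ⟨k, rfl⟩ : ∃ k, m = k + 2 := ⟨m - 2, by omega⟩
  have hkm : k + 2 - 1 = k + 1 := by omega
  obtain ⟨c, hc⟩ : ∃ c, c = 2 * ((k + 2 : ℕ) : ℝ) - 7 / 2 := ⟨_, rfl⟩
  have hm' : (5 : ℝ) ≤ ((k + 2 : ℕ) : ℝ) := by exact_mod_cast hm
  have hc0 : 0 < c := by rw [hc]; linarith
  have cu := hu.cu
  have cus := hu.cus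
  have cut := hu.cut
  have hvpos : ∀ p ∈ CTri R, 0 < u p.1 p.2 + δ := fun p hp => by
    have := hu.nonneg p.1 p.2 hp.1 hp.2.1
    linarith
  have hv0 : ∀ p ∈ CTri R, u p.1 p.2 + δ ≠ 0 := fun p hp => (hvpos p hp).ne'
  have hv2 : ∀ p ∈ CTri R, (u p.1 p.2 + δ) ^ 2 ≠ 0 := fun p hp => pow_ne_zero 2 (hv0 p hp)
  -- the functions
  set ζ : ℝ → ℝ → ℝ := fun s t => (o s t + δ) / (u s t + δ) with hζ
  set ζs : ℝ → ℝ → ℝ := fun s t =>
    (os s t * (u s t + δ) - (o s t + δ) * us s t) / (u s t + δ) ^ 2 with hζs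
  set ζt : ℝ → ℝ → ℝ := fun s t =>
    (ot s t * (u s t + δ) - (o s t + δ) * ut s t) / (u s t + δ) ^ 2 with hζt
  have cζ : ContinuousOn (fun p : ℝ × ℝ => ζ p.1 p.2) (CTri R) :=
    ContinuousOn.div (by fun_prop) (by fun_prop) hv0
  have cζs : ContinuousOn (fun p : ℝ × ℝ => ζs p.1 p.2) (CTri R) :=
    ContinuousOn.div (by fun_prop) (by fun_prop) hv2
  have cζt : ContinuousOn (fun p : ℝ × ℝ => ζt p.1 p.2) (CTri R) :=
    ContinuousOn.div (by fun_prop) (by fun_prop) hv2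
  have csq : ContinuousOn (fun p : ℝ × ℝ => √(ζ p.1 p.2 ^ 2 + δ ^ 2)) (CTri R) :=
    ((cζ.pow 2).add continuousOn_const).sqrt
  have hsq0 : ∀ p ∈ CTri R, √(ζ p.1 p.2 ^ 2 + δ ^ 2) ≠ 0 := fun p _ =>
    (Real.sqrt_pos.2 (by positivity)).ne'
  have cz : ContinuousOn (fun p : ℝ × ℝ => zz δ (ζ p.1 p.2)) (CTri R) := by
    unfold zz
    exact (csq.add continuousOn_const).sub continuousOn_const
  have czs : ContinuousOn (fun p : ℝ × ℝ => ζ p.1 p.2 * ζs p.1 p.2 / √(ζ p.1 p.2 ^ 2 + δ ^ 2))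
      (CTri R) := (cζ.mul cζs).div csq hsq0
  have czt : ContinuousOn (fun p : ℝ × ℝ => ζ p.1 p.2 * ζt p.1 p.2 / √(ζ p.1 p.2 ^ 2 + δ ^ 2))
      (CTri R) := (cζ.mul cζt).div csq hsq0
  have dζ_s : ∀ s t, 0 < t → t < s → s < R → HasDerivAt (fun s => ζ s t) (ζs s t) s :=
    fun s t ht hts hsR => by
    have h0 := hvpos (s, t) ⟨ht.le, hts.le, hsR.le⟩
    exact ((do_s s t).add_const δ).div ((hu.du_s s t).add_const δ) h0.ne'
  have dζ_t : ∀ s t, 0 < t → t < s → s < R → HasDerivAt (fun t => ζ s t) (ζt s t) t :=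
    fun s t ht hts hsR => by
    have h0 := hvpos (s, t) ⟨ht.le, hts.le, hsR.le⟩
    exact ((do_t s t).add_const δ).div ((hu.du_t s t).add_const δ) h0.ne'
  have ζR : ∀ t, 0 < t → t < R → ζ R t = 1 := fun t ht htR => by
    have h0 := hvpos (R, t) ⟨ht.le, htR.le, le_rfl⟩
    simp only [hζ, oR t ht htR]
    exact div_self h0.ne'
  -- the calibration inequality
  have hJ := J_nonneg (m := k + 2) (R := R) hm hc (e := e) (es := es) (et := et)
    (z := fun s t => zz δ (ζ s t)) (zs := fun s t => ζ s t * ζs s t / √(ζ s t ^ 2 + δ ^ 2))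
    (zt := fun s t => ζ s t * ζt s t / √(ζ s t ^ 2 + δ ^ 2)) ce.continuousOn ces.continuousOn
    cet.continuousOn cz czs czt (fun s t _ _ _ => de_s s t) (fun s t _ _ _ => de_t s t)
    (fun s t h1 h2 h3 => hasDerivAt_zz hδ0 (dζ_s s t h1 h2 h3))
    (fun s t h1 h2 h3 => hasDerivAt_zz hδ0 (dζ_t s t h1 h2 h3))
    (fun s t _ _ _ => zz_nonneg hδ0.le) eR
    (fun t h1 h2 => by simp only [ζR t h1 h2]; exact zz_one δ)
  -- integration by parts
  set ψ : ℝ → ℝ → ℝ := fun s t => (o s t + δ) ^ 2 / (u s t + δ) - (u s t + δ) with hψ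
  set ψs : ℝ → ℝ → ℝ := fun s t => 2 * (o s t + δ) * os s t / (u s t + δ) -
    (o s t + δ) ^ 2 * us s t / (u s t + δ) ^ 2 - us s t with hψs
  set ψt : ℝ → ℝ → ℝ := fun s t => 2 * (o s t + δ) * ot s t / (u s t + δ) -
    (o s t + δ) ^ 2 * ut s t / (u s t + δ) ^ 2 - ut s t with hψt
  have cψ : ContinuousOn (fun p : ℝ × ℝ => ψ p.1 p.2) (CTri R) :=
    (ContinuousOn.div (by fun_prop) (by fun_prop) hv0).sub (by fun_prop)
  have cψs : ContinuousOn (fun p : ℝ × ℝ => ψs p.1 p.2) (CTri R) :=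
    ((ContinuousOn.div (by fun_prop) (by fun_prop) hv0).sub
      (ContinuousOn.div (by fun_prop) (by fun_prop) hv2)).sub (by fun_prop)
  have cψt : ContinuousOn (fun p : ℝ × ℝ => ψt p.1 p.2) (CTri R) :=
    ((ContinuousOn.div (by fun_prop) (by fun_prop) hv0).sub
      (ContinuousOn.div (by fun_prop) (by fun_prop) hv2)).sub (by fun_prop)
  have hI := u_ibp (R := R) hu cψ cψs cψt
    (fun s t ht hts hsR => by
      have h0 := hvpos (s, t) ⟨ht.le, hts.le, hsR.le⟩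
      have := ((((do_s s t).add_const δ).pow 2).div ((hu.du_s s t).add_const δ) h0.ne').sub
        ((hu.du_s s t).add_const δ)
      refine this.congr_deriv ?_
      simp only [hψs, Pi.pow_apply, Nat.cast_ofNat, Nat.add_one_sub_one, pow_one]
      simp only at h0
      field_simp)
    (fun s t ht hts hsR => by
      have h0 := hvpos (s, t) ⟨ht.le, hts.le, hsR.le⟩
      have := ((((do_t s t).add_const δ).pow 2).div ((hu.du_t s t).add_const δ) h0.ne').sub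
        ((hu.du_t s t).add_const δ)
      refine this.congr_deriv ?_
      simp only [hψt, Pi.pow_apply, Nat.cast_ofNat, Nat.add_one_sub_one, pow_one]
      simp only at h0
      field_simp)
    (fun s hs hsR => by
      simp only [hψ, odiag s, hu.diag s]
      field_simp
      ring)
    (fun t ht htR => by
      have h0 := hvpos (R, t) ⟨ht.le, htR.le, le_rfl⟩
      simp only at h0
      simp only [hψ, oR t ht htR]
      field_simp
      ring)
  rw [hkm] at hJ ⊢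
  -- collect
  have iT : IntegrableOn (fun p : ℝ × ℝ => p.1 ^ (k + 1) * p.2 ^ (k + 1) *
      ((es p.1 p.2 ^ 2 + et p.1 p.2 ^ 2) + ((os p.1 p.2 ^ 2 + ot p.1 p.2 ^ 2) -
        (us p.1 p.2 ^ 2 + ut p.1 p.2 ^ 2) + 1 / 2 * (1 - o p.1 p.2 ^ 2) ^ 2 -
        1 / 2 * (1 - u p.1 p.2 ^ 2) ^ 2) + (3 * o p.1 p.2 ^ 2 - 1) * e p.1 p.2 ^ 2 +
        1 / 2 * e p.1 p.2 ^ 4)) (Tri R) :=
    (Good.of_continuousOn (by fun_prop)).integrableOn
  have iW : IntegrableOn (fun p : ℝ × ℝ => 200 * A ^ 4 * δ * (p.1 ^ (k + 1) * p.2 ^ (k + 1)))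
      (Tri R) := (Good.of_continuousOn (by fun_prop)).integrableOn
  have iE : IntegrableOn (fun p : ℝ × ℝ => p.1 ^ (k + 1) * p.2 ^ (k + 1) *
      (|1 - u p.1 p.2 ^ 2| * (δ * (o p.1 p.2 - u p.1 p.2) ^ 2 / (u p.1 p.2 + δ)))) (Tri R) := by
    refine (Good.of_continuousOn (ContinuousOn.mul (by fun_prop) (ContinuousOn.mul ?_
      (ContinuousOn.div (by fun_prop) (by fun_prop) hv0)))).integrableOn
    exact (Continuous.abs (by fun_prop)).continuousOn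
  have iI : IntegrableOn (fun p : ℝ × ℝ => p.1 ^ (k + 1) * p.2 ^ (k + 1) *
      (us p.1 p.2 * ψs p.1 p.2 +
      ut p.1 p.2 * ψt p.1 p.2 - (u p.1 p.2 - u p.1 p.2 ^ 3) * ψ p.1 p.2)) (Tri R) := by
    have cu' := cu.continuousOn (s := CTri R)
    have cus' := cus.continuousOn (s := CTri R)
    have cut' := cut.continuousOn (s := CTri R)
    exact (Good.of_continuousOn (by fun_prop)).integrableOn
  have gU := good_UU (R := R) hc0.le
  have ge := Good.of_continuousOn (ce.continuousOn (s := CTri R))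
  have ges := Good.of_continuousOn (ces.continuousOn (s := CTri R))
  have get' := Good.of_continuousOn (cet.continuousOn (s := CTri R))
  have gz := Good.of_continuousOn cz
  have gzs := Good.of_continuousOn czs
  have gzt := Good.of_continuousOn czt
  have iJ := (((good_s (R := R)).pow (k + 1)).mul (good_t.pow (k + 1))).mul
      ((((((ges.pow 2).add (get'.pow 2)).add
        (((((Good.const 3).mul (gU.pow 2)).mul (gz.pow 2)).sub (Good.const 1)).mul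
          (ge.pow 2))).add ((Good.const (1 / 2)).mul (ge.pow 4))).add
        ((gU.pow 2).mul ((gzs.pow 2).add (gzt.pow 2)))).add
        (((Good.const (1 / 2)).mul (gU.pow 4)).mul (((gz.pow 2).sub (Good.const 1)).pow 2)))
        |>.integrableOn
  have hmono := setIntegral_mono_on iJ (((iT.add iW).add iE).sub iI) (measurableSet_Tri R)
    (fun p hp => by
      have hp' := Tri_subset_CTri R hp
      have ht : 0 < p.2 := hp.1
      have hs : 0 < p.1 := hp.1.trans hp.2.1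
      have h0 := hvpos p hp'
      have hup := hu.nonneg p.1 p.2 hp.1.le hp.2.1.le
      have hUle : UU c p.1 p.2 ≤ u p.1 p.2 := UU_le hm hc hu hp.1 hp.2.1
      have hU0 : 0 ≤ UU c p.1 p.2 := UU_nonneg hp.1.le hp.2.1.le
      have k1 := core_alg (A := A) (U := UU c p.1 p.2) (u := u p.1 p.2) (o := o p.1 p.2)
        (e := e p.1 p.2) (δ := δ) (ζ := ζ p.1 p.2) (z := zz δ (ζ p.1 p.2)) hA hδ0 hδ1 hup
        ((le_abs_self _).trans (hAu p hp')) (hAo p hp') (hAe p hp') hU0 hUle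
        (by simp only [hζ]; field_simp) (zz_nonneg hδ0.le) (zz_le hδ0.le) (le_zz hδ0.le)
      have k2 := grad_zz_le (U := UU c p.1 p.2) (p := u p.1 p.2 + δ) (ζ := ζ p.1 p.2)
        (ζs := ζs p.1 p.2) (ζt := ζt p.1 p.2) hδ0 hU0 (by linarith)
      have k3 := core_id (u := u p.1 p.2) (us := us p.1 p.2) (ut := ut p.1 p.2) (o := o p.1 p.2)
        (os := os p.1 p.2) (ot := ot p.1 p.2) (δ := δ) (p := u p.1 p.2 + δ)
        (ζs := ζs p.1 p.2) (ζt := ζt p.1 p.2) (ψ := ψ p.1 p.2) (ψs := ψs p.1 p.2)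
        (ψt := ψt p.1 p.2) rfl h0.ne' rfl rfl rfl rfl rfl
      have k4 : (1 - u p.1 p.2 ^ 2) * (δ * (o p.1 p.2 - u p.1 p.2) ^ 2 / (u p.1 p.2 + δ)) ≤
          |1 - u p.1 p.2 ^ 2| * (δ * (o p.1 p.2 - u p.1 p.2) ^ 2 / (u p.1 p.2 + δ)) :=
        mul_le_mul_of_nonneg_right (le_abs_self _) (by positivity)
      have hw : 0 ≤ p.1 ^ (k + 1) * p.2 ^ (k + 1) := by positivity
      simp only [Pi.add_apply, Pi.sub_apply]
      have k5 : (es p.1 p.2 ^ 2 + et p.1 p.2 ^ 2) +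
          (3 * UU c p.1 p.2 ^ 2 * zz δ (ζ p.1 p.2) ^ 2 - 1) * e p.1 p.2 ^ 2 +
          1 / 2 * e p.1 p.2 ^ 4 +
          UU c p.1 p.2 ^ 2 * ((ζ p.1 p.2 * ζs p.1 p.2 / √(ζ p.1 p.2 ^ 2 + δ ^ 2)) ^ 2 +
            (ζ p.1 p.2 * ζt p.1 p.2 / √(ζ p.1 p.2 ^ 2 + δ ^ 2)) ^ 2) +
          1 / 2 * UU c p.1 p.2 ^ 4 * (zz δ (ζ p.1 p.2) ^ 2 - 1) ^ 2 ≤
          ((es p.1 p.2 ^ 2 + et p.1 p.2 ^ 2) + ((os p.1 p.2 ^ 2 + ot p.1 p.2 ^ 2) -
        (us p.1 p.2 ^ 2 + ut p.1 p.2 ^ 2) + 1 / 2 * (1 - o p.1 p.2 ^ 2) ^ 2 -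
        1 / 2 * (1 - u p.1 p.2 ^ 2) ^ 2) + (3 * o p.1 p.2 ^ 2 - 1) * e p.1 p.2 ^ 2 +
        1 / 2 * e p.1 p.2 ^ 4) + 200 * A ^ 4 * δ +
        (|1 - u p.1 p.2 ^ 2| * (δ * (o p.1 p.2 - u p.1 p.2) ^ 2 / (u p.1 p.2 + δ))) -
        (us p.1 p.2 * ψs p.1 p.2 +
          ut p.1 p.2 * ψt p.1 p.2 - (u p.1 p.2 - u p.1 p.2 ^ 3) * ψ p.1 p.2) := by
        linarith
      have k6 := mul_le_mul_of_nonneg_left k5 hw
      refine k6.trans_eq ?_
      ring)
  have j1 : IntegrableOn (fun p : ℝ × ℝ => p.1 ^ (k + 1) * p.2 ^ (k + 1)) (Tri R) :=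
    (Good.of_continuousOn (by fun_prop)).integrableOn
  have hJ2 := hJ.trans hmono
  rw [split4 iT iW iE iI, hI, sub_zero, integral_const_mul] at hJ2
  exact hJ2

/-- The energy inequality on the triangle. -/
theorem core_tri {m : ℕ} (hm : 5 ≤ m) {R : ℝ} {u us ut uss utt e es et o os ot : ℝ → ℝ → ℝ}
    (hu : Sol2 m u us ut uss utt)
    (ce : Continuous fun p : ℝ × ℝ => e p.1 p.2) (ces : Continuous fun p : ℝ × ℝ => es p.1 p.2)
    (cet : Continuous fun p : ℝ × ℝ => et p.1 p.2) (co : Continuous fun p : ℝ × ℝ => o p.1 p.2)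
    (cos : Continuous fun p : ℝ × ℝ => os p.1 p.2) (cot : Continuous fun p : ℝ × ℝ => ot p.1 p.2)
    (de_s : ∀ s t, HasDerivAt (fun s => e s t) (es s t) s)
    (de_t : ∀ s t, HasDerivAt (fun t => e s t) (et s t) t)
    (do_s : ∀ s t, HasDerivAt (fun s => o s t) (os s t) s)
    (do_t : ∀ s t, HasDerivAt (fun t => o s t) (ot s t) t)
    (odiag : ∀ s, o s s = 0) (eR : ∀ t, 0 < t → t < R → e R t = 0)
    (oR : ∀ t, 0 < t → t < R → o R t = u R t) :
    0 ≤ ∫ p in Tri R, p.1 ^ (m - 1) * p.2 ^ (m - 1) *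
      ((es p.1 p.2 ^ 2 + et p.1 p.2 ^ 2) + ((os p.1 p.2 ^ 2 + ot p.1 p.2 ^ 2) -
        (us p.1 p.2 ^ 2 + ut p.1 p.2 ^ 2) + 1 / 2 * (1 - o p.1 p.2 ^ 2) ^ 2 -
        1 / 2 * (1 - u p.1 p.2 ^ 2) ^ 2) + (3 * o p.1 p.2 ^ 2 - 1) * e p.1 p.2 ^ 2 +
        1 / 2 * e p.1 p.2 ^ 4) := by
  obtain ⟨K1, hK1⟩ := (isCompact_CTri R).exists_bound_of_continuousOn
    (hu.cu.continuousOn (s := CTri R))
  obtain ⟨K2, hK2⟩ := (isCompact_CTri R).exists_bound_of_continuousOn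
    (co.continuousOn (s := CTri R))
  obtain ⟨K3, hK3⟩ := (isCompact_CTri R).exists_bound_of_continuousOn
    (ce.continuousOn (s := CTri R))
  set A : ℝ := max 1 (max K1 (max K2 K3)) with hA
  have hA1 : 1 ≤ A := le_max_left _ _
  have hAK1 : K1 ≤ A := (le_max_left _ _).trans (le_max_right _ _)
  have hAK2 : K2 ≤ A := ((le_max_left _ _).trans (le_max_right _ _)).trans (le_max_right _ _)
  have hAK3 : K3 ≤ A := ((le_max_right _ _).trans (le_max_right _ _)).trans (le_max_right _ _)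
  have hδ : ∀ n : ℕ, (0 : ℝ) < 1 / ((n : ℝ) + 1) := fun n => by positivity
  have hδ1 : ∀ n : ℕ, 1 / ((n : ℝ) + 1) ≤ 1 := fun n => by
    rw [div_le_one (by positivity)]
    have : (0 : ℝ) ≤ n := Nat.cast_nonneg n
    linarith
  have lδ : Tendsto (fun n : ℕ => 1 / ((n : ℝ) + 1)) atTop (𝓝 0) :=
    tendsto_one_div_add_atTop_nhds_zero_nat
  have step := fun n : ℕ => core_step hm (R := R) (A := A) hu ce ces cet co cos cot de_s de_t do_s
    do_t odiag eR oR hA1 (fun p hp => (hK1 p hp).trans hAK1) (fun p hp => (hK2 p hp).trans hAK2)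
    (fun p hp => (hK3 p hp).trans hAK3) (hδ n) (hδ1 n)
  have cu := hu.cu
  have L : Tendsto (fun n : ℕ => ∫ p in Tri R, p.1 ^ (m - 1) * p.2 ^ (m - 1) *
        (|1 - u p.1 p.2 ^ 2| * (1 / ((n : ℝ) + 1) * (o p.1 p.2 - u p.1 p.2) ^ 2 /
          (u p.1 p.2 + 1 / ((n : ℝ) + 1))))) atTop (𝓝 (∫ _ in Tri R, (0 : ℝ))) := by
    refine tendsto_integral_of_dominated_convergence
      (fun p : ℝ × ℝ => p.1 ^ (m - 1) * p.2 ^ (m - 1) *
        (|1 - u p.1 p.2 ^ 2| * (o p.1 p.2 - u p.1 p.2) ^ 2)) (fun n => ?_) ?_ (fun n => ?_) ?_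
    · refine ContinuousOn.aestronglyMeasurable ?_ (measurableSet_Tri R)
      refine ContinuousOn.mul (by fun_prop) (ContinuousOn.mul (Continuous.continuousOn
        (Continuous.abs (by fun_prop))) (ContinuousOn.div (by fun_prop) (by fun_prop)
        fun p hp => ?_))
      have := hu.pos p.1 p.2 hp.1 hp.2.1
      have := hδ n
      positivity
    · refine (Good.of_continuousOn ?_).integrableOn
      exact ContinuousOn.mul (by fun_prop) (ContinuousOn.mul (Continuous.continuousOn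
        (Continuous.abs (by fun_prop))) (by fun_prop))
    · filter_upwards [self_mem_ae_restrict (measurableSet_Tri R)] with p hp
      have h1 : 0 < p.2 := hp.1
      have h2 : 0 < p.1 := hp.1.trans hp.2.1
      have h3 := hu.pos p.1 p.2 hp.1 hp.2.1
      have h4 := hδ n
      rw [Real.norm_eq_abs, abs_of_nonneg (by positivity)]
      refine mul_le_mul_of_nonneg_left ?_ (by positivity)
      refine mul_le_mul_of_nonneg_left ?_ (by positivity)
      rw [div_le_iff₀ (by positivity)]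
      have h5 := sq_nonneg (o p.1 p.2 - u p.1 p.2)
      nlinarith [mul_nonneg h5 h3.le]
    · filter_upwards [self_mem_ae_restrict (measurableSet_Tri R)] with p hp
      have h3 := hu.pos p.1 p.2 hp.1 hp.2.1
      have h6 := ((lδ.mul (tendsto_const_nhds (x := (o p.1 p.2 - u p.1 p.2) ^ 2))).div
        ((tendsto_const_nhds (x := u p.1 p.2)).add lδ) (by rw [add_zero]; exact h3.ne'))
      have h7 := (h6.const_mul (|1 - u p.1 p.2 ^ 2|)).const_mul (p.1 ^ (m - 1) * p.2 ^ (m - 1))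
      simpa using h7
  rw [integral_zero] at L
  have L2 := ((tendsto_const_nhds (x := ∫ p in Tri R, p.1 ^ (m - 1) * p.2 ^ (m - 1) *
      ((es p.1 p.2 ^ 2 + et p.1 p.2 ^ 2) + ((os p.1 p.2 ^ 2 + ot p.1 p.2 ^ 2) -
        (us p.1 p.2 ^ 2 + ut p.1 p.2 ^ 2) + 1 / 2 * (1 - o p.1 p.2 ^ 2) ^ 2 -
        1 / 2 * (1 - u p.1 p.2 ^ 2) ^ 2) + (3 * o p.1 p.2 ^ 2 - 1) * e p.1 p.2 ^ 2 +
        1 / 2 * e p.1 p.2 ^ 4))).add ((lδ.const_mul (200 * A ^ 4)).mul
        (tendsto_const_nhds (x := ∫ p in Tri R, p.1 ^ (m - 1) * p.2 ^ (m - 1))))).add L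
  rw [mul_zero, zero_mul, add_zero, add_zero] at L2
  exact ge_of_tendsto' L2 step

end

end Pool.Agent.Lib.MP_98c801_an

/-!
The energy inequality on the quadrant.
-/

namespace Pool.Agent.Lib.MP_98c801_an

open Real Set MeasureTheory Filter Topology

noncomputable section

/-- open square -/
def Sq (R : ℝ) : Set (ℝ × ℝ) := Ioo 0 R ×ˢ Ioo 0 R

lemma measurableSet_Sq (R : ℝ) : MeasurableSet (Sq R) := measurableSet_Ioo.prod measurableSet_Ioo

lemma volume_diag : volume {p : ℝ × ℝ | p.1 = p.2} = 0 := by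
  have hm : MeasurableSet {p : ℝ × ℝ | p.1 = p.2} :=
    (isClosed_eq continuous_fst continuous_snd).measurableSet
  rw [Measure.volume_eq_prod, Measure.measure_prod_null hm]
  filter_upwards with x
  have : Prod.mk x ⁻¹' {p : ℝ × ℝ | p.1 = p.2} = {x} := by
    ext y
    simp only [mem_preimage, mem_setOf_eq, mem_singleton_iff]
    exact eq_comm
  rw [this]
  simp

lemma setIntegral_Sq {R : ℝ} {g : ℝ × ℝ → ℝ} (hg : IntegrableOn g (Sq R)) :
    ∫ p in Sq R, g p = (∫ p in Tri R, g p) + ∫ p in Tri R, g p.swap := by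
  have hsub1 : Tri R ⊆ Sq R := fun p hp =>
    ⟨⟨hp.1.trans hp.2.1, hp.2.2⟩, ⟨hp.1, hp.2.1.trans hp.2.2⟩⟩
  have hsub2 : Prod.swap ⁻¹' (Tri R) ⊆ Sq R := fun p hp => by
    have h1 : 0 < p.1 := hp.1
    have h2 : p.1 < p.2 := hp.2.1
    have h3 : p.2 < R := hp.2.2
    exact ⟨⟨h1, h2.trans h3⟩, ⟨h1.trans h2, h3⟩⟩
  have hm2 : MeasurableSet (Prod.swap ⁻¹' (Tri R) : Set (ℝ × ℝ)) :=
    measurable_swap (measurableSet_Tri R)
  have hdisj : Disjoint (Tri R) (Prod.swap ⁻¹' (Tri R)) := by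
    rw [Set.disjoint_left]
    intro p hp hp2
    have h1 : p.2 < p.1 := hp.2.1
    have h2 : p.1 < p.2 := hp2.2.1
    exact lt_asymm h1 h2
  have hae : (Sq R : Set (ℝ × ℝ)) =ᵐ[volume] (Tri R ∪ Prod.swap ⁻¹' (Tri R) : Set (ℝ × ℝ)) := by
    have h0 : ∀ᵐ p : ℝ × ℝ, p ∉ {p : ℝ × ℝ | p.1 = p.2} := measure_eq_zero_iff_ae_notMem.1 volume_diag
    filter_upwards [h0] with p hp
    have hne : p.1 ≠ p.2 := hp
    refine propext ⟨fun h => ?_, fun h => ?_⟩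
    · have h' : p ∈ Sq R := h
      rcases lt_or_gt_of_ne hne with h1 | h1
      · exact Or.inr ⟨h'.1.1, h1, h'.2.2⟩
      · exact Or.inl ⟨h'.2.1, h1, h'.1.2⟩
    · rcases h with h | h
      · exact hsub1 h
      · exact hsub2 h
  rw [setIntegral_congr_set hae, setIntegral_union hdisj hm2 (hg.mono_set hsub1)
    (hg.mono_set hsub2)]
  congr 1
  have hmp : MeasurePreserving (Prod.swap : ℝ × ℝ → ℝ × ℝ) volume volume := by
    rw [Measure.volume_eq_prod]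
    exact Measure.measurePreserving_swap
  have hme : MeasurableEmbedding (Prod.swap : ℝ × ℝ → ℝ × ℝ) :=
    MeasurableEquiv.prodComm.measurableEmbedding
  have := hmp.setIntegral_preimage_emb hme (fun p => g p.swap) (Tri R)
  simp only [Prod.swap_swap] at this
  exact this

/-- The energy inequality on the quadrant. -/
theorem core_quad {m : ℕ} (hm : 5 ≤ m) {R : ℝ} {u us ut uss utt V Vs Vt : ℝ → ℝ → ℝ}
    (hu : Sol2 m u us ut uss utt) (hodd : ∀ s t, u t s = -u s t)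
    (cV : Continuous fun p : ℝ × ℝ => V p.1 p.2) (cVs : Continuous fun p : ℝ × ℝ => Vs p.1 p.2)
    (cVt : Continuous fun p : ℝ × ℝ => Vt p.1 p.2)
    (dV_s : ∀ s t, HasDerivAt (fun s => V s t) (Vs s t) s)
    (dV_t : ∀ s t, HasDerivAt (fun t => V s t) (Vt s t) t)
    (VR : ∀ t, 0 < t → t < R → V R t = u R t) (VR' : ∀ t, 0 < t → t < R → V t R = u t R) :
    0 ≤ ∫ p in Sq R, p.1 ^ (m - 1) * p.2 ^ (m - 1) *
      (1 / 2 * (Vs p.1 p.2 ^ 2 + Vt p.1 p.2 ^ 2) + 1 / 4 * (1 - V p.1 p.2 ^ 2) ^ 2 -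
        1 / 2 * (us p.1 p.2 ^ 2 + ut p.1 p.2 ^ 2) - 1 / 4 * (1 - u p.1 p.2 ^ 2) ^ 2) := by
  have cu := hu.cu
  have cus := hu.cus
  have cut := hu.cut
  have hswap : ∀ s t, us t s = -ut s t := by
    intro s t
    have h1 := hu.du_s t s
    have h2 : HasDerivAt (fun x => u x s) (-ut s t) t := by
      have := (hu.du_t s t).neg
      refine this.congr_of_eventuallyEq (Filter.Eventually.of_forall fun x => ?_)
      simp only [Pi.neg_apply]
      exact hodd s x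
    exact h1.unique h2
  have hswap' : ∀ s t, ut t s = -us s t := fun s t => by
    rw [hswap t s, neg_neg]
  have cV' : Continuous fun p : ℝ × ℝ => V p.2 p.1 := cV.comp continuous_swap
  have cVs' : Continuous fun p : ℝ × ℝ => Vs p.2 p.1 := cVs.comp continuous_swap
  have cVt' : Continuous fun p : ℝ × ℝ => Vt p.2 p.1 := cVt.comp continuous_swap
  have main := core_tri hm (R := R) hu (e := fun s t => (V s t + V t s) / 2)
    (es := fun s t => (Vs s t + Vt t s) / 2) (et := fun s t => (Vt s t + Vs t s) / 2)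
    (o := fun s t => (V s t - V t s) / 2) (os := fun s t => (Vs s t - Vt t s) / 2)
    (ot := fun s t => (Vt s t - Vs t s) / 2) (by fun_prop) (by fun_prop) (by fun_prop)
    (by fun_prop) (by fun_prop) (by fun_prop)
    (fun s t => ((dV_s s t).add (dV_t t s)).div_const 2)
    (fun s t => ((dV_t s t).add (dV_s t s)).div_const 2)
    (fun s t => ((dV_s s t).sub (dV_t t s)).div_const 2)
    (fun s t => ((dV_t s t).sub (dV_s t s)).div_const 2)
    (fun s => by simp) (fun t h1 h2 => by rw [VR t h1 h2, VR' t h1 h2, hodd R t]; ring)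
    (fun t h1 h2 => by rw [VR t h1 h2, VR' t h1 h2, hodd R t]; ring)
  have hint : IntegrableOn (fun p : ℝ × ℝ => p.1 ^ (m - 1) * p.2 ^ (m - 1) *
      (1 / 2 * (Vs p.1 p.2 ^ 2 + Vt p.1 p.2 ^ 2) + 1 / 4 * (1 - V p.1 p.2 ^ 2) ^ 2 -
        1 / 2 * (us p.1 p.2 ^ 2 + ut p.1 p.2 ^ 2) - 1 / 4 * (1 - u p.1 p.2 ^ 2) ^ 2)) (Sq R) := by
    have hcont : Continuous (fun p : ℝ × ℝ => p.1 ^ (m - 1) * p.2 ^ (m - 1) *
      (1 / 2 * (Vs p.1 p.2 ^ 2 + Vt p.1 p.2 ^ 2) + 1 / 4 * (1 - V p.1 p.2 ^ 2) ^ 2 -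
        1 / 2 * (us p.1 p.2 ^ 2 + ut p.1 p.2 ^ 2) - 1 / 4 * (1 - u p.1 p.2 ^ 2) ^ 2)) := by
      fun_prop
    refine (hcont.continuousOn.integrableOn_compact
      (isCompact_Icc.prod isCompact_Icc : IsCompact (Icc 0 R ×ˢ Icc 0 R))).mono_set ?_
    exact prod_mono Ioo_subset_Icc_self Ioo_subset_Icc_self
  rw [setIntegral_Sq hint]
  have i1 := hint.mono_set (show Tri R ⊆ Sq R from fun p hp =>
    ⟨⟨hp.1.trans hp.2.1, hp.2.2⟩, ⟨hp.1, hp.2.1.trans hp.2.2⟩⟩)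
  have i2 : IntegrableOn (fun p : ℝ × ℝ => (fun p : ℝ × ℝ => p.1 ^ (m - 1) * p.2 ^ (m - 1) *
      (1 / 2 * (Vs p.1 p.2 ^ 2 + Vt p.1 p.2 ^ 2) + 1 / 4 * (1 - V p.1 p.2 ^ 2) ^ 2 -
        1 / 2 * (us p.1 p.2 ^ 2 + ut p.1 p.2 ^ 2) - 1 / 4 * (1 - u p.1 p.2 ^ 2) ^ 2)) p.swap)
      (Tri R) := by
    have hcont : Continuous (fun p : ℝ × ℝ => p.1 ^ (m - 1) * p.2 ^ (m - 1) *
      (1 / 2 * (Vs p.1 p.2 ^ 2 + Vt p.1 p.2 ^ 2) + 1 / 4 * (1 - V p.1 p.2 ^ 2) ^ 2 -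
        1 / 2 * (us p.1 p.2 ^ 2 + ut p.1 p.2 ^ 2) - 1 / 4 * (1 - u p.1 p.2 ^ 2) ^ 2)) := by
      fun_prop
    exact (Good.of_continuousOn (hcont.comp continuous_swap).continuousOn).integrableOn
  rw [← integral_add i1 i2]
  refine main.trans_eq (setIntegral_congr_fun (measurableSet_Tri R) fun p hp => ?_)
  simp only [Prod.fst_swap, Prod.snd_swap]
  rw [hodd p.1 p.2, hswap p.1 p.2, hswap' p.1 p.2]
  ring

end

end Pool.Agent.Lib.MP_98c801_an
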