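import Mathlib
import Pool.Agent.Lib.MP_98c801_an.Core

/-!
Double polar coordinates in `ℝ^m × ℝ^m`.
-/

namespace Pool.Agent.Lib.MP_98c801_an

open Real Set MeasureTheory Filter Topology Metric
open scoped ENNReal

noncomputable section

/-- `ℝ^m` -/
abbrev Hs (m : ℕ) := EuclideanSpace ℝ (Fin m)

/-- `ℝ^{2m}`, with coordinates indexed by `Fin m ⊕ Fin m`. -/
abbrev Es (m : ℕ) := EuclideanSpace ℝ (Fin m ⊕ Fin m)

/-- the point `(x, y)` of `ℝ^m × ℝ^m = ℝ^{2m}` -/
def emb {m : ℕ} (x y : Hs m) : Es m := WithLp.toLp 2 (Sum.elim (WithLp.ofLp x) (WithLp.ofLp y))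

variable {m : ℕ}

lemma measurePreserving_emb :
    MeasurePreserving (fun p : Hs m × Hs m => emb p.1 p.2) volume volume := by
  have h1 : MeasurePreserving (Prod.map (WithLp.ofLp : Hs m → Fin m → ℝ)
      (WithLp.ofLp : Hs m → Fin m → ℝ)) volume volume :=
    (PiLp.volume_preserving_ofLp (Fin m)).prod (PiLp.volume_preserving_ofLp (Fin m))
  have h2 := volume_measurePreserving_sumPiEquivProdPi_symm (ι := Fin m) (ι' := Fin m)
    (fun _ : Fin m ⊕ Fin m => ℝ)
  have h3 := PiLp.volume_preserving_toLp (Fin m ⊕ Fin m)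
  have h4 := h3.comp (h2.comp h1)
  have e : (fun p : Hs m × Hs m => emb p.1 p.2) = (WithLp.toLp 2) ∘
      ⇑(MeasurableEquiv.sumPiEquivProdPi fun _ : Fin m ⊕ Fin m => ℝ).symm ∘
      Prod.map (WithLp.ofLp : Hs m → Fin m → ℝ) (WithLp.ofLp : Hs m → Fin m → ℝ) := by
    funext p
    simp only [emb, Function.comp_apply]
    congr 1
  rw [e]
  exact h4

/-- weight on the half line -/
def wI (m : ℕ) : Measure (Ioi (0 : ℝ)) := Measure.volumeIoiPow (Module.finrank ℝ (Hs m) - 1)

instance : SigmaFinite (wI m) := by unfold wI; infer_instance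

/-- the surface measure -/
def sg (m : ℕ) : Measure (sphere (0 : Hs m) 1) := (volume : Measure (Hs m)).toSphere

instance : IsFiniteMeasure (sg m) := by unfold sg; infer_instance

lemma measurePreserving_polar (hm : 1 ≤ m) :
    MeasurePreserving (fun p : sphere (0 : Hs m) 1 × Ioi (0 : ℝ) => p.2.1 • (p.1.1 : Hs m))
      ((sg m).prod (wI m)) volume := by
  have : Nonempty (Fin m) := ⟨⟨0, hm⟩⟩
  have h1 := (volume : Measure (Hs m)).measurePreserving_homeomorphUnitSphereProd
  have h2 : MeasurePreserving (homeomorphUnitSphereProd (Hs m)).toMeasurableEquiv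
      ((volume : Measure (Hs m)).comap (↑))
      ((volume : Measure (Hs m)).toSphere.prod
        (Measure.volumeIoiPow (Module.finrank ℝ (Hs m) - 1))) := h1
  have h3 := h2.symm
  have h4 : MeasurePreserving (Subtype.val : ({0}ᶜ : Set (Hs m)) → Hs m)
      ((volume : Measure (Hs m)).comap (↑)) (volume.restrict {0}ᶜ) :=
    measurePreserving_subtype_coe (measurableSet_singleton _).compl
  rw [restrict_compl_singleton] at h4
  exact h4.comp h3

/-- the rearrangement of a fourfold product -/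
lemma measurePreserving_rearr {α β : Type*} [MeasurableSpace α] [MeasurableSpace β]
    (μ : Measure α) (ν : Measure β) [SFinite μ] [SFinite ν] :
    MeasurePreserving (fun p : (α × α) × (β × β) => ((p.1.1, p.2.1), (p.1.2, p.2.2)))
      ((μ.prod μ).prod (ν.prod ν)) ((μ.prod ν).prod (μ.prod ν)) := by
  have a1 := measurePreserving_prodAssoc μ μ (ν.prod ν)
  have b2 : MeasurePreserving (MeasurableEquiv.prodAssoc (α := α) (β := β) (γ := β)).symm
      (μ.prod (ν.prod ν)) ((μ.prod ν).prod ν) := (measurePreserving_prodAssoc μ ν ν).symm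
  have a2 := (MeasurePreserving.id μ).prod b2
  have b3 := (Measure.measurePreserving_swap (μ := μ) (ν := ν)).prod (MeasurePreserving.id ν)
  have a3 := (MeasurePreserving.id μ).prod b3
  have b4 := measurePreserving_prodAssoc ν μ ν
  have a4 := (MeasurePreserving.id μ).prod b4
  have a5 : MeasurePreserving (MeasurableEquiv.prodAssoc (α := α) (β := β) (γ := α × β)).symm
      (μ.prod (ν.prod (μ.prod ν))) ((μ.prod ν).prod (μ.prod ν)) :=
    (measurePreserving_prodAssoc μ ν (μ.prod ν)).symm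
  exact a5.comp (a4.comp (a3.comp (a2.comp a1)))

/-- double polar coordinates -/
def Th (m : ℕ) (p : (sphere (0 : Hs m) 1 × sphere (0 : Hs m) 1) × (Ioi (0 : ℝ) × Ioi (0 : ℝ))) :
    Es m :=
  emb (p.2.1.1 • (p.1.1.1 : Hs m)) (p.2.2.1 • (p.1.2.1 : Hs m))

lemma measurePreserving_Th (hm : 1 ≤ m) :
    MeasurePreserving (Th m) (((sg m).prod (sg m)).prod ((wI m).prod (wI m))) volume := by
  have h1 := measurePreserving_rearr (sg m) (wI m)
  have h2 := (measurePreserving_polar hm).prod (measurePreserving_polar hm)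
  exact measurePreserving_emb.comp (h2.comp h1)

lemma polar_nonneg (hm : 1 ≤ m) {D : Es m → ℝ} (hD : Integrable D)
    (hpos : ∀ ω : sphere (0 : Hs m) 1 × sphere (0 : Hs m) 1,
      0 ≤ ∫ p, D (Th m (ω, p)) ∂((wI m).prod (wI m))) : 0 ≤ ∫ x, D x := by
  have hΘ := measurePreserving_Th hm
  have e1 : ∫ x, D x = ∫ p, D (Th m p) ∂(((sg m).prod (sg m)).prod ((wI m).prod (wI m))) := by
    rw [← hΘ.map_eq]
    refine integral_map hΘ.aemeasurable ?_
    rw [hΘ.map_eq]
    exact hD.aestronglyMeasurable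
  have hi : Integrable (fun p => D (Th m p)) (((sg m).prod (sg m)).prod ((wI m).prod (wI m))) :=
    hΘ.integrable_comp_of_integrable hD
  rw [e1, integral_prod _ hi]
  exact integral_nonneg fun ω => hpos ω

instance sigmaFinite_comapIoi :
    SigmaFinite (Measure.comap Subtype.val volume : Measure (Ioi (0 : ℝ))) := by
  have h : Measure.volumeIoiPow 0 =
      (Measure.comap Subtype.val volume : Measure (Ioi (0 : ℝ))) := by
    unfold Measure.volumeIoiPow
    have : (fun r : Ioi (0 : ℝ) => ENNReal.ofReal (r.1 ^ 0)) = 1 := by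
      funext r
      simp
    rw [this, withDensity_one]
  rw [← h]
  infer_instance

lemma integral_wI (F : ℝ × ℝ → ℝ) :
    ∫ p, F (p.1.1, p.2.1) ∂((wI m).prod (wI m)) =
      ∫ p in Ioi (0 : ℝ) ×ˢ Ioi (0 : ℝ), p.1 ^ (m - 1) * p.2 ^ (m - 1) * F p := by
  have hdim : Module.finrank ℝ (Hs m) = m := finrank_euclideanSpace_fin
  have hmeas : Measurable fun r : Ioi (0 : ℝ) => ENNReal.ofReal (r.1 ^ (m - 1)) := by fun_prop
  have h1 : (wI m).prod (wI m) = ((Measure.comap Subtype.val volume : Measure (Ioi (0 : ℝ))).prod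
      (Measure.comap Subtype.val volume)).withDensity
      (fun z => ENNReal.ofReal (z.1.1 ^ (m - 1)) * ENNReal.ofReal (z.2.1 ^ (m - 1))) := by
    unfold wI Measure.volumeIoiPow
    rw [hdim]
    exact prod_withDensity hmeas hmeas
  rw [h1, integral_withDensity_eq_integral_toReal_smul (by fun_prop)
    (Filter.Eventually.of_forall fun z => ENNReal.mul_lt_top ENNReal.ofReal_lt_top
      ENNReal.ofReal_lt_top)]
  have h2 : MeasurePreserving (Prod.map (Subtype.val : Ioi (0 : ℝ) → ℝ) (Subtype.val : Ioi (0 : ℝ) → ℝ))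
      ((Measure.comap Subtype.val volume : Measure (Ioi (0 : ℝ))).prod
      (Measure.comap Subtype.val volume)) (volume.restrict (Ioi (0 : ℝ) ×ˢ Ioi (0 : ℝ))) := by
    have := (measurePreserving_subtype_coe (μa := (volume : Measure ℝ))
      (measurableSet_Ioi (a := (0 : ℝ)))).prod
      (measurePreserving_subtype_coe (μa := (volume : Measure ℝ)) (measurableSet_Ioi (a := (0 : ℝ))))
    rw [Measure.prod_restrict, ← Measure.volume_eq_prod] at this
    exact this
  have h3 : MeasurableEmbedding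
      (Prod.map (Subtype.val : Ioi (0 : ℝ) → ℝ) (Subtype.val : Ioi (0 : ℝ) → ℝ)) :=
    (MeasurableEmbedding.subtype_coe measurableSet_Ioi).prodMap
      (MeasurableEmbedding.subtype_coe measurableSet_Ioi)
  have h4 := h2.integral_comp h3 (fun p : ℝ × ℝ => p.1 ^ (m - 1) * p.2 ^ (m - 1) * F p)
  rw [← h4]
  refine integral_congr_ae (Filter.Eventually.of_forall fun z => ?_)
  have hz1 : 0 < z.1.1 := z.1.2
  have hz2 : 0 < z.2.1 := z.2.2
  simp only [Prod.map_fst, Prod.map_snd, smul_eq_mul]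
  rw [ENNReal.toReal_mul, ENNReal.toReal_ofReal (by positivity),
    ENNReal.toReal_ofReal (by positivity)]
  rfl

end

end Pool.Agent.Lib.MP_98c801_an

/-!
Reduction of the problem in `ℝ^{2m}` to the `(s, t)` plane.
-/

namespace Pool.Agent.Lib.MP_98c801_an

open Real Set MeasureTheory Filter Topology Metric
open scoped ENNReal

noncomputable section

/-- `s = √(x₁² + ⋯ + x_m²)` -/
def sC {m : ℕ} (x : Es m) : ℝ := √(∑ i, x (Sum.inl i) ^ 2)

/-- `t = √(x_{m+1}² + ⋯ + x_{2m}²)` -/
def tC {m : ℕ} (x : Es m) : ℝ := √(∑ i, x (Sum.inr i) ^ 2)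

/-- `u` is a saddle-shaped solution of `-Δu = u - u³` in `ℝ^{2m}`. -/
structure IsSaddleShaped (m : ℕ) (u : Es m → ℝ) : Prop where
  smooth : ContDiff ℝ 2 u
  equation : ∀ x, -(Laplacian.laplacian u x) = u x - u x ^ 3
  radial : ∀ x y, sC x = sC y → tC x = tC y → u x = u y
  pos : ∀ x, tC x < sC x → 0 < u x
  odd : ∀ x y, sC x = tC y → tC x = sC y → u x = -u y

variable {m : ℕ}

lemma sC_emb (x y : Hs m) : sC (emb x y) = ‖x‖ := by
  unfold sC emb
  rw [EuclideanSpace.norm_eq]
  simp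

lemma tC_emb (x y : Hs m) : tC (emb x y) = ‖y‖ := by
  unfold tC emb
  rw [EuclideanSpace.norm_eq]
  simp

lemma emb_add (x y x' y' : Hs m) : emb x y + emb x' y' = emb (x + x') (y + y') := by
  ext i
  cases i <;> simp [emb]

lemma smul_emb (c : ℝ) (x y : Hs m) : c • emb x y = emb (c • x) (c • y) := by
  ext i
  cases i <;> simp [emb]

lemma emb_split (s t : ℝ) (x y : Hs m) : emb (s • x) (t • y) = s • emb x 0 + t • emb 0 y := by
  rw [smul_emb, smul_emb, emb_add]
  simp

lemma inner_emb (x y x' y' : Hs m) :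
    inner ℝ (emb x y) (emb x' y') = inner ℝ x x' + inner ℝ y y' := by
  simp [emb, PiLp.inner_apply, Fintype.sum_sum_type]

lemma norm_sq_emb (x y : Hs m) : ‖emb x y‖ ^ 2 = ‖x‖ ^ 2 + ‖y‖ ^ 2 := by
  rw [← real_inner_self_eq_norm_sq, inner_emb, real_inner_self_eq_norm_sq,
    real_inner_self_eq_norm_sq]

lemma exists_emb (z : Es m) : ∃ x y : Hs m, z = emb x y := by
  refine ⟨WithLp.toLp 2 fun i => z (Sum.inl i), WithLp.toLp 2 fun i => z (Sum.inr i), ?_⟩
  ext i
  cases i <;> simp [emb]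

/-! ### derivatives along lines -/

lemma hasDerivAt_line {f : Es m → ℝ} (hf : ContDiff ℝ 1 f) (x A : Es m) (s : ℝ) :
    HasDerivAt (fun s : ℝ => f (s • A + x)) (fderiv ℝ f (s • A + x) A) s := by
  have h1 : HasDerivAt (fun s : ℝ => s • A + x) A s := by
    simpa using ((hasDerivAt_id s).smul_const A).add_const x
  exact ((hf.differentiable (by norm_num)) _).hasFDerivAt.comp_hasDerivAt s h1

lemma hasDerivAt_line' {f : Es m → ℝ} (hf : ContDiff ℝ 1 f) (x A : Es m) (s : ℝ) :
    HasDerivAt (fun s : ℝ => f (x + s • A)) (fderiv ℝ f (x + s • A) A) s := by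
  have := hasDerivAt_line hf x A s
  simpa only [add_comm] using this

lemma contDiff_dir {u : Es m → ℝ} (hu : ContDiff ℝ 2 u) (A : Es m) :
    ContDiff ℝ 1 (fun x => fderiv ℝ u x A) :=
  (hu.fderiv_right (m := 1) (by norm_num)).clm_apply contDiff_const

/-- second derivative in a perpendicular direction -/
lemma perp_second {u : Es m → ℝ} (hu : ContDiff ℝ 2 u) {x e : Es m} {g g' : ℝ → ℝ} {σ : ℝ}
    (hσ : 0 < σ) (hg : ∀ y, HasDerivAt g (g' y) y) (hg' : Continuous g')
    (h : ∀ ε : ℝ, u (x + ε • e) = g √(σ ^ 2 + ε ^ 2)) :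
    fderiv ℝ (fun y => fderiv ℝ u y e) x e = g' σ / σ := by
  have hpos : ∀ ε : ℝ, 0 < σ ^ 2 + ε ^ 2 := fun ε => by positivity
  have k1 : ∀ ε : ℝ, fderiv ℝ u (x + ε • e) e =
      ε * (g' √(σ ^ 2 + ε ^ 2) / √(σ ^ 2 + ε ^ 2)) := by
    intro ε
    have d1 := hasDerivAt_line' (hu.of_le (by norm_num)) x e ε
    have d2 : HasDerivAt (fun ε : ℝ => √(σ ^ 2 + ε ^ 2)) (ε / √(σ ^ 2 + ε ^ 2)) ε := by
      have h1 : HasDerivAt (fun ε : ℝ => σ ^ 2 + ε ^ 2) (2 * ε) ε := by
        simpa using (hasDerivAt_pow 2 ε).const_add (σ ^ 2)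
      refine (h1.sqrt (hpos ε).ne').congr_deriv ?_
      have := Real.sqrt_pos.2 (hpos ε)
      field_simp
    have d3 := HasDerivAt.comp ε (hg √(σ ^ 2 + ε ^ 2)) d2
    have d4 : HasDerivAt (fun ε : ℝ => u (x + ε • e))
        (g' √(σ ^ 2 + ε ^ 2) * (ε / √(σ ^ 2 + ε ^ 2))) ε := by
      refine d3.congr_of_eventuallyEq (Filter.Eventually.of_forall fun y => ?_)
      exact h y
    rw [d1.unique d4]
    ring
  have d5 : HasDerivAt (fun ε : ℝ => fderiv ℝ u (x + ε • e) e)
      (fderiv ℝ (fun y => fderiv ℝ u y e) (x + (0 : ℝ) • e) e) 0 :=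
    hasDerivAt_line' (contDiff_dir hu e) x e 0
  rw [zero_smul, add_zero] at d5
  have d6 : HasDerivAt (fun ε : ℝ => ε * (g' √(σ ^ 2 + ε ^ 2) / √(σ ^ 2 + ε ^ 2)))
      (g' σ / σ) 0 := by
    rw [hasDerivAt_iff_tendsto_slope]
    have hc : Continuous fun ε : ℝ => g' √(σ ^ 2 + ε ^ 2) / √(σ ^ 2 + ε ^ 2) :=
      Continuous.div (hg'.comp (by fun_prop)) (by fun_prop)
        fun ε => (Real.sqrt_pos.2 (hpos ε)).ne'
    have hlim := hc.tendsto 0
    have e0 : √(σ ^ 2 + (0 : ℝ) ^ 2) = σ := by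
      rw [zero_pow two_ne_zero, add_zero, Real.sqrt_sq hσ.le]
    rw [e0] at hlim
    refine (hlim.mono_left nhdsWithin_le_nhds).congr' ?_
    filter_upwards [self_mem_nhdsWithin] with ε hε
    have hε' : ε ≠ 0 := hε
    rw [slope_def_field]
    field_simp
    ring
  have e : (fun ε : ℝ => fderiv ℝ u (x + ε • e) e) =
      fun ε : ℝ => ε * (g' √(σ ^ 2 + ε ^ 2) / √(σ ^ 2 + ε ^ 2)) := funext k1
  rw [e] at d5
  exact d5.unique d6

/-! ### the two-variable function -/

/-- the profile of `u` -/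
def uh (u : Es m → ℝ) (a : Hs m) (s t : ℝ) : ℝ := u (emb (s • a) (t • a))

lemma continuous_emb2 (a b : Hs m) :
    Continuous fun p : ℝ × ℝ => emb (p.1 • a) (p.2 • b) := by
  have : (fun p : ℝ × ℝ => emb (p.1 • a) (p.2 • b)) =
      fun p : ℝ × ℝ => p.1 • emb a 0 + p.2 • emb 0 b := by
    funext p; exact emb_split _ _ _ _
  rw [this]
  fun_prop

lemma hasDerivAt_emb_s {f : Es m → ℝ} (hf : ContDiff ℝ 1 f) (a b : Hs m) (s t : ℝ) :
    HasDerivAt (fun s : ℝ => f (emb (s • a) (t • b)))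
      (fderiv ℝ f (emb (s • a) (t • b)) (emb a 0)) s := by
  have h := hasDerivAt_line hf (t • emb 0 b) (emb a 0) s
  rw [← emb_split] at h
  refine h.congr_of_eventuallyEq (Filter.Eventually.of_forall fun y => ?_)
  simp only
  rw [emb_split]

lemma hasDerivAt_emb_t {f : Es m → ℝ} (hf : ContDiff ℝ 1 f) (a b : Hs m) (s t : ℝ) :
    HasDerivAt (fun t : ℝ => f (emb (s • a) (t • b)))
      (fderiv ℝ f (emb (s • a) (t • b)) (emb 0 b)) t := by
  have h := hasDerivAt_line' hf (s • emb a 0) (emb 0 b) t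
  rw [← emb_split] at h
  refine h.congr_of_eventuallyEq (Filter.Eventually.of_forall fun y => ?_)
  simp only
  rw [emb_split]

lemma continuous_dir {f : Es m → ℝ} (hf : ContDiff ℝ 1 f) (a b : Hs m) (v : Es m) :
    Continuous fun p : ℝ × ℝ => fderiv ℝ f (emb (p.1 • a) (p.2 • b)) v :=
  ((hf.continuous_fderiv (by norm_num)).clm_apply continuous_const).comp (continuous_emb2 a b)

/-- the Laplacian in terms of directional derivatives -/
lemma laplacian_eq {u : Es m → ℝ} (hu : ContDiff ℝ 2 u) (x : Es m) :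
    Laplacian.laplacian u x =
      (∑ i : Fin m, fderiv ℝ (fun y => fderiv ℝ u y (emb (EuclideanSpace.single i 1) 0)) x
        (emb (EuclideanSpace.single i 1) 0)) +
      ∑ i : Fin m, fderiv ℝ (fun y => fderiv ℝ u y (emb 0 (EuclideanSpace.single i 1))) x
        (emb 0 (EuclideanSpace.single i 1)) := by
  rw [InnerProductSpace.laplacian_eq_iteratedFDeriv_orthonormalBasis u
    (EuclideanSpace.basisFun (Fin m ⊕ Fin m) ℝ)]
  simp only [Fintype.sum_sum_type]
  have key : ∀ v : Es m, iteratedFDeriv ℝ 2 u x ![v, v] =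
      fderiv ℝ (fun y => fderiv ℝ u y v) x v := by
    intro v
    rw [iteratedFDeriv_two_apply]
    have h1 : DifferentiableAt ℝ (fderiv ℝ u) x :=
      ((hu.fderiv_right (m := 1) (by norm_num)).differentiable (by norm_num)) x
    rw [fderiv_clm_apply h1 (differentiableAt_const v)]
    simp
  have e1 : ∀ i : Fin m, EuclideanSpace.basisFun (Fin m ⊕ Fin m) ℝ (Sum.inl i) =
      emb (EuclideanSpace.single i 1) 0 := by
    intro i
    ext j
    cases j <;> simp [emb]
  have e2 : ∀ i : Fin m, EuclideanSpace.basisFun (Fin m ⊕ Fin m) ℝ (Sum.inr i) =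
      emb 0 (EuclideanSpace.single i 1) := by
    intro i
    ext j
    cases j <;> simp [emb]
  simp only [key, e1, e2]

lemma norm_smul_unit {a : Hs m} (ha : ‖a‖ = 1) (s : ℝ) : ‖s • a‖ = |s| := by
  rw [norm_smul, ha, mul_one, Real.norm_eq_abs]

lemma norm_add_perp {a e : Hs m} (ha : ‖a‖ = 1) (he : ‖e‖ = 1) (hae : inner ℝ a e = 0) (s ε : ℝ) :
    ‖s • a + ε • e‖ = √(s ^ 2 + ε ^ 2) := by
  rw [← Real.sqrt_sq (norm_nonneg (s • a + ε • e))]
  congr 1
  rw [norm_add_sq_real, norm_smul_unit ha, norm_smul_unit he, real_inner_smul_left,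
    real_inner_smul_right, hae, sq_abs, sq_abs]
  ring

/-- The saddle-shaped solution gives a solution in the `(s, t)` variables. -/
lemma sol2_of_saddle {u : Es m → ℝ} (hu : IsSaddleShaped m u) (i0 : Fin m) :
    Sol2 m (uh u (EuclideanSpace.single i0 1))
      (fun s t => fderiv ℝ u (emb (s • EuclideanSpace.single i0 1)
        (t • EuclideanSpace.single i0 1)) (emb (EuclideanSpace.single i0 1) 0))
      (fun s t => fderiv ℝ u (emb (s • EuclideanSpace.single i0 1)
        (t • EuclideanSpace.single i0 1)) (emb 0 (EuclideanSpace.single i0 1)))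
      (fun s t => fderiv ℝ (fun x => fderiv ℝ u x (emb (EuclideanSpace.single i0 1) 0))
        (emb (s • EuclideanSpace.single i0 1)
        (t • EuclideanSpace.single i0 1)) (emb (EuclideanSpace.single i0 1) 0))
      (fun s t => fderiv ℝ (fun x => fderiv ℝ u x (emb 0 (EuclideanSpace.single i0 1)))
        (emb (s • EuclideanSpace.single i0 1)
        (t • EuclideanSpace.single i0 1)) (emb 0 (EuclideanSpace.single i0 1))) := by
  have h2 := hu.smooth
  have h1 : ContDiff ℝ 1 u := h2.of_le (by norm_num)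
  obtain ⟨a, ha⟩ : ∃ a : Hs m, a = EuclideanSpace.single i0 1 := ⟨_, rfl⟩
  rw [← ha]
  have hna : ‖a‖ = 1 := by rw [ha]; simp
  have c1 := continuous_emb2 a a
  have hsC : ∀ s t : ℝ, sC (emb (s • a) (t • a)) = |s| := fun s t => by
    rw [sC_emb, norm_smul_unit hna]
  have htC : ∀ s t : ℝ, tC (emb (s • a) (t • a)) = |t| := fun s t => by
    rw [tC_emb, norm_smul_unit hna]
  have hpos : ∀ s t : ℝ, 0 ≤ t → t < s → 0 < uh u a s t := fun s t ht hts => by
    refine hu.pos _ ?_
    rw [hsC, htC, abs_of_nonneg ht, abs_of_pos (ht.trans_lt hts)]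
    exact hts
  have hdiag : ∀ s : ℝ, uh u a s s = 0 := fun s => by
    have := hu.odd (emb (s • a) (s • a)) (emb (s • a) (s • a)) (by rw [hsC, htC])
      (by rw [hsC, htC])
    unfold uh
    linarith
  constructor
  · exact h2.continuous.comp c1
  · exact continuous_dir h1 a a _
  · exact continuous_dir h1 a a _
  · exact continuous_dir (contDiff_dir h2 _) a a _
  · exact continuous_dir (contDiff_dir h2 _) a a _
  · exact fun s t => hasDerivAt_emb_s h1 a a s t
  · exact fun s t => hasDerivAt_emb_t h1 a a s t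
  · exact fun s t => hasDerivAt_emb_s (contDiff_dir h2 _) a a s t
  · exact fun s t => hasDerivAt_emb_t (contDiff_dir h2 _) a a s t
  · intro s t ht hts
    have hs : 0 < s := ht.trans hts
    have heq := hu.equation (emb (s • a) (t • a))
    rw [laplacian_eq h2] at heq
    have hperp : ∀ i : Fin m, i ≠ i0 → ‖(EuclideanSpace.single i 1 : Hs m)‖ = 1 ∧
        inner ℝ a (EuclideanSpace.single i 1 : Hs m) = 0 := fun i hi => by
      refine ⟨by simp, ?_⟩
      rw [ha]
      simp [EuclideanSpace.inner_single_left, hi.symm]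
    have f1 : ∀ i : Fin m, i ≠ i0 →
        fderiv ℝ (fun y => fderiv ℝ u y (emb (EuclideanSpace.single i 1) 0)) (emb (s • a) (t • a))
        (emb (EuclideanSpace.single i 1) 0) =
        fderiv ℝ u (emb (s • a) (t • a)) (emb a 0) / s := by
      intro i hi
      obtain ⟨he, hae⟩ := hperp i hi
      refine perp_second h2 hs (g := fun σ => u (emb (σ • a) (t • a)))
        (g' := fun σ => fderiv ℝ u (emb (σ • a) (t • a)) (emb a 0))
        (fun y => hasDerivAt_emb_s h1 a a y t) ?_ fun ε => ?_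
      · exact (continuous_dir h1 a a (emb a 0)).comp
          (by fun_prop : Continuous fun σ : ℝ => ((σ, t) : ℝ × ℝ))
      · refine hu.radial _ _ ?_ ?_
        · rw [smul_emb, emb_add, sC_emb, sC_emb, norm_add_perp hna he hae, norm_smul_unit hna,
            abs_of_nonneg (Real.sqrt_nonneg _)]
        · rw [smul_emb, emb_add, tC_emb, tC_emb, smul_zero, add_zero]
    have f2 : ∀ i : Fin m, i ≠ i0 →
        fderiv ℝ (fun y => fderiv ℝ u y (emb 0 (EuclideanSpace.single i 1))) (emb (s • a) (t • a))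
        (emb 0 (EuclideanSpace.single i 1)) =
        fderiv ℝ u (emb (s • a) (t • a)) (emb 0 a) / t := by
      intro i hi
      obtain ⟨he, hae⟩ := hperp i hi
      refine perp_second h2 ht (g := fun σ => u (emb (s • a) (σ • a)))
        (g' := fun σ => fderiv ℝ u (emb (s • a) (σ • a)) (emb 0 a))
        (fun y => hasDerivAt_emb_t h1 a a s y) ?_ fun ε => ?_
      · exact (continuous_dir h1 a a (emb 0 a)).comp
          (by fun_prop : Continuous fun σ : ℝ => ((s, σ) : ℝ × ℝ))
      · refine hu.radial _ _ ?_ ?_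
        · rw [smul_emb, emb_add, sC_emb, sC_emb, smul_zero, add_zero]
        · rw [smul_emb, emb_add, tC_emb, tC_emb, norm_add_perp hna he hae, norm_smul_unit hna,
            abs_of_nonneg (Real.sqrt_nonneg _)]
    have hsum : ∀ (F : Fin m → ℝ) (A B : ℝ), F i0 = A → (∀ i, i ≠ i0 → F i = B) →
        ∑ i, F i = A + ((m : ℝ) - 1) * B := by
      intro F A B hA hB
      rw [← Finset.add_sum_erase _ _ (Finset.mem_univ i0), hA]
      have : ∑ i ∈ Finset.univ.erase i0, F i = ∑ i ∈ Finset.univ.erase i0, B :=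
        Finset.sum_congr rfl fun i hi => hB i (Finset.ne_of_mem_erase hi)
      rw [this, Finset.sum_const, Finset.card_erase_of_mem (Finset.mem_univ i0), Finset.card_univ,
        Fintype.card_fin, nsmul_eq_mul, Nat.cast_sub (by have := i0.2; omega)]
      simp
    rw [hsum _ _ _ (by rw [← ha]) f1, hsum _ _ _ (by rw [← ha]) f2] at heq
    unfold uh
    linarith
  · exact fun s t ht hts => hpos s t ht.le hts
  · intro s t ht hts
    rcases eq_or_lt_of_le hts with h | h
    · rw [h, hdiag]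
    · exact (hpos s t ht h).le
  · exact hdiag

end

end Pool.Agent.Lib.MP_98c801_an

/-!
The energy inequality for compactly supported `C¹` perturbations.
-/

namespace Pool.Agent.Lib.MP_98c801_an

open Real Set MeasureTheory Filter Topology Metric
open scoped ENNReal

noncomputable section

variable {m : ℕ}

/-- the energy density -/
def dens (v : Es m → ℝ) (G : Es m → Es m) (x : Es m) : ℝ :=
  1 / 2 * ‖G x‖ ^ 2 + 1 / 4 * (1 - v x ^ 2) ^ 2

lemma inner_gradient {f : Es m → ℝ} {x : Es m} (v : Es m) :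
    inner ℝ (gradient f x) v = fderiv ℝ f x v := by
  unfold gradient
  exact InnerProductSpace.toDual_symm_apply

lemma continuous_gradient {f : Es m → ℝ} (hf : ContDiff ℝ 1 f) : Continuous (gradient f) := by
  unfold gradient
  exact (InnerProductSpace.toDual ℝ (Es m)).symm.continuous.comp
    (hf.continuous_fderiv (by norm_num))

/-- for a saddle-shaped function the derivative vanishes in perpendicular directions -/
lemma fderiv_perp {u : Es m → ℝ} (hu : IsSaddleShaped m u) {a b η1 η2 : Hs m}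
    (h1 : inner ℝ a η1 = 0) (h2 : inner ℝ b η2 = 0) (s t : ℝ) :
    fderiv ℝ u (emb (s • a) (t • b)) (emb η1 η2) = 0 := by
  have hc : ContDiff ℝ 1 u := hu.smooth.of_le (by norm_num)
  have d1 := hasDerivAt_line' hc (emb (s • a) (t • b)) (emb η1 η2) 0
  rw [zero_smul, add_zero] at d1
  have d2 : HasDerivAt (fun ε : ℝ => u (emb (s • a) (t • b) + ε • emb η1 η2))
      (-(fderiv ℝ u (emb (s • a) (t • b)) (emb η1 η2))) 0 := by
    have d3 : HasDerivAt (fun ε : ℝ => u (emb (s • a) (t • b) + ε • emb η1 η2))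
        (fderiv ℝ u (emb (s • a) (t • b)) (emb η1 η2)) (-0) := by
      rw [neg_zero]; exact d1
    have d4 := HasDerivAt.comp (0 : ℝ) d3 (hasDerivAt_neg (0 : ℝ))
    rw [mul_neg_one] at d4
    refine d4.congr_of_eventuallyEq (Filter.Eventually.of_forall fun ε => ?_)
    simp only [Function.comp_apply]
    have hn : ∀ (x η : Hs m) (r ε : ℝ), inner ℝ x η = 0 →
        ‖r • x + ε • η‖ = ‖r • x + (-ε) • η‖ := by
      intro x η r ε hx
      have e1 : ‖r • x + ε • η‖ ^ 2 = ‖r • x + (-ε) • η‖ ^ 2 := by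
        rw [norm_add_sq_real, norm_add_sq_real, real_inner_smul_left, real_inner_smul_right,
          real_inner_smul_left, real_inner_smul_right, hx, neg_smul, norm_neg]
        ring
      exact (sq_eq_sq₀ (norm_nonneg _) (norm_nonneg _)).1 e1
    refine hu.radial _ _ ?_ ?_
    · rw [smul_emb, smul_emb, emb_add, emb_add, sC_emb, sC_emb]
      exact hn a η1 s ε h1
    · rw [smul_emb, smul_emb, emb_add, emb_add, tC_emb, tC_emb]
      exact hn b η2 t ε h2
  have := d1.unique d2
  linarith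

lemma norm_emb_unit {a : Hs m} (ha : ‖a‖ = 1) : ‖emb a (0 : Hs m)‖ = 1 ∧ ‖emb (0 : Hs m) a‖ = 1 := by
  constructor
  · have := norm_sq_emb a (0 : Hs m)
    rw [ha, norm_zero] at this
    have h0 := norm_nonneg (emb a (0 : Hs m))
    nlinarith
  · have := norm_sq_emb (0 : Hs m) a
    rw [ha, norm_zero] at this
    have h0 := norm_nonneg (emb (0 : Hs m) a)
    nlinarith

/-- Bessel inequality for the gradient -/
lemma bessel {f : Es m → ℝ} {x : Es m} {a b : Hs m} (ha : ‖a‖ = 1) (hb : ‖b‖ = 1) :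
    fderiv ℝ f x (emb a 0) ^ 2 + fderiv ℝ f x (emb 0 b) ^ 2 ≤ ‖gradient f x‖ ^ 2 := by
  set g := gradient f x with hg
  set A := emb a (0 : Hs m) with hA
  set B := emb (0 : Hs m) b with hB
  have hAB : inner ℝ A B = 0 := by rw [hA, hB, inner_emb]; simp
  have hAA : inner ℝ A A = 1 := by rw [real_inner_self_eq_norm_sq, (norm_emb_unit ha).1]; norm_num
  have hBB : inner ℝ B B = 1 := by rw [real_inner_self_eq_norm_sq, (norm_emb_unit hb).2]; norm_num
  have hα : fderiv ℝ f x A = inner ℝ g A := (inner_gradient A).symm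
  have hβ : fderiv ℝ f x B = inner ℝ g B := (inner_gradient B).symm
  rw [hα, hβ]
  have h0 : 0 ≤ ‖g - (inner ℝ g A) • A - (inner ℝ g B) • B‖ ^ 2 := by positivity
  have e : ‖g - (inner ℝ g A) • A - (inner ℝ g B) • B‖ ^ 2 =
      ‖g‖ ^ 2 - inner ℝ g A ^ 2 - inner ℝ g B ^ 2 := by
    rw [← real_inner_self_eq_norm_sq, ← real_inner_self_eq_norm_sq]
    have hBA : inner ℝ B A = 0 := by rw [real_inner_comm]; exact hAB
    simp only [inner_sub_left, inner_sub_right, real_inner_smul_left, real_inner_smul_right,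
      hAA, hBB, hAB, hBA, real_inner_comm A g, real_inner_comm B g]
    ring
  rw [e] at h0
  linarith

/-- for a saddle-shaped function the gradient lies in the `(s, t)` plane -/
lemma norm_gradient_le {u : Es m → ℝ} (hu : IsSaddleShaped m u) {a b : Hs m} (ha : ‖a‖ = 1)
    (hb : ‖b‖ = 1) (s t : ℝ) :
    ‖gradient u (emb (s • a) (t • b))‖ ^ 2 ≤
      fderiv ℝ u (emb (s • a) (t • b)) (emb a 0) ^ 2 +
      fderiv ℝ u (emb (s • a) (t • b)) (emb 0 b) ^ 2 := by
  set x := emb (s • a) (t • b) with hx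
  set g := gradient u x with hg
  obtain ⟨g1, g2, hg12⟩ := exists_emb g
  have hα : fderiv ℝ u x (emb a 0) = inner ℝ g1 a := by
    rw [← inner_gradient, ← hg, hg12, inner_emb, inner_zero_right, add_zero]
  have hβ : fderiv ℝ u x (emb 0 b) = inner ℝ g2 b := by
    rw [← inner_gradient, ← hg, hg12, inner_emb, inner_zero_right, zero_add]
  have haa : inner ℝ a a = (1 : ℝ) := by rw [real_inner_self_eq_norm_sq, ha]; norm_num
  have hbb : inner ℝ b b = (1 : ℝ) := by rw [real_inner_self_eq_norm_sq, hb]; norm_num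
  have h1 : inner ℝ a (g1 - (inner ℝ g1 a) • a) = 0 := by
    rw [inner_sub_right, real_inner_smul_right, haa, real_inner_comm]; ring
  have h2 : inner ℝ b (g2 - (inner ℝ g2 b) • b) = 0 := by
    rw [inner_sub_right, real_inner_smul_right, hbb, real_inner_comm]; ring
  have h3 := fderiv_perp hu h1 h2 s t
  rw [← hx, ← inner_gradient, ← hg, hg12, inner_emb, inner_sub_right, inner_sub_right,
    real_inner_smul_right, real_inner_smul_right, real_inner_self_eq_norm_sq,
    real_inner_self_eq_norm_sq] at h3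
  rw [hg12, norm_sq_emb, hα, hβ]
  linarith

/-- The energy inequality for compactly supported `C¹` perturbations. -/
theorem energy_C1 (hm : 5 ≤ m) {u φ : Es m → ℝ} (hu : IsSaddleShaped m u) (hφ : ContDiff ℝ 1 φ)
    (hφc : HasCompactSupport φ) :
    0 ≤ ∫ x, (dens (fun x => u x + φ x) (gradient fun x => u x + φ x) x - dens u (gradient u) x) := by
  have hm1 : 1 ≤ m := by omega
  have hc : ContDiff ℝ 1 u := hu.smooth.of_le (by norm_num)
  have hv : ContDiff ℝ 1 (fun x => u x + φ x) := hc.add hφ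
  set D : Es m → ℝ := fun x => dens (fun x => u x + φ x) (gradient fun x => u x + φ x) x -
    dens u (gradient u) x with hD
  have cgv := continuous_gradient hv
  have cgu := continuous_gradient hc
  have cu := hc.continuous
  have cφ := hφ.continuous
  have hDc : Continuous D := by
    simp only [hD, dens]
    fun_prop
  -- outside the support of `φ`
  have hD0 : ∀ x, x ∉ tsupport φ → D x = 0 := by
    intro x hx
    have h1 : φ x = 0 := image_eq_zero_of_notMem_tsupport hx
    have h2 : gradient (fun x => u x + φ x) x = gradient u x := by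
      have h3 : (fun x => u x + φ x) =ᶠ[𝓝 x] u := by
        have : ∀ᶠ y in 𝓝 x, y ∉ tsupport φ :=
          (isClosed_tsupport φ).isOpen_compl.mem_nhds hx
        filter_upwards [this] with y hy
        rw [image_eq_zero_of_notMem_tsupport hy, add_zero]
      unfold gradient
      rw [h3.fderiv_eq]
    simp only [hD, dens, h1, h2, add_zero, sub_self]
  have hDcs : HasCompactSupport D := HasCompactSupport.intro hφc hD0
  obtain ⟨R0, hR0⟩ := hφc.isBounded.subset_closedBall (0 : Es m)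
  set R : ℝ := max R0 0 + 1 with hR
  have hRpos : 0 < R := by
    have := le_max_right R0 0
    linarith
  have hfar : ∀ x : Es m, R ≤ ‖x‖ → x ∉ tsupport φ := by
    intro x hx hxs
    have := hR0 hxs
    rw [mem_closedBall_zero_iff] at this
    have h2 := le_max_left R0 0
    linarith
  refine polar_nonneg hm1 (hDc.integrable_of_hasCompactSupport hDcs) fun ω => ?_
  set a : Hs m := ω.1.1 with ha
  set b : Hs m := ω.2.1 with hb
  have hna : ‖a‖ = 1 := mem_sphere_zero_iff_norm.1 ω.1.2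
  have hnb : ‖b‖ = 1 := mem_sphere_zero_iff_norm.1 ω.2.2
  have hnorm : ∀ s t : ℝ, ‖emb (s • a) (t • b)‖ ^ 2 = s ^ 2 + t ^ 2 := fun s t => by
    rw [norm_sq_emb, norm_smul_unit hna, norm_smul_unit hnb, sq_abs, sq_abs]
  have hfar_s : ∀ s t : ℝ, R ≤ s → emb (s • a) (t • b) ∉ tsupport φ := fun s t hs => by
    refine hfar _ ?_
    have := hnorm s t
    nlinarith [norm_nonneg (emb (s • a) (t • b)), sq_nonneg t]
  have hfar_t : ∀ s t : ℝ, R ≤ t → emb (s • a) (t • b) ∉ tsupport φ := fun s t hs => by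
    refine hfar _ ?_
    have := hnorm s t
    nlinarith [norm_nonneg (emb (s • a) (t • b)), sq_nonneg s]
  have e1 : ∫ p, D (Th m (ω, p)) ∂((wI m).prod (wI m)) =
      ∫ p in Ioi (0 : ℝ) ×ˢ Ioi (0 : ℝ), p.1 ^ (m - 1) * p.2 ^ (m - 1) *
        D (emb (p.1 • a) (p.2 • b)) :=
    integral_wI (m := m) (fun p : ℝ × ℝ => D (emb (p.1 • a) (p.2 • b)))
  have e2 : ∫ p in Ioi (0 : ℝ) ×ˢ Ioi (0 : ℝ), p.1 ^ (m - 1) * p.2 ^ (m - 1) *
        D (emb (p.1 • a) (p.2 • b)) =
      ∫ p in Sq R, p.1 ^ (m - 1) * p.2 ^ (m - 1) * D (emb (p.1 • a) (p.2 • b)) := by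
    refine (setIntegral_eq_of_subset_of_forall_sdiff_eq_zero
      (measurableSet_Ioi.prod measurableSet_Ioi) ?_ ?_)
    · exact prod_mono Ioo_subset_Ioi_self Ioo_subset_Ioi_self
    · intro p hp
      have hp1 : 0 < p.1 := hp.1.1
      have hp2 : 0 < p.2 := hp.1.2
      have hne : p ∉ Sq R := hp.2
      have : R ≤ p.1 ∨ R ≤ p.2 := by
        by_contra hcon
        push Not at hcon
        exact hne ⟨⟨hp1, hcon.1⟩, ⟨hp2, hcon.2⟩⟩
      rcases this with h | h
      · rw [hD0 _ (hfar_s p.1 p.2 h), mul_zero]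
      · rw [hD0 _ (hfar_t p.1 p.2 h), mul_zero]
  rw [e1, e2]
  -- the profile of `u`
  let i0 : Fin m := ⟨0, by omega⟩
  have hsol := sol2_of_saddle hu i0
  set e0 : Hs m := EuclideanSpace.single i0 1 with he0
  have hne0 : ‖e0‖ = 1 := by rw [he0]; simp
  have hprof : ∀ s t : ℝ, uh u e0 s t = u (emb (s • a) (t • b)) := fun s t => by
    unfold uh
    refine hu.radial _ _ ?_ ?_
    · rw [sC_emb, sC_emb, norm_smul_unit hne0, norm_smul_unit hna]
    · rw [tC_emb, tC_emb, norm_smul_unit hne0, norm_smul_unit hnb]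
  have hprof_s : ∀ s t : ℝ, fderiv ℝ u (emb (s • e0) (t • e0)) (emb e0 0) =
      fderiv ℝ u (emb (s • a) (t • b)) (emb a 0) := fun s t => by
    have d1 := hasDerivAt_emb_s hc e0 e0 s t
    have d2 := hasDerivAt_emb_s hc a b s t
    refine d1.unique (d2.congr_of_eventuallyEq (Filter.Eventually.of_forall fun y => ?_))
    exact hprof y t
  have hprof_t : ∀ s t : ℝ, fderiv ℝ u (emb (s • e0) (t • e0)) (emb 0 e0) =
      fderiv ℝ u (emb (s • a) (t • b)) (emb 0 b) := fun s t => by
    have d1 := hasDerivAt_emb_t hc e0 e0 s t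
    have d2 := hasDerivAt_emb_t hc a b s t
    refine d1.unique (d2.congr_of_eventuallyEq (Filter.Eventually.of_forall fun y => ?_))
    exact hprof s y
  have hodd : ∀ s t, uh u e0 t s = -uh u e0 s t := fun s t => by
    unfold uh
    refine hu.odd _ _ ?_ ?_
    · rw [sC_emb, tC_emb]
    · rw [sC_emb, tC_emb]
  have main := core_quad hm (R := R) hsol hodd
    (V := fun s t => u (emb (s • a) (t • b)) + φ (emb (s • a) (t • b)))
    (Vs := fun s t => fderiv ℝ (fun x => u x + φ x) (emb (s • a) (t • b)) (emb a 0))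
    (Vt := fun s t => fderiv ℝ (fun x => u x + φ x) (emb (s • a) (t • b)) (emb 0 b))
    (hv.continuous.comp (continuous_emb2 a b)) (continuous_dir hv a b _)
    (continuous_dir hv a b _) (fun s t => hasDerivAt_emb_s hv a b s t)
    (fun s t => hasDerivAt_emb_t hv a b s t)
    (fun t _ _ => by
      rw [image_eq_zero_of_notMem_tsupport (hfar_s R t le_rfl), add_zero, hprof])
    (fun t _ _ => by
      rw [image_eq_zero_of_notMem_tsupport (hfar_t t R le_rfl), add_zero, hprof])
  refine main.trans (setIntegral_mono_on ?_ ?_ (measurableSet_Sq R) fun p hp => ?_)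
  · have hcont := (continuous_dir hv a b (emb a 0))
    have hcont2 := (continuous_dir hv a b (emb 0 b))
    have hcont3 := hsol.cu
    have hcont4 := hsol.cus
    have hcont5 := hsol.cut
    have hcont6 := cu.comp (continuous_emb2 a b)
    have hcont7 := cφ.comp (continuous_emb2 a b)
    simp only [Function.comp_def] at hcont6 hcont7
    have hall : Continuous (fun p : ℝ × ℝ => p.1 ^ (m - 1) * p.2 ^ (m - 1) *
      (1 / 2 * (fderiv ℝ (fun x => u x + φ x) (emb (p.1 • a) (p.2 • b)) (emb a 0) ^ 2 +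
        fderiv ℝ (fun x => u x + φ x) (emb (p.1 • a) (p.2 • b)) (emb 0 b) ^ 2) +
        1 / 4 * (1 - (u (emb (p.1 • a) (p.2 • b)) + φ (emb (p.1 • a) (p.2 • b))) ^ 2) ^ 2 -
        1 / 2 * (fderiv ℝ u (emb (p.1 • e0) (p.2 • e0)) (emb e0 0) ^ 2 +
          fderiv ℝ u (emb (p.1 • e0) (p.2 • e0)) (emb 0 e0) ^ 2) -
        1 / 4 * (1 - uh u e0 p.1 p.2 ^ 2) ^ 2)) :=
      ((continuous_fst.pow _).mul (continuous_snd.pow _)).mul
        ((((continuous_const.mul ((hcont.pow 2).add (hcont2.pow 2))).add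
        (continuous_const.mul (((continuous_const.sub ((hcont6.add hcont7).pow 2))).pow 2))).sub
        (continuous_const.mul ((hcont4.pow 2).add (hcont5.pow 2)))).sub
        (continuous_const.mul ((continuous_const.sub (hcont3.pow 2)).pow 2)))
    exact (hall.continuousOn.integrableOn_compact
      (isCompact_Icc.prod isCompact_Icc : IsCompact (Icc 0 R ×ˢ Icc 0 R))).mono_set
      (prod_mono Ioo_subset_Icc_self Ioo_subset_Icc_self)
  · have hcont := hDc.comp (continuous_emb2 a b)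
    simp only [Function.comp_def] at hcont
    have hall : Continuous (fun p : ℝ × ℝ => p.1 ^ (m - 1) * p.2 ^ (m - 1) *
      D (emb (p.1 • a) (p.2 • b))) :=
      ((continuous_fst.pow _).mul (continuous_snd.pow _)).mul hcont
    exact (hall.continuousOn.integrableOn_compact
      (isCompact_Icc.prod isCompact_Icc : IsCompact (Icc 0 R ×ˢ Icc 0 R))).mono_set
      (prod_mono Ioo_subset_Icc_self Ioo_subset_Icc_self)
  · have hp1 : 0 < p.1 := hp.1.1
    have hp2 : 0 < p.2 := hp.2.1
    have hw : 0 ≤ p.1 ^ (m - 1) * p.2 ^ (m - 1) := by positivity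
    refine mul_le_mul_of_nonneg_left ?_ hw
    have k1 := bessel (f := fun x => u x + φ x) (x := emb (p.1 • a) (p.2 • b)) hna hnb
    have k2 := norm_gradient_le hu hna hnb p.1 p.2
    simp only [hD, dens]
    rw [hprof_s, hprof_t, hprof]
    linarith

end

end Pool.Agent.Lib.MP_98c801_an

/-!
From compactly supported `C¹` perturbations to the whole class `u + H¹₀(B)`.
-/

namespace Pool.Agent.Lib.MP_98c801_an

open Real Set MeasureTheory Filter Topology Metric
open scoped ENNReal ContDiff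

noncomputable section

variable {m : ℕ}

/-- smooth truncation -/
def Tr (ε z : ℝ) : ℝ := z / √(1 + (ε * z) ^ 2)

/-- its derivative -/
def Tr' (ε z : ℝ) : ℝ := 1 / √(1 + (ε * z) ^ 2) ^ 3

lemma one_le_sqrtT (ε z : ℝ) : 1 ≤ √(1 + (ε * z) ^ 2) := by
  rw [show (1 : ℝ) = √1 by simp]
  exact Real.sqrt_le_sqrt (by simpa using sq_nonneg (ε * z))

lemma hasDerivAt_Tr (ε z : ℝ) : HasDerivAt (Tr ε) (Tr' ε z) z := by
  have hp : 0 < 1 + (ε * z) ^ 2 := by positivity
  have h1 : HasDerivAt (fun z : ℝ => 1 + (ε * z) ^ 2) (2 * ε ^ 2 * z) z := by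
    have := (((hasDerivAt_id z).const_mul ε).pow 2).const_add 1
    refine this.congr_deriv ?_
    simp
    ring
  have h2 := (hasDerivAt_id z).div (h1.sqrt hp.ne') (Real.sqrt_pos.2 hp).ne'
  refine h2.congr_deriv ?_
  unfold Tr'
  have h3 := Real.sqrt_pos.2 hp
  have h4 := Real.sq_sqrt hp.le
  simp only [id]
  generalize √(1 + (ε * z) ^ 2) = S at h3 h4 ⊢
  field_simp
  linear_combination h4

lemma contDiff_Tr (ε : ℝ) : ContDiff ℝ 1 (Tr ε) := by
  unfold Tr
  refine contDiff_id.div (ContDiff.sqrt (by fun_prop) fun z => ?_) fun z => ?_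
  · positivity
  · have := one_le_sqrtT ε z
    positivity

lemma abs_Tr_le (ε z : ℝ) : |Tr ε z| ≤ |z| := by
  unfold Tr
  rw [abs_div, abs_of_nonneg (Real.sqrt_nonneg _)]
  exact div_le_self (abs_nonneg z) (one_le_sqrtT ε z)

lemma abs_Tr_le' {ε : ℝ} (hε : 0 < ε) (z : ℝ) : |Tr ε z| ≤ 1 / ε := by
  unfold Tr
  have h1 := one_le_sqrtT ε z
  rw [abs_div, abs_of_nonneg (Real.sqrt_nonneg _), div_le_div_iff₀ (by positivity) hε]
  have : |ε * z| ≤ √(1 + (ε * z) ^ 2) := Real.abs_le_sqrt (by linarith)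
  rw [abs_mul, abs_of_pos hε] at this
  linarith

lemma Tr_zero (ε : ℝ) : Tr ε 0 = 0 := by simp [Tr]

lemma Tr'_nonneg (ε z : ℝ) : 0 ≤ Tr' ε z := by unfold Tr'; positivity

lemma Tr'_le_one (ε z : ℝ) : Tr' ε z ≤ 1 := by
  unfold Tr'
  have h1 := one_le_sqrtT ε z
  rw [div_le_one (by positivity)]
  exact one_le_pow₀ h1

lemma continuous_Tr' (ε : ℝ) : Continuous (Tr' ε) := by
  unfold Tr'
  refine continuous_const.div (by fun_prop) fun z => ?_
  have := one_le_sqrtT ε z
  positivity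

lemma continuous_Tr (ε : ℝ) : Continuous (Tr ε) := (contDiff_Tr ε).continuous

lemma tendsto_sqrtT (z : ℝ) {ε : ℕ → ℝ} (hε : Tendsto ε atTop (𝓝 0)) :
    Tendsto (fun n => √(1 + (ε n * z) ^ 2)) atTop (𝓝 1) := by
  have h1 : Continuous fun e : ℝ => √(1 + (e * z) ^ 2) := by fun_prop
  have h2 := (h1.tendsto 0).comp hε
  simp only [zero_mul] at h2
  norm_num at h2
  exact h2

lemma tendsto_Tr (z : ℝ) {ε : ℕ → ℝ} (hε : Tendsto ε atTop (𝓝 0)) :
    Tendsto (fun n => Tr (ε n) z) atTop (𝓝 z) := by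
  have := (tendsto_const_nhds (x := z)).div (tendsto_sqrtT z hε) one_ne_zero
  rw [div_one] at this
  exact this

lemma tendsto_Tr' (z : ℝ) {ε : ℕ → ℝ} (hε : Tendsto ε atTop (𝓝 0)) :
    Tendsto (fun n => Tr' (ε n) z) atTop (𝓝 1) := by
  have := (tendsto_const_nhds (x := (1 : ℝ))).div ((tendsto_sqrtT z hε).pow 3) (by norm_num)
  rw [one_pow, div_one] at this
  exact this

/-- chain rule for the gradient -/
lemma gradient_add_Tr {u φ : Es m → ℝ} (hu : ContDiff ℝ 1 u) (hφ : ContDiff ℝ 1 φ) (ε : ℝ)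
    (x : Es m) :
    gradient (fun x => u x + Tr ε (φ x)) x = gradient u x + Tr' ε (φ x) • gradient φ x := by
  have h1 := ((hu.differentiable (by norm_num)) x).hasFDerivAt
  have h2 := (hasDerivAt_Tr ε (φ x)).comp_hasFDerivAt x
    ((hφ.differentiable (by norm_num)) x).hasFDerivAt
  have h3 := (h1.add h2).fderiv
  have h4 : (fun x => u x + Tr ε (φ x)) = u + (Tr ε ∘ φ) := rfl
  unfold gradient
  rw [h4, h3, map_add, map_smul]

/-- The energy inequality on a bounded set. -/
lemma energy_ball (hm : 5 ≤ m) {u ψ : Es m → ℝ} (hu : IsSaddleShaped m u) (hψ : ContDiff ℝ 1 ψ)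
    (hψc : HasCompactSupport ψ) {x0 : Es m} {R : ℝ} (hsupp : tsupport ψ ⊆ ball x0 R) :
    ∫ x in ball x0 R, dens u (gradient u) x ≤
      ∫ x in ball x0 R, dens (fun x => u x + ψ x) (gradient fun x => u x + ψ x) x := by
  have hc : ContDiff ℝ 1 u := hu.smooth.of_le (by norm_num)
  have hv : ContDiff ℝ 1 (fun x => u x + ψ x) := hc.add hψ
  have key := energy_C1 hm hu hψ hψc
  have hD0 : ∀ x, x ∉ ball x0 R → (dens (fun x => u x + ψ x) (gradient fun x => u x + ψ x) x -
      dens u (gradient u) x) = 0 := by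
    intro x hx
    have hx' : x ∉ tsupport ψ := fun h => hx (hsupp h)
    have h1 : ψ x = 0 := image_eq_zero_of_notMem_tsupport hx'
    have h2 : gradient (fun x => u x + ψ x) x = gradient u x := by
      have h3 : (fun x => u x + ψ x) =ᶠ[𝓝 x] u := by
        have : ∀ᶠ y in 𝓝 x, y ∉ tsupport ψ :=
          (isClosed_tsupport ψ).isOpen_compl.mem_nhds hx'
        filter_upwards [this] with y hy
        rw [image_eq_zero_of_notMem_tsupport hy, add_zero]
      unfold gradient
      rw [h3.fderiv_eq]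
    simp only [dens, h1, h2, add_zero, sub_self]
  rw [← setIntegral_eq_integral_of_forall_compl_eq_zero hD0] at key
  have hcont : ∀ w : Es m → ℝ, ContDiff ℝ 1 w → IntegrableOn (dens w (gradient w)) (ball x0 R) := by
    intro w hw
    have h1 := continuous_gradient hw
    have h2 := hw.continuous
    have h3 : Continuous (dens w (gradient w)) := by
      unfold dens
      fun_prop
    exact (h3.continuousOn.integrableOn_compact (isCompact_closedBall x0 R)).mono_set
      ball_subset_closedBall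
  rw [integral_sub (hcont _ hv) (hcont _ hc)] at key
  linarith

/-- `φ ∈ H¹₀(B)` with weak gradient `G`: the pair `(φ, G)` is the limit in `L²(B)` of the pairs
`(φ_n, ∇φ_n)` with `φ_n ∈ C_c^∞(B)`. -/
structure IsH10 (B : Set (Es m)) (φ : Es m → ℝ) (G : Es m → Es m) : Prop where
  memLp : MemLp φ 2 (volume.restrict B)
  memLp_grad : MemLp G 2 (volume.restrict B)
  approx : ∃ φn : ℕ → Es m → ℝ,
    (∀ n, ContDiff ℝ ∞ (φn n) ∧ HasCompactSupport (φn n) ∧ tsupport (φn n) ⊆ B) ∧
    Tendsto (fun n => eLpNorm (fun x => φn n x - φ x) 2 (volume.restrict B)) atTop (𝓝 0) ∧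
    Tendsto (fun n => eLpNorm (fun x => gradient (φn n) x - G x) 2 (volume.restrict B))
      atTop (𝓝 0)

lemma tendsto_integral_sq {μ : Measure (Es m)} {f : ℕ → Es m → Es m}
    (hf : ∀ n, MemLp (f n) 2 μ) (h : Tendsto (fun n => eLpNorm (f n) 2 μ) atTop (𝓝 0)) :
    Tendsto (fun n => ∫ x, ‖f n x‖ ^ 2 ∂μ) atTop (𝓝 0) := by
  have e : ∀ n, ∫ x, ‖f n x‖ ^ 2 ∂μ = (eLpNorm (f n) 2 μ).toReal ^ 2 := by
    intro n
    have h1 := (hf n).eLpNorm_eq_integral_rpow_norm (by norm_num) (by norm_num)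
    have h0 : 0 ≤ ∫ x, ‖f n x‖ ^ 2 ∂μ := integral_nonneg fun x => by positivity
    simp only [ENNReal.toReal_ofNat, Real.rpow_two] at h1
    rw [h1, ENNReal.toReal_ofReal (by positivity), ← Real.rpow_natCast, ← Real.rpow_mul h0]
    norm_num
  simp_rw [e]
  have h2 : Tendsto (fun n => (eLpNorm (f n) 2 μ).toReal) atTop (𝓝 0) := by
    have := (ENNReal.continuousAt_toReal ENNReal.zero_ne_top).tendsto.comp h
    rw [ENNReal.toReal_zero] at this
    exact this
  simpa using h2.pow 2

lemma young_sq (a b : Es m) {η : ℝ} (hη : 0 < η) :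
    ‖a + b‖ ^ 2 ≤ (1 + η) * ‖a‖ ^ 2 + (1 + 1 / η) * ‖b‖ ^ 2 := by
  have h1 : ‖a + b‖ ^ 2 ≤ (‖a‖ + ‖b‖) ^ 2 := pow_le_pow_left₀ (norm_nonneg _) (norm_add_le a b) 2
  have h2 : 0 ≤ (η * ‖a‖ - ‖b‖) ^ 2 / η := by positivity
  have h3 : (η * ‖a‖ - ‖b‖) ^ 2 / η = η * ‖a‖ ^ 2 - 2 * ‖a‖ * ‖b‖ + 1 / η * ‖b‖ ^ 2 := by
    field_simp
    ring
  nlinarith

section trunc

variable {u : Es m → ℝ} {x0 : Es m} {R : ℝ}

lemma exists_bound_ball {E : Type*} [NormedAddCommGroup E] {f : Es m → E} (hf : Continuous f)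
    (x0 : Es m) (R : ℝ) : ∃ K, 0 ≤ K ∧ ∀ x ∈ ball x0 R, ‖f x‖ ≤ K := by
  obtain ⟨K, hK⟩ := (isCompact_closedBall x0 R).exists_bound_of_continuousOn hf.continuousOn
  exact ⟨max K 0, le_max_right _ _, fun x hx => (hK x (ball_subset_closedBall hx)).trans
    (le_max_left _ _)⟩

/-- the energy inequality for truncations -/
lemma trunc_ineq (hm : 5 ≤ m) (hu : IsSaddleShaped m u) {φ : Es m → ℝ} {G : Es m → Es m}
    (h : IsH10 (ball x0 R) φ G) {ε : ℝ} (hε : 0 < ε) :
    ∫ x in ball x0 R, dens u (gradient u) x ≤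
      (∫ x in ball x0 R, 1 / 2 * ‖gradient u x + Tr' ε (φ x) • G x‖ ^ 2) +
      ∫ x in ball x0 R, 1 / 4 * (1 - (u x + Tr ε (φ x)) ^ 2) ^ 2 := by
  have hc : ContDiff ℝ 1 u := hu.smooth.of_le (by norm_num)
  have cu := hc.continuous
  have cgu := continuous_gradient hc
  obtain ⟨φn, hφn, hL, hLG⟩ := h.approx
  set μ := (volume : Measure (Es m)).restrict (ball x0 R) with hμ
  have hfin : IsFiniteMeasure μ := ⟨by
    rw [hμ, Measure.restrict_apply_univ]; exact measure_ball_lt_top⟩
  have hcn : ∀ n, ContDiff ℝ 1 (φn n) := fun n => (hφn n).1.of_le (by norm_num)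
  have hball : MeasurableSet (ball x0 R) := measurableSet_ball
  -- subsequence
  obtain ⟨ns, hns, hae⟩ := (tendstoInMeasure_of_tendsto_eLpNorm (p := 2) (by norm_num)
    (fun n => (hcn n).continuous.aestronglyMeasurable) h.memLp.aestronglyMeasurable
    hL).exists_seq_tendsto_ae
  have hnst := hns.tendsto_atTop
  obtain ⟨K1, hK10, hK1⟩ := exists_bound_ball cu x0 R
  obtain ⟨K2, hK20, hK2⟩ := exists_bound_ball cgu x0 R
  -- square integrability
  have mgu : MemLp (gradient u) 2 μ := by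
    refine MemLp.of_bound cgu.aestronglyMeasurable K2 ?_
    filter_upwards [self_mem_ae_restrict hball] with x hx using hK2 x hx
  have mgn : ∀ n, MemLp (gradient (φn n)) 2 μ := fun n => by
    have c := continuous_gradient (hcn n)
    obtain ⟨K, _, hK⟩ := exists_bound_ball c x0 R
    refine MemLp.of_bound c.aestronglyMeasurable K ?_
    filter_upwards [self_mem_ae_restrict hball] with x hx using hK x hx
  have hGm := h.memLp_grad
  have isq : Integrable (fun x => ‖gradient u x‖ ^ 2 + ‖G x‖ ^ 2) μ :=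
    (mgu.integrable_norm_pow (p := 2) (by norm_num)).add
      (hGm.integrable_norm_pow (p := 2) (by norm_num))
  -- the pieces
  have mT : ∀ n, AEStronglyMeasurable (fun x => Tr' ε (φn n x)) μ := fun n =>
    ((continuous_Tr' ε).comp (hcn n).continuous).aestronglyMeasurable
  have mA : ∀ n, AEStronglyMeasurable (fun x => gradient u x + Tr' ε (φn n x) • G x) μ := fun n =>
    cgu.aestronglyMeasurable.add ((mT n).smul hGm.aestronglyMeasurable)
  have mA' : AEStronglyMeasurable (fun x => gradient u x + Tr' ε (φ x) • G x) μ :=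
    cgu.aestronglyMeasurable.add
      (((continuous_Tr' ε).comp_aestronglyMeasurable h.memLp.aestronglyMeasurable).smul
      hGm.aestronglyMeasurable)
  have bA : ∀ (z : ℝ) (x : Es m), ‖1 / 2 * ‖gradient u x + Tr' ε z • G x‖ ^ 2‖ ≤
      ‖gradient u x‖ ^ 2 + ‖G x‖ ^ 2 := by
    intro z x
    rw [Real.norm_eq_abs, abs_of_nonneg (by positivity)]
    have h1 := young_sq (gradient u x) (Tr' ε z • G x) one_pos
    have h2 : ‖Tr' ε z • G x‖ ≤ ‖G x‖ := by
      rw [norm_smul, Real.norm_eq_abs, abs_of_nonneg (Tr'_nonneg _ _)]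
      exact mul_le_of_le_one_left (norm_nonneg _) (Tr'_le_one _ _)
    have h3 := pow_le_pow_left₀ (norm_nonneg _) h2 2
    linarith
  have iA : ∀ n, Integrable (fun x => 1 / 2 * ‖gradient u x + Tr' ε (φn n x) • G x‖ ^ 2) μ :=
    fun n => isq.mono' (((mA n).norm.pow 2).const_mul _) (Filter.Eventually.of_forall fun x => bA _ x)
  have iA' : Integrable (fun x => 1 / 2 * ‖gradient u x + Tr' ε (φ x) • G x‖ ^ 2) μ :=
    isq.mono' ((mA'.norm.pow 2).const_mul _) (Filter.Eventually.of_forall fun x => bA _ x)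
  set C0 : ℝ := 1 / 4 * (1 + (K1 + 1 / ε) ^ 2) ^ 2 with hC0
  have bC : ∀ (z : ℝ) (x : Es m), x ∈ ball x0 R → ‖1 / 4 * (1 - (u x + Tr ε z) ^ 2) ^ 2‖ ≤ C0 := by
    intro z x hx
    rw [Real.norm_eq_abs, abs_of_nonneg (by positivity), hC0]
    have h1 : |u x + Tr ε z| ≤ K1 + 1 / ε :=
      (abs_add_le _ _).trans (add_le_add (hK1 x hx) (abs_Tr_le' hε z))
    have h2 : (u x + Tr ε z) ^ 2 ≤ (K1 + 1 / ε) ^ 2 := by
      rw [← sq_abs (u x + Tr ε z)]
      exact pow_le_pow_left₀ (abs_nonneg _) h1 2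
    have h3 := sq_nonneg (u x + Tr ε z)
    refine mul_le_mul_of_nonneg_left ?_ (by norm_num)
    rw [← sq_abs (1 - (u x + Tr ε z) ^ 2)]
    refine pow_le_pow_left₀ (abs_nonneg _) ?_ 2
    rw [abs_le]
    constructor <;> linarith
  have mC : ∀ n, AEStronglyMeasurable (fun x => 1 / 4 * (1 - (u x + Tr ε (φn n x)) ^ 2) ^ 2) μ :=
    fun n => by
    have c1 := (continuous_Tr ε).comp (hcn n).continuous
    have c2 : Continuous (fun x => 1 / 4 * (1 - (u x + Tr ε (φn n x)) ^ 2) ^ 2) := by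
      simp only [Function.comp_def] at c1
      fun_prop
    exact c2.aestronglyMeasurable
  have iC : ∀ n, Integrable (fun x => 1 / 4 * (1 - (u x + Tr ε (φn n x)) ^ 2) ^ 2) μ := fun n =>
    Integrable.of_bound (mC n) C0 (by
      filter_upwards [self_mem_ae_restrict hball] with x hx using bC _ x hx)
  -- limits
  have LA : Tendsto (fun j => ∫ x, 1 / 2 * ‖gradient u x + Tr' ε (φn (ns j) x) • G x‖ ^ 2 ∂μ) atTop
      (𝓝 (∫ x, 1 / 2 * ‖gradient u x + Tr' ε (φ x) • G x‖ ^ 2 ∂μ)) := by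
    refine tendsto_integral_of_dominated_convergence _ (fun j => (iA (ns j)).aestronglyMeasurable)
      isq (fun j => Filter.Eventually.of_forall fun x => bA _ x) ?_
    filter_upwards [hae] with x hx
    have h1 := ((continuous_Tr' ε).tendsto (φ x)).comp hx
    exact (((tendsto_const_nhds.add (h1.smul_const (G x))).norm).pow 2).const_mul _
  have LC : Tendsto (fun j => ∫ x, 1 / 4 * (1 - (u x + Tr ε (φn (ns j) x)) ^ 2) ^ 2 ∂μ) atTop
      (𝓝 (∫ x, 1 / 4 * (1 - (u x + Tr ε (φ x)) ^ 2) ^ 2 ∂μ)) := by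
    refine tendsto_integral_of_dominated_convergence (fun _ => C0) (fun j => mC (ns j))
      (integrable_const _) (fun j => by
        filter_upwards [self_mem_ae_restrict hball] with x hx using bC _ x hx) ?_
    filter_upwards [hae] with x hx
    have h1 := ((continuous_Tr ε).tendsto (φ x)).comp hx
    exact ((tendsto_const_nhds.sub ((tendsto_const_nhds.add h1).pow 2)).pow 2).const_mul _
  have LB : Tendsto (fun j => ∫ x, ‖gradient (φn (ns j)) x - G x‖ ^ 2 ∂μ) atTop (𝓝 0) :=
    tendsto_integral_sq (f := fun j x => gradient (φn (ns j)) x - G x)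
      (fun j => (mgn (ns j)).sub hGm) (hLG.comp hnst)
  -- the inequality for each `j` and `η`
  have step : ∀ (η : ℝ), 0 < η → ∀ j, ∫ x, dens u (gradient u) x ∂μ ≤
      (1 + η) * (∫ x, 1 / 2 * ‖gradient u x + Tr' ε (φn (ns j) x) • G x‖ ^ 2 ∂μ) +
      (1 / 2 * (1 + 1 / η)) * (∫ x, ‖gradient (φn (ns j)) x - G x‖ ^ 2 ∂μ) +
      ∫ x, 1 / 4 * (1 - (u x + Tr ε (φn (ns j) x)) ^ 2) ^ 2 ∂μ := by
    intro η hη j
    have hψ : ContDiff ℝ 1 (fun x => Tr ε (φn (ns j) x)) := (contDiff_Tr ε).comp (hcn (ns j))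
    have hsub : tsupport (fun x => Tr ε (φn (ns j) x)) ⊆ tsupport (φn (ns j)) := by
      refine closure_mono fun x hx => ?_
      rw [Function.mem_support] at hx ⊢
      intro h0
      exact hx (by simp only [h0, Tr_zero])
    have hψc : HasCompactSupport (fun x => Tr ε (φn (ns j) x)) :=
      HasCompactSupport.of_support_subset_isCompact (hφn (ns j)).2.1
        (subset_closure.trans hsub)
    have h1 := energy_ball hm hu hψ hψc (x0 := x0) (R := R) (hsub.trans (hφn (ns j)).2.2)
    refine h1.trans ?_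
    have iB : Integrable (fun x => ‖gradient (φn (ns j)) x - G x‖ ^ 2) μ :=
      ((mgn (ns j)).sub hGm).integrable_norm_pow (p := 2) (by norm_num)
    have i1 : Integrable (fun x => (1 + η) * (1 / 2 * ‖gradient u x + Tr' ε (φn (ns j) x) • G x‖ ^ 2)) μ :=
      (iA (ns j)).const_mul _
    have i2 : Integrable (fun x => (1 / 2 * (1 + 1 / η)) * ‖gradient (φn (ns j)) x - G x‖ ^ 2) μ :=
      iB.const_mul _
    have i12 : Integrable (fun x => (1 + η) * (1 / 2 * ‖gradient u x + Tr' ε (φn (ns j) x) • G x‖ ^ 2) +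
      (1 / 2 * (1 + 1 / η)) * ‖gradient (φn (ns j)) x - G x‖ ^ 2) μ := i1.add i2
    have e1 : (1 + η) * (∫ x, 1 / 2 * ‖gradient u x + Tr' ε (φn (ns j) x) • G x‖ ^ 2 ∂μ) +
      (1 / 2 * (1 + 1 / η)) * (∫ x, ‖gradient (φn (ns j)) x - G x‖ ^ 2 ∂μ) +
      ∫ x, 1 / 4 * (1 - (u x + Tr ε (φn (ns j) x)) ^ 2) ^ 2 ∂μ =
      ∫ x, ((1 + η) * (1 / 2 * ‖gradient u x + Tr' ε (φn (ns j) x) • G x‖ ^ 2) +
        (1 / 2 * (1 + 1 / η)) * ‖gradient (φn (ns j)) x - G x‖ ^ 2 +
        1 / 4 * (1 - (u x + Tr ε (φn (ns j) x)) ^ 2) ^ 2) ∂μ := by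
      rw [integral_add i12 (iC (ns j)), integral_add i1 i2, integral_const_mul (1 + η),
        integral_const_mul (1 / 2 * (1 + 1 / η))]
    rw [e1]
    refine integral_mono ?_ (i12.add (iC (ns j))) fun x => ?_
    · have hv : ContDiff ℝ 1 (fun x => u x + Tr ε (φn (ns j) x)) := hc.add hψ
      have c1 := continuous_gradient hv
      have c2 := hv.continuous
      have c3 : Continuous (dens (fun x => u x + Tr ε (φn (ns j) x))
          (gradient fun x => u x + Tr ε (φn (ns j) x))) := by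
        unfold dens
        fun_prop
      exact (c3.continuousOn.integrableOn_compact (isCompact_closedBall x0 R)).mono_set
        ball_subset_closedBall
    · simp only [dens]
      rw [gradient_add_Tr hc (hcn (ns j))]
      have e2 : gradient u x + Tr' ε (φn (ns j) x) • gradient (φn (ns j)) x =
          (gradient u x + Tr' ε (φn (ns j) x) • G x) +
          Tr' ε (φn (ns j) x) • (gradient (φn (ns j)) x - G x) := by
        rw [smul_sub]; abel
      rw [e2]
      have h4 := young_sq (gradient u x + Tr' ε (φn (ns j) x) • G x)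
        (Tr' ε (φn (ns j) x) • (gradient (φn (ns j)) x - G x)) hη
      have h5 : ‖Tr' ε (φn (ns j) x) • (gradient (φn (ns j)) x - G x)‖ ≤
          ‖gradient (φn (ns j)) x - G x‖ := by
        rw [norm_smul, Real.norm_eq_abs, abs_of_nonneg (Tr'_nonneg _ _)]
        exact mul_le_of_le_one_left (norm_nonneg _) (Tr'_le_one _ _)
      have h6 := mul_le_mul_of_nonneg_left (pow_le_pow_left₀ (norm_nonneg _) h5 2)
        (show 0 ≤ 1 + 1 / η by positivity)
      linarith
  -- pass to the limit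
  have lim : ∀ (η : ℝ), 0 < η → ∫ x, dens u (gradient u) x ∂μ ≤
      (1 + η) * (∫ x, 1 / 2 * ‖gradient u x + Tr' ε (φ x) • G x‖ ^ 2 ∂μ) +
      ∫ x, 1 / 4 * (1 - (u x + Tr ε (φ x)) ^ 2) ^ 2 ∂μ := by
    intro η hη
    have L := ((LA.const_mul (1 + η)).add (LB.const_mul (1 / 2 * (1 + 1 / η)))).add LC
    rw [mul_zero, add_zero] at L
    exact ge_of_tendsto' L (step η hη)
  have L2 : Tendsto (fun n : ℕ => (1 + 1 / ((n : ℝ) + 1)) *
      (∫ x, 1 / 2 * ‖gradient u x + Tr' ε (φ x) • G x‖ ^ 2 ∂μ) +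
      ∫ x, 1 / 4 * (1 - (u x + Tr ε (φ x)) ^ 2) ^ 2 ∂μ) atTop
      (𝓝 ((1 + 0) * (∫ x, 1 / 2 * ‖gradient u x + Tr' ε (φ x) • G x‖ ^ 2 ∂μ) +
      ∫ x, 1 / 4 * (1 - (u x + Tr ε (φ x)) ^ 2) ^ 2 ∂μ)) :=
    ((tendsto_const_nhds.add tendsto_one_div_add_atTop_nhds_zero_nat).mul_const _).add_const _
  rw [add_zero, one_mul] at L2
  exact ge_of_tendsto' L2 fun n => lim _ (by positivity)

end trunc

end

end Pool.Agent.Lib.MP_98c801_an

/-!
Saddle-shaped solutions are minimizers in dimension `2m ≥ 10`.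
-/

namespace Pool.Agent.Lib.MP_98c801_an

open Real Set MeasureTheory Filter Topology Metric
open scoped ENNReal ContDiff

noncomputable section

variable {m : ℕ}

/-- the Allen-Cahn energy `E(v, B)` of a function `v` with gradient `G` -/
def energy (B : Set (Es m)) (v : Es m → ℝ) (G : Es m → Es m) : ℝ≥0∞ :=
  ∫⁻ x in B, ENNReal.ofReal (1 / 2 * ‖G x‖ ^ 2 + 1 / 4 * (1 - v x ^ 2) ^ 2)

/-- `u` is a minimizer: `E(u, B) ≤ E(v, B)` for all open balls `B` and all `v ∈ H¹(B)` with `v = u`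
on `∂B`, that is `v - u ∈ H¹₀(B)`; `G` is the weak gradient of `v`. -/
def IsMinimizer (u : Es m → ℝ) : Prop :=
  ∀ (x0 : Es m) (R : ℝ), 0 < R → ∀ (v : Es m → ℝ) (G : Es m → Es m),
    IsH10 (ball x0 R) (fun x => v x - u x) (fun x => G x - gradient u x) →
    energy (ball x0 R) u (gradient u) ≤ energy (ball x0 R) v G

lemma pot_bound {K u v T : ℝ} (hu : |u| ≤ K) (hT : |T| ≤ |v - u|) :
    1 / 4 * (1 - (u + T) ^ 2) ^ 2 ≤ 1 / 4 * (17 + 128 * K ^ 4) + 4 * (1 - v ^ 2) ^ 2 := by
  have hK : 0 ≤ K := (abs_nonneg u).trans hu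
  have h1 : |u + T| ≤ 2 * K + |v| := by
    have h2 := abs_add_le u T
    have h3 : |v - u| ≤ |v| + |u| := abs_sub v u
    linarith
  have h2 : (u + T) ^ 4 ≤ (2 * K + |v|) ^ 4 := by
    have : (u + T) ^ 4 = |u + T| ^ 4 := by
      rw [← abs_pow, abs_of_nonneg (by positivity)]
    rw [this]
    exact pow_le_pow_left₀ (abs_nonneg _) h1 4
  have h3 : (2 * K + |v|) ^ 4 ≤ 128 * K ^ 4 + 8 * v ^ 4 := by
    have hv4 : v ^ 4 = |v| ^ 4 := by rw [← abs_pow, abs_of_nonneg (by positivity)]
    rw [hv4]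
    have h4 : (2 * K + |v|) ^ 2 ≤ 2 * ((2 * K) ^ 2 + |v| ^ 2) := by
      nlinarith [sq_nonneg (2 * K - |v|)]
    have h5 : ((2 * K + |v|) ^ 2) ^ 2 ≤ (2 * ((2 * K) ^ 2 + |v| ^ 2)) ^ 2 :=
      pow_le_pow_left₀ (by positivity) h4 2
    nlinarith [sq_nonneg ((2 * K) ^ 2 - |v| ^ 2)]
  have h6 : v ^ 4 ≤ 2 * (1 - v ^ 2) ^ 2 + 2 := by nlinarith [sq_nonneg (v ^ 2 - 2)]
  have h7 : (1 - (u + T) ^ 2) ^ 2 ≤ 1 + (u + T) ^ 4 := by nlinarith [sq_nonneg (u + T)]
  linarith

/-- Saddle-shaped solutions are minimizers for `m ≥ 5`. -/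
theorem saddle_isMinimizer (hm : 5 ≤ m) {u : Es m → ℝ} (hu : IsSaddleShaped m u) :
    IsMinimizer u := by
  intro x0 R hR v G h
  rcases eq_or_ne (energy (ball x0 R) v G) ⊤ with htop | hne
  · rw [htop]; exact le_top
  have hc : ContDiff ℝ 1 u := hu.smooth.of_le (by norm_num)
  have cu := hc.continuous
  have cgu := continuous_gradient hc
  have hball : MeasurableSet (ball x0 R) := measurableSet_ball
  unfold energy at hne ⊢
  set μ := (volume : Measure (Es m)).restrict (ball x0 R) with hμ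
  have hfin : IsFiniteMeasure μ := ⟨by
    rw [hμ, Measure.restrict_apply_univ]; exact measure_ball_lt_top⟩
  obtain ⟨K1, hK10, hK1⟩ := exists_bound_ball cu x0 R
  obtain ⟨K2, hK20, hK2⟩ := exists_bound_ball cgu x0 R
  have mv : AEStronglyMeasurable v μ := by
    have := h.memLp.aestronglyMeasurable.add (cu.aestronglyMeasurable (μ := μ))
    refine this.congr (Filter.Eventually.of_forall fun x => ?_)
    simp
  have mG : AEStronglyMeasurable G μ := by
    have := h.memLp_grad.aestronglyMeasurable.add (cgu.aestronglyMeasurable (μ := μ))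
    refine this.congr (Filter.Eventually.of_forall fun x => ?_)
    simp
  have mgu : MemLp (gradient u) 2 μ := by
    refine MemLp.of_bound cgu.aestronglyMeasurable K2 ?_
    filter_upwards [self_mem_ae_restrict hball] with x hx using hK2 x hx
  have hGm := h.memLp_grad
  have isq : Integrable (fun x => ‖gradient u x‖ ^ 2 + ‖G x - gradient u x‖ ^ 2) μ :=
    (mgu.integrable_norm_pow (p := 2) (by norm_num)).add
      (hGm.integrable_norm_pow (p := 2) (by norm_num))
  have mpot : AEStronglyMeasurable (fun x => (1 - v x ^ 2) ^ 2) μ :=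
    ((aestronglyMeasurable_const.sub (mv.pow 2)).pow 2)
  have me : AEStronglyMeasurable (fun x => 1 / 2 * ‖G x‖ ^ 2 + 1 / 4 * (1 - v x ^ 2) ^ 2) μ :=
    ((mG.norm.pow 2).const_mul _).add (mpot.const_mul _)
  have e0 : ∀ x, 0 ≤ 1 / 2 * ‖G x‖ ^ 2 + 1 / 4 * (1 - v x ^ 2) ^ 2 := fun x => by positivity
  have ie : Integrable (fun x => 1 / 2 * ‖G x‖ ^ 2 + 1 / 4 * (1 - v x ^ 2) ^ 2) μ := by
    refine ⟨me, ?_⟩
    rw [hasFiniteIntegral_iff_ofReal (Filter.Eventually.of_forall e0)]
    exact lt_top_iff_ne_top.2 hne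
  have ipot : Integrable (fun x => (1 - v x ^ 2) ^ 2) μ := by
    refine (ie.const_mul 4).mono' mpot (Filter.Eventually.of_forall fun x => ?_)
    rw [Real.norm_eq_abs, abs_of_nonneg (by positivity)]
    have : 0 ≤ ‖G x‖ ^ 2 := by positivity
    linarith
  have iG : Integrable (fun x => 1 / 2 * ‖G x‖ ^ 2) μ := by
    refine ie.mono' ((mG.norm.pow 2).const_mul _) (Filter.Eventually.of_forall fun x => ?_)
    rw [Real.norm_eq_abs, abs_of_nonneg (by positivity)]
    have : 0 ≤ (1 - v x ^ 2) ^ 2 := by positivity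
    linarith
  -- the truncated inequalities
  have hε : ∀ k : ℕ, (0 : ℝ) < 1 / ((k : ℝ) + 1) := fun k => by positivity
  have lε : Tendsto (fun k : ℕ => 1 / ((k : ℝ) + 1)) atTop (𝓝 0) :=
    tendsto_one_div_add_atTop_nhds_zero_nat
  have step := fun k : ℕ => trunc_ineq hm hu h (hε k)
  have LA : Tendsto (fun k : ℕ => ∫ x in ball x0 R, 1 / 2 * ‖gradient u x +
      Tr' (1 / ((k : ℝ) + 1)) (v x - u x) • (G x - gradient u x)‖ ^ 2) atTop
      (𝓝 (∫ x in ball x0 R, 1 / 2 * ‖G x‖ ^ 2)) := by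
    refine tendsto_integral_of_dominated_convergence
      (fun x => ‖gradient u x‖ ^ 2 + ‖G x - gradient u x‖ ^ 2) (fun k => ?_) isq (fun k => ?_) ?_
    · have m1 : AEStronglyMeasurable (fun x => Tr' (1 / ((k : ℝ) + 1)) (v x - u x)) μ :=
        (continuous_Tr' _).comp_aestronglyMeasurable h.memLp.aestronglyMeasurable
      have m2 : AEStronglyMeasurable (fun x => gradient u x +
          Tr' (1 / ((k : ℝ) + 1)) (v x - u x) • (G x - gradient u x)) μ :=
        cgu.aestronglyMeasurable.add (m1.smul hGm.aestronglyMeasurable)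
      exact (m2.norm.pow 2).const_mul _
    · refine Filter.Eventually.of_forall fun x => ?_
      rw [Real.norm_eq_abs, abs_of_nonneg (by positivity)]
      have h1 := young_sq (gradient u x)
        (Tr' (1 / ((k : ℝ) + 1)) (v x - u x) • (G x - gradient u x)) one_pos
      have h2 : ‖Tr' (1 / ((k : ℝ) + 1)) (v x - u x) • (G x - gradient u x)‖ ≤
          ‖G x - gradient u x‖ := by
        rw [norm_smul, Real.norm_eq_abs, abs_of_nonneg (Tr'_nonneg _ _)]
        exact mul_le_of_le_one_left (norm_nonneg _) (Tr'_le_one _ _)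
      have h3 := pow_le_pow_left₀ (norm_nonneg _) h2 2
      linarith
    · refine Filter.Eventually.of_forall fun x => ?_
      have h1 := (tendsto_const_nhds (x := gradient u x)).add
        ((tendsto_Tr' (v x - u x) lε).smul_const (G x - gradient u x))
      rw [one_smul, add_sub_cancel] at h1
      exact ((h1.norm).pow 2).const_mul _
  have LC : Tendsto (fun k : ℕ => ∫ x in ball x0 R, 1 / 4 * (1 - (u x +
      Tr (1 / ((k : ℝ) + 1)) (v x - u x)) ^ 2) ^ 2) atTop
      (𝓝 (∫ x in ball x0 R, 1 / 4 * (1 - v x ^ 2) ^ 2)) := by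
    refine tendsto_integral_of_dominated_convergence
      (fun x => 1 / 4 * (17 + 128 * K1 ^ 4) + 4 * (1 - v x ^ 2) ^ 2) (fun k => ?_)
      ((integrable_const _).add (ipot.const_mul 4)) (fun k => ?_) ?_
    · have h1 : AEStronglyMeasurable (fun x => Tr (1 / ((k : ℝ) + 1)) (v x - u x)) μ :=
        (continuous_Tr _).comp_aestronglyMeasurable h.memLp.aestronglyMeasurable
      exact ((aestronglyMeasurable_const.sub ((cu.aestronglyMeasurable.add h1).pow 2)).pow
        2).const_mul _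
    · filter_upwards [self_mem_ae_restrict hball] with x hx
      rw [Real.norm_eq_abs, abs_of_nonneg (by positivity)]
      exact pot_bound (hK1 x hx) (abs_Tr_le _ _)
    · refine Filter.Eventually.of_forall fun x => ?_
      have h1 := (tendsto_const_nhds (x := u x)).add (tendsto_Tr (v x - u x) lε)
      rw [add_sub_cancel] at h1
      exact ((tendsto_const_nhds.sub (h1.pow 2)).pow 2).const_mul _
  have key := ge_of_tendsto' (LA.add LC) step
  have iu : Integrable (fun x => 1 / 2 * ‖gradient u x‖ ^ 2 + 1 / 4 * (1 - u x ^ 2) ^ 2) μ := by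
    have h3 : Continuous (fun x => 1 / 2 * ‖gradient u x‖ ^ 2 + 1 / 4 * (1 - u x ^ 2) ^ 2) := by
      fun_prop
    exact (h3.continuousOn.integrableOn_compact (isCompact_closedBall x0 R)).mono_set
      ball_subset_closedBall
  rw [← ofReal_integral_eq_lintegral_ofReal iu (Filter.Eventually.of_forall fun x => by positivity),
    ← ofReal_integral_eq_lintegral_ofReal ie (Filter.Eventually.of_forall e0)]
  refine ENNReal.ofReal_le_ofReal ?_
  rw [integral_add iG (ipot.const_mul _)]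
  exact key

end

end Pool.Agent.Lib.MP_98c801_an
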